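import Pool.Agent.Lib.MP_7f581e_U.A.Spec1

/-!
# C41 (MP_7f581e_nt), Block A: EmA (task of helper93, by helper77)
-/

set_option autoImplicit false

namespace MP7U

open Polynomial

namespace EmAM

variable {k : Type} [Field k]

theorem coe_coeff {R : Type} [CommRing R] (f : PowerSeries R) (i : ℤ) :
    (HahnSeries.ofPowerSeries ℤ R f).coeff i = if i < 0 then 0 else PowerSeries.coeff i.natAbs f :=
  PowerSeries.coeff_coe f i

theorem mapL_ofPS (f : PowerSeries k) :
    mapL (HahnSeries.C : k →+* LaurentSeries k) (HahnSeries.ofPowerSeries ℤ k f) =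
      HahnSeries.ofPowerSeries ℤ (LaurentSeries k)
        (PowerSeries.mk fun n => HahnSeries.C (PowerSeries.coeff n f)) := by
  ext1
  funext i
  rw [mapL_coeff, coe_coeff, coe_coeff]
  split
  · rw [map_zero]
  · rw [PowerSeries.coeff_mk]

theorem C_ss_mem (a : k) (j : RatFunc (LaurentSeries k) →+* LaurentSeries (LaurentSeries k))
    (hj : IsJ a j) : HahnSeries.C (ss k) ∈ j.range := by
  have h1 : mapL (HahnSeries.C : k →+* LaurentSeries k) (HahnSeries.C a) =
      HahnSeries.C (HahnSeries.C a) := by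
    have := mapL_ofPS (PowerSeries.C a : PowerSeries k)
    rw [HahnSeries.ofPowerSeries_C] at this
    rw [this, ← HahnSeries.ofPowerSeries_C]
    congr 1
    ext1 n
    rw [PowerSeries.coeff_mk, PowerSeries.coeff_C, PowerSeries.coeff_C]
    split
    · rfl
    · rw [map_zero]
  refine ⟨RatFunc.X - algebraMap (LaurentSeries k) (RatFunc (LaurentSeries k)) (HahnSeries.C a), ?_⟩
  rw [map_sub, hj.1, hj.2, h1, map_add, add_sub_cancel_left]

theorem C_xx_mem (a : k) (j : RatFunc (LaurentSeries k) →+* LaurentSeries (LaurentSeries k))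
    (hj : IsJ a j) : HahnSeries.C (xx k) ∈ j.range := by
  obtain ⟨w, hw⟩ := C_ss_mem a j hj
  refine ⟨w⁻¹, ?_⟩
  rw [map_inv₀, hw]
  apply inv_eq_of_mul_eq_one_right
  rw [← map_mul, ss_mul_xx, map_one]

theorem main (a : k) (j : RatFunc (LaurentSeries k) →+* LaurentSeries (LaurentSeries k))
    (hj : IsJ a j) (P : PowerSeries (LaurentSeries k)) (d : ℕ) (u : LaurentSeries k)
    (hu : HahnSeries.C u ∈ j.range) (hP : ∀ n, IsPd u d (PowerSeries.coeff n P)) :
    HahnSeries.ofPowerSeries ℤ (LaurentSeries k) P ∈ j.range := by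
  choose Q hQd hQ using hP
  have key : P = ∑ i ∈ Finset.range (d + 1),
      (PowerSeries.mk fun n => (HahnSeries.C ((Q n).coeff i) : LaurentSeries k)) *
        PowerSeries.C (u ^ i) := by
    ext1 n
    rw [map_sum, ← hQ n, aeval_eq_sum_range' (Nat.lt_succ_of_le (hQd n))]
    refine Finset.sum_congr rfl fun i _ => ?_
    rw [PowerSeries.coeff_mul_C, PowerSeries.coeff_mk, Algebra.smul_def,
      HahnSeries.algebraMap_apply']
    congr 1
    rw [← PowerSeries.C_eq_algebraMap, HahnSeries.ofPowerSeries_C]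
  rw [key, map_sum]
  refine sum_mem fun i _ => ?_
  rw [map_mul, HahnSeries.ofPowerSeries_C, map_pow]
  refine mul_mem ?_ (pow_mem hu i)
  have h1 := mapL_ofPS (PowerSeries.mk fun n => (Q n).coeff i)
  simp only [PowerSeries.coeff_mk] at h1
  rw [← h1, ← hj.1]
  exact ⟨_, rfl⟩

end EmAM

/-- **EmA.** Power series with coefficients which are polynomials of bounded degree. -/
theorem aEmA : EmAStmt := by
  intro k _ a j hj P d h
  rcases h with h | h
  · exact EmAM.main a j hj P d (xx k) (EmAM.C_xx_mem a j hj) h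
  · exact EmAM.main a j hj P d (ss k) (EmAM.C_ss_mem a j hj) h

end MP7U
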