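import Pool.Agent.Lib.MP_7f581e_U.A.Spec1

set_option autoImplicit false

namespace MP7U

namespace FacAM

/-- the pairs `(U_n, V_n)` -/
private noncomputable def W {Λ ι : Type} [Field Λ] [Fintype ι] [DecidableEq ι] (α β : Λ → Λ)
    (M : ℕ → Matrix ι ι Λ) : ℕ → Matrix ι ι Λ × Matrix ι ι Λ
  | 0 => (1, 1)
  | n + 1 =>
    ((M (n + 1) - ∑ i : Fin n, (W α β M (i + 1)).1 * (W α β M (n - i)).2).map α,
      (M (n + 1) - ∑ i : Fin n, (W α β M (i + 1)).1 * (W α β M (n - i)).2).map β)
  termination_by n => n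
  decreasing_by all_goals omega

private theorem W_zero {Λ ι : Type} [Field Λ] [Fintype ι] [DecidableEq ι] (α β : Λ → Λ)
    (M : ℕ → Matrix ι ι Λ) : W α β M 0 = (1, 1) := by
  rw [W]

private theorem W_mem {Λ ι : Type} [Field Λ] [Fintype ι] [DecidableEq ι] {α β : Λ → Λ}
    {A B : Subring Λ} (hα : ∀ z, α z ∈ A) (hβ : ∀ z, β z ∈ B) (M : ℕ → Matrix ι ι Λ) (n : ℕ)
    (i j : ι) : (W α β M n).1 i j ∈ A ∧ (W α β M n).2 i j ∈ B := by
  cases n with
  | zero =>
    rw [W_zero]
    constructor
    · by_cases h : i = j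
      · subst h
        simp only [Matrix.one_apply_eq]
        exact A.one_mem
      · simp only [Matrix.one_apply_ne h]
        exact A.zero_mem
    · by_cases h : i = j
      · subst h
        simp only [Matrix.one_apply_eq]
        exact B.one_mem
      · simp only [Matrix.one_apply_ne h]
        exact B.zero_mem
  | succ n =>
    rw [W]
    exact ⟨hα _, hβ _⟩

private theorem W_sum {Λ ι : Type} [Field Λ] [Fintype ι] [DecidableEq ι] {α β : Λ → Λ}
    (hs : ∀ z, z = α z + β z) (M : ℕ → Matrix ι ι Λ) (hM : M 0 = 1) (n : ℕ) :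
    ∑ p ∈ Finset.HasAntidiagonal.antidiagonal n, (W α β M p.1).1 * (W α β M p.2).2 = M n := by
  rw [Finset.Nat.sum_antidiagonal_eq_sum_range_succ
    (fun a b => (W α β M a).1 * (W α β M b).2) n]
  cases n with
  | zero =>
    simp [W_zero, hM]
  | succ n =>
    rw [Finset.sum_range_succ, Finset.sum_range_succ', Nat.sub_self, Nat.sub_zero, W_zero]
    simp only [one_mul, mul_one]
    have h1 : ∑ k ∈ Finset.range n, (W α β M (k + 1)).1 * (W α β M (n + 1 - (k + 1))).2 =
        ∑ i : Fin n, (W α β M (i + 1)).1 * (W α β M (n - i)).2 := by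
      rw [Finset.sum_range]
      refine Finset.sum_congr rfl (fun i _ => ?_)
      rw [Nat.add_sub_add_right]
    rw [h1]
    have h2 : (W α β M (n + 1)).2 + (W α β M (n + 1)).1 =
        M (n + 1) - ∑ i : Fin n, (W α β M (i + 1)).1 * (W α β M (n - i)).2 := by
      conv_lhs => rw [W]
      ext i j
      rw [add_comm]
      exact (hs _).symm
    rw [add_assoc, h2]
    abel

end FacAM

open FacAM in
theorem aFacA : FacAStmt := by
  classical
  intro Λ _ A B hAB ι _ _ M hM
  choose α hα β hβ hs using hAB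
  let Mn : ℕ → Matrix ι ι Λ := fun n => Matrix.of fun i j => PowerSeries.coeff n (M i j)
  have hM0 : Mn 0 = 1 := by
    ext i j
    have := hM i j
    rw [← PowerSeries.coeff_zero_eq_constantCoeff_apply] at this
    exact this
  let U : Matrix ι ι (PowerSeries Λ) := Matrix.of fun i j => PowerSeries.mk fun n => (W α β Mn n).1 i j
  let T : Matrix ι ι (PowerSeries Λ) := Matrix.of fun i j => PowerSeries.mk fun n => (W α β Mn n).2 i j
  have hU : ∀ i j n, PowerSeries.coeff n (U i j) = (W α β Mn n).1 i j := fun i j n =>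
    PowerSeries.coeff_mk n (fun n => (W α β Mn n).1 i j)
  have hT : ∀ i j n, PowerSeries.coeff n (T i j) = (W α β Mn n).2 i j := fun i j n =>
    PowerSeries.coeff_mk n (fun n => (W α β Mn n).2 i j)
  refine ⟨U, T, fun i j n => ?_, fun i j n => ?_, ?_⟩
  · rw [hU]
    exact (W_mem hα hβ Mn n i j).1
  · rw [hT]
    exact (W_mem hα hβ Mn n i j).2
  · ext i j n
    rw [Matrix.mul_apply, map_sum]
    have h1 : PowerSeries.coeff n (M i j) = Mn n i j := rfl
    rw [h1, ← W_sum hs Mn hM0 n, Matrix.sum_apply]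
    simp only [Matrix.mul_apply, PowerSeries.coeff_mul, hU, hT]
    rw [Finset.sum_comm]

end MP7U
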