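import Pool.Agent.Lib.MP_7f581e_U.A.Spec1

set_option autoImplicit false

namespace MP7U

namespace FcAM

/-- the entries of the inverse are in the subfield -/
private theorem minv_mem {Ω ι : Type} [Field Ω] [Fintype ι] [DecidableEq ι] (P : Subfield Ω)
    (M : Matrix ι ι Ω) (hM : ∀ i j, M i j ∈ P) (i j : ι) : M⁻¹ i j ∈ P := by
  let N : Matrix ι ι P := Matrix.of fun i j => ⟨M i j, hM i j⟩
  have h1 : P.subtype.mapMatrix N = M := by
    ext i j
    rfl
  have h2 : M.det = P.subtype N.det := by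
    rw [RingHom.map_det, h1]
  have h3 : M.adjugate = P.subtype.mapMatrix N.adjugate := by
    rw [RingHom.map_adjugate, h1]
  rw [Matrix.inv_def, Matrix.smul_apply, smul_eq_mul, Ring.inverse_eq_inv', h2, h3]
  exact P.mul_mem (P.inv_mem (N.det).2) (N.adjugate i j).2

private theorem single_nat {Λ : Type} [Field Λ] (n : ℕ) :
    (HahnSeries.single (n : ℤ) (1 : Λ) : LaurentSeries Λ) = HahnSeries.single 1 1 ^ n := by
  rw [HahnSeries.single_pow]
  simp

private theorem single_mem {Λ : Type} [Field Λ] (A : Subring Λ) (r : ℤ) :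
    (HahnSeries.single r (1 : Λ) : LaurentSeries Λ) ∈ FF A := by
  have hn : ∀ n : ℕ, (HahnSeries.single (n : ℤ) (1 : Λ) : LaurentSeries Λ) ∈ FF A := by
    intro n
    rw [single_nat]
    exact pow_mem (PS_le_FF (t_mem_PS A)) n
  obtain ⟨n, rfl | rfl⟩ := r.eq_nat_or_neg
  · exact hn n
  · have h : (HahnSeries.single (-(n : ℤ)) (1 : Λ) : LaurentSeries Λ) =
        (HahnSeries.single (n : ℤ) (1 : Λ) : LaurentSeries Λ)⁻¹ := by
      apply eq_inv_of_mul_eq_one_left
      rw [HahnSeries.single_mul_single]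
      simp
    rw [h]
    exact (FF A).inv_mem (hn n)

end FcAM

open FcAM in
theorem aFcA (h1 : DecAStmt) (h2 : FacAStmt) (h3 : TrAStmt) : FcAStmt := by
  intro k _ ι _ _ C hC
  obtain ⟨M₀, hM₀, hdet, r, M, hM, hCM⟩ := h3 (LaurentSeries k) (Os k) (fun z => (h1 k z).2) ι C hC
  obtain ⟨U, T, hU, hT, hUT⟩ := h2 (LaurentSeries k) (Px k) (Os k) (fun z => (h1 k z).1) ι M hM
  refine ⟨(HahnSeries.single r (1 : LaurentSeries k) : LaurentSeries (LaurentSeries k)) •
    U.map (HahnSeries.ofPowerSeries ℤ (LaurentSeries k)),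
    T.map (HahnSeries.ofPowerSeries ℤ (LaurentSeries k)) * M₀⁻¹, ?_, ?_, ?_⟩
  · intro i j
    rw [Matrix.smul_apply, smul_eq_mul]
    exact (FF (Px k)).mul_mem (single_mem _ r) (PS_le_FF ⟨U i j, hU i j, rfl⟩)
  · intro i j
    rw [Matrix.mul_apply]
    refine sum_mem (fun l _ => mul_mem ?_ (minv_mem _ M₀ hM₀ l j))
    exact PS_le_FF ⟨T i l, hT i l, rfl⟩
  · have h4 : C = C * M₀ * M₀⁻¹ := by
      rw [mul_assoc, Matrix.mul_nonsing_inv _ hdet, mul_one]
    have h5 : M.map (HahnSeries.ofPowerSeries ℤ (LaurentSeries k)) =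
        U.map (HahnSeries.ofPowerSeries ℤ (LaurentSeries k)) *
          T.map (HahnSeries.ofPowerSeries ℤ (LaurentSeries k)) := by
      rw [hUT]
      exact Matrix.map_mul
    rw [h4, hCM, h5]
    simp only [Matrix.smul_mul]
    rw [Matrix.mul_assoc]
    ext i j
    simp only [Matrix.smul_apply, Matrix.mul_apply, smul_eq_mul, Finset.mul_sum, mul_assoc]

end MP7U
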