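import Pool.Agent.Lib.MP_7f581e_U.A.Spec1

/-!
# C41 (MP_7f581e_nt), U/A/FldF: the patched field
-/

set_option autoImplicit false

namespace MP7U

namespace FldFM

variable {Ω : Type} [Field Ω] {E : Subfield Ω} {Γ : Type} [Group Γ] [Fintype Γ] [DecidableEq Γ]
  {N : Set (Γ → Ω)}

/-- The hypotheses. -/
structure Hyp (E : Subfield Ω) (N : Set (Γ → Ω)) : Prop where
  fm : IsFm E N
  one : (1 : Γ → Ω) ∈ N
  mul : ∀ φ ∈ N, ∀ ψ ∈ N, φ * ψ ∈ N
  tr : ∀ φ ∈ N, ∀ σ, (fun θ => φ (θ * σ)) ∈ N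
  nz : ∀ φ ∈ N, ∀ θ, φ θ = 0 → φ = 0

theorem Hyp.add (H : Hyp E N) {φ ψ : Γ → Ω} (h1 : φ ∈ N) (h2 : ψ ∈ N) : φ + ψ ∈ N := by
  obtain ⟨C, _, rfl⟩ := H.fm
  obtain ⟨q, hq, rfl⟩ := h1
  obtain ⟨q', hq', rfl⟩ := h2
  exact ⟨q + q', fun i => add_mem (hq i) (hq' i), by rw [Matrix.mulVec_add]⟩

theorem Hyp.smul (H : Hyp E N) {φ : Γ → Ω} (h1 : φ ∈ N) {e : Ω} (he : e ∈ E) : e • φ ∈ N := by
  obtain ⟨C, _, rfl⟩ := H.fm
  obtain ⟨q, hq, rfl⟩ := h1
  exact ⟨e • q, fun i => mul_mem he (hq i), by rw [Matrix.mulVec_smul]⟩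

theorem Hyp.zero (H : Hyp E N) : (0 : Γ → Ω) ∈ N := by
  have h := H.smul H.one (zero_mem E)
  rwa [zero_smul] at h

theorem Hyp.neg (H : Hyp E N) {φ : Γ → Ω} (h1 : φ ∈ N) : -φ ∈ N := by
  have h := H.smul h1 (neg_mem (one_mem E))
  rwa [neg_smul, one_smul] at h

theorem Hyp.sub (H : Hyp E N) {φ ψ : Γ → Ω} (h1 : φ ∈ N) (h2 : ψ ∈ N) : φ - ψ ∈ N := by
  rw [sub_eq_add_neg]
  exact H.add h1 (H.neg h2)

theorem Hyp.ext (H : Hyp E N) {φ ψ : Γ → Ω} (h1 : φ ∈ N) (h2 : ψ ∈ N) {θ : Γ}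
    (h : φ θ = ψ θ) : φ = ψ :=
  sub_eq_zero.1 (H.nz _ (H.sub h1 h2) θ (by rw [Pi.sub_apply, h, sub_self]))

/-- `N` as a vector space over `E`. -/
def V (H : Hyp E N) : Submodule E (Γ → Ω) where
  carrier := N
  add_mem' h1 h2 := H.add h1 h2
  zero_mem' := H.zero
  smul_mem' e φ h := by
    have h1 := H.smul h e.2
    exact h1

theorem fin (H : Hyp E N) : Module.Finite E (V H) := by
  obtain ⟨C, hC, hN⟩ := id H.fm
  have key : ∀ q : Γ → E, C.mulVec (fun i => (q i : Ω)) ∈ N := by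
    intro q
    rw [hN]
    exact ⟨_, fun i => (q i).2, rfl⟩
  let f : (Γ → E) →ₗ[E] V H :=
    { toFun := fun q => ⟨C.mulVec (fun i => (q i : Ω)), key q⟩
      map_add' := by
        intro q q'
        apply Subtype.ext
        change C.mulVec _ = C.mulVec _ + C.mulVec _
        rw [← Matrix.mulVec_add]
        congr 1
      map_smul' := by
        intro e q
        apply Subtype.ext
        change C.mulVec _ = (e : Ω) • C.mulVec _
        rw [← Matrix.mulVec_smul]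
        congr 1 }
  refine Module.Finite.of_surjective f ?_
  rintro ⟨φ, hφ⟩
  have h2 : φ ∈ N := hφ
  rw [hN] at h2
  obtain ⟨q, hq, h3⟩ := h2
  exact ⟨fun i => ⟨q i, hq i⟩, Subtype.ext h3.symm⟩

theorem inv (H : Hyp E N) {φ : Γ → Ω} (h1 : φ ∈ N) (h0 : φ ≠ 0) : ∃ ψ ∈ N, φ * ψ = 1 := by
  have hfin := fin H
  let m : V H →ₗ[E] V H :=
    { toFun := fun ψ => ⟨φ * ψ.1, H.mul φ h1 ψ.1 ψ.2⟩
      map_add' := by
        intro a b
        apply Subtype.ext
        change φ * (a.1 + b.1) = φ * a.1 + φ * b.1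
        rw [mul_add]
      map_smul' := by
        intro e a
        apply Subtype.ext
        change φ * ((e : Ω) • a.1) = (e : Ω) • (φ * a.1)
        rw [mul_smul_comm] }
  have hinj : Function.Injective m := by
    rw [← LinearMap.ker_eq_bot, LinearMap.ker_eq_bot']
    intro a ha
    have h2 : φ * a.1 = 0 := congrArg Subtype.val ha
    apply Subtype.ext
    funext θ
    have h3 := congrFun h2 θ
    rw [Pi.mul_apply, Pi.zero_apply] at h3
    rcases mul_eq_zero.1 h3 with h4 | h4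
    · exact absurd (H.nz φ h1 θ h4) h0
    · exact h4
  have hsurj : Function.Surjective m := LinearMap.injective_iff_surjective.1 hinj
  obtain ⟨ψ, hψ⟩ := hsurj ⟨1, H.one⟩
  exact ⟨ψ.1, ψ.2, congrArg Subtype.val hψ⟩

/-- The field `K`. -/
def K (H : Hyp E N) : Subfield Ω where
  carrier := {z | ∃ φ ∈ N, φ 1 = z}
  mul_mem' := by
    rintro _ _ ⟨φ, hφ, rfl⟩ ⟨ψ, hψ, rfl⟩
    exact ⟨φ * ψ, H.mul _ hφ _ hψ, rfl⟩
  one_mem' := ⟨1, H.one, rfl⟩
  add_mem' := by
    rintro _ _ ⟨φ, hφ, rfl⟩ ⟨ψ, hψ, rfl⟩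
    exact ⟨φ + ψ, H.add hφ hψ, rfl⟩
  zero_mem' := ⟨0, H.zero, rfl⟩
  neg_mem' := by
    rintro _ ⟨φ, hφ, rfl⟩
    exact ⟨-φ, H.neg hφ, rfl⟩
  inv_mem' := by
    rintro _ ⟨φ, hφ, rfl⟩
    by_cases h0 : φ = 0
    · exact ⟨0, H.zero, by rw [h0, Pi.zero_apply, inv_zero]⟩
    · obtain ⟨ψ, hψ, h⟩ := inv H hφ h0
      refine ⟨ψ, hψ, ?_⟩
      have h1 := congrFun h 1
      rw [Pi.mul_apply, Pi.one_apply] at h1
      exact eq_inv_of_mul_eq_one_right h1

/-- The function with value `z` at `1`. -/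
noncomputable def lf (H : Hyp E N) (z : K H) : Γ → Ω := Classical.choose z.2

theorem lf_mem (H : Hyp E N) (z : K H) : lf H z ∈ N := (Classical.choose_spec z.2).1

theorem lf_one (H : Hyp E N) (z : K H) : lf H z 1 = z := (Classical.choose_spec z.2).2

theorem lf_eq (H : Hyp E N) (z : K H) {φ : Γ → Ω} (h : φ ∈ N) (h1 : φ 1 = z) : lf H z = φ :=
  H.ext (lf_mem H z) h (by rw [lf_one, h1])

/-- The action as a function. -/
noncomputable def af (H : Hyp E N) (σ : Γ) (z : K H) : K H :=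
  ⟨lf H z σ, fun θ => lf H z (θ * σ), H.tr _ (lf_mem H z) σ, congrArg (lf H z) (one_mul σ)⟩

theorem af_coe (H : Hyp E N) (σ : Γ) (z : K H) : (af H σ z : Ω) = lf H z σ := rfl

theorem af_mul (H : Hyp E N) (σ τ : Γ) (z : K H) : af H σ (af H τ z) = af H (σ * τ) z := by
  apply Subtype.ext
  rw [af_coe, af_coe, lf_eq H (af H τ z) (H.tr _ (lf_mem H z) τ) (congrArg (lf H z) (one_mul τ))]

theorem af_one (H : Hyp E N) (z : K H) : af H 1 z = z :=
  Subtype.ext (by rw [af_coe, lf_one])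

/-- The action of one element. -/
noncomputable def ae (H : Hyp E N) (σ : Γ) : K H ≃+* K H where
  toFun := af H σ
  invFun := af H σ⁻¹
  left_inv z := by rw [af_mul, inv_mul_cancel, af_one]
  right_inv z := by rw [af_mul, mul_inv_cancel, af_one]
  map_mul' z w := by
    apply Subtype.ext
    have h : lf H (z * w) = lf H z * lf H w :=
      lf_eq H _ (H.mul _ (lf_mem H z) _ (lf_mem H w)) (by rw [Pi.mul_apply, lf_one, lf_one]; rfl)
    rw [af_coe, h]
    rfl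
  map_add' z w := by
    apply Subtype.ext
    have h : lf H (z + w) = lf H z + lf H w :=
      lf_eq H _ (H.add (lf_mem H z) (lf_mem H w)) (by rw [Pi.add_apply, lf_one, lf_one]; rfl)
    rw [af_coe, h]
    rfl

theorem ae_coe (H : Hyp E N) (σ : Γ) (z : K H) : (ae H σ z : Ω) = lf H z σ := rfl

/-- The action. -/
noncomputable def act (H : Hyp E N) : Γ →* (K H ≃+* K H) where
  toFun := ae H
  map_one' := by
    apply RingEquiv.ext
    intro z
    exact af_one H z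
  map_mul' σ τ := by
    apply RingEquiv.ext
    intro z
    exact (af_mul H σ τ z).symm

theorem act_coe (H : Hyp E N) (σ : Γ) (z : K H) : (act H σ z : Ω) = lf H z σ := rfl

theorem patchOut (H : Hyp E N) : PatchOut E (K H) (act H) := by
  obtain ⟨C, hC, hN⟩ := id H.fm
  have hdet : C.det ≠ 0 := hC.ne_zero
  have hcol : ∀ γ : Γ, (fun θ => C θ γ) ∈ N := by
    intro γ
    rw [hN]
    refine ⟨Pi.single γ 1, ?_, ?_⟩
    · intro i
      by_cases h : i = γ
      · rw [h, Pi.single_eq_same]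
        exact one_mem E
      · rw [Pi.single_eq_of_ne h]
        exact zero_mem E
    · rw [Matrix.mulVec_single_one]
      rfl
  have hconst : ∀ e ∈ E, (fun _ : Γ => e) ∈ N := by
    intro e he
    have h := H.smul H.one he
    have h2 : e • (1 : Γ → Ω) = fun _ => e := by
      funext θ
      rw [Pi.smul_apply, Pi.one_apply, smul_eq_mul, mul_one]
    rwa [h2] at h
  refine ⟨?_, ?_, ?_, ?_⟩
  · rw [injective_iff_map_eq_one]
    intro σ hσ
    by_contra hne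
    apply hdet
    refine Matrix.det_zero_of_row_eq hne ?_
    funext γ
    have h1 : act H σ ⟨C 1 γ, _, hcol γ, rfl⟩ = ⟨C 1 γ, _, hcol γ, rfl⟩ := by
      rw [hσ]
      rfl
    have h2 := congrArg (fun z : K H => (z : Ω)) h1
    simp only at h2
    rw [act_coe, lf_eq H ⟨C 1 γ, _, hcol γ, rfl⟩ (hcol γ) rfl] at h2
    exact h2
  · intro e he
    exact ⟨_, hconst e he, rfl⟩
  · intro σ x hx
    apply Subtype.ext
    rw [act_coe, lf_eq H x (hconst _ hx) rfl]
  · refine ⟨fun γ => ⟨C 1 γ, _, hcol γ, rfl⟩, ?_, ?_⟩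
    · intro z
      obtain ⟨q, hq, h2⟩ := hN.subset (lf_mem H z)
      refine ⟨q, hq, ?_⟩
      rw [← lf_one H z, h2]
      change ∑ γ, C 1 γ * q γ = _
      exact Finset.sum_congr rfl fun γ _ => mul_comm _ _
    · intro q hq h0
      have h1 : C.mulVec q ∈ N := by
        rw [hN]
        exact ⟨q, hq, rfl⟩
      have h2 : C.mulVec q 1 = 0 := by
        change ∑ γ, C 1 γ * q γ = 0
        rw [← h0]
        exact Finset.sum_congr rfl fun γ _ => mul_comm _ _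
      have h3 := H.nz _ h1 1 h2
      have h4 := Matrix.eq_zero_of_mulVec_eq_zero hdet h3
      intro γ
      rw [h4, Pi.zero_apply]

end FldFM

theorem aFldF : FldFStmt := by
  intro Ω _ E Γ _ _ _ N h1 h2 h3 h4 h5
  have H : FldFM.Hyp E N := ⟨h1, h2, h3, h4, h5⟩
  refine ⟨FldFM.K H, FldFM.act H, FldFM.patchOut H, ?_⟩
  intro φ hφ
  refine ⟨⟨φ 1, φ, hφ, rfl⟩, ?_⟩
  intro σ
  rw [FldFM.act_coe, FldFM.lf_eq H _ hφ rfl]

end MP7U
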