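import Pool.Agent.Lib.MP_7f581e_U.A.Spec1

/-!
# C41, Block A: Fm1, the patch of a Galois extension of `k(X)`
-/

set_option autoImplicit false

namespace MP7U

open Polynomial

namespace Fm1M

section

variable {k : Type} [Field k]

theorem algMap (c : k) : algebraMap k (LaurentSeries k) c = HahnSeries.C c := by
  rw [HahnSeries.algebraMap_apply', PowerSeries.algebraMap_apply, Algebra.algebraMap_self,
    RingHom.id_apply, HahnSeries.ofPowerSeries_C]

theorem C_mem_Px (c : k) : (HahnSeries.C c : LaurentSeries k) ∈ Px k := by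
  refine ⟨Polynomial.C c, ?_⟩
  show aeval (xx k) (Polynomial.C c) = _
  rw [aeval_C, algMap]

theorem xx_mem_Px : xx k ∈ Px k := ⟨X, aeval_X (xx k)⟩

/-- `C s` is in `FF (Px k)` -/
theorem Css_mem : (HahnSeries.C (ss k) : LaurentSeries (LaurentSeries k)) ∈ FF (Px k) := by
  have h1 : (HahnSeries.C (xx k) : LaurentSeries (LaurentSeries k)) ∈ FF (Px k) :=
    PS_le_FF (C_mem_PS xx_mem_Px)
  have h2 : (HahnSeries.C (ss k) : LaurentSeries (LaurentSeries k)) * HahnSeries.C (xx k) = 1 := by
    rw [← map_mul, ss_mul_xx, map_one]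
  have h3 : (HahnSeries.C (ss k) : LaurentSeries (LaurentSeries k)) = (HahnSeries.C (xx k))⁻¹ :=
    eq_inv_of_mul_eq_one_left h2
  rw [h3]
  exact inv_mem h1

/-- the constants from `k(X)` are in `FF (Px k)` -/
theorem F1 (χ : RatFunc k →+* LaurentSeries k) (a : k)
    (hc : ∀ c : k, χ (algebraMap k (RatFunc k) c) = HahnSeries.C c)
    (hX : χ RatFunc.X = HahnSeries.C a + ss k) (r : RatFunc k) :
    (HahnSeries.C (χ r) : LaurentSeries (LaurentSeries k)) ∈ FF (Px k) := by
  have hp : ∀ p : k[X], (HahnSeries.C (χ (algebraMap k[X] (RatFunc k) p)) :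
      LaurentSeries (LaurentSeries k)) ∈ FF (Px k) := by
    intro p
    induction p using Polynomial.induction_on' with
    | add p q hp hq =>
      rw [map_add, map_add, map_add]
      exact add_mem hp hq
    | monomial n c =>
      rw [← Polynomial.C_mul_X_pow_eq_monomial, map_mul, map_mul, map_mul, map_pow, map_pow,
        map_pow, RatFunc.algebraMap_X, hX, RatFunc.algebraMap_C, ← RatFunc.algebraMap_eq_C, hc,
        map_add]
      exact mul_mem (PS_le_FF (C_mem_PS (C_mem_Px c)))
        (pow_mem (add_mem (PS_le_FF (C_mem_PS (C_mem_Px a))) Css_mem) n)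
  rw [← RatFunc.num_div_denom r, map_div₀, map_div₀]
  exact div_mem (hp _) (hp _)

/-- the elements of `k[x]` come from `k(X)` -/
theorem Px_range (χ : RatFunc k →+* LaurentSeries k) (a : k)
    (hc : ∀ c : k, χ (algebraMap k (RatFunc k) c) = HahnSeries.C c)
    (hX : χ RatFunc.X = HahnSeries.C a + ss k) (z : LaurentSeries k) (hz : z ∈ Px k) :
    ∃ ρ : RatFunc k, χ ρ = z := by
  obtain ⟨p, hp⟩ := hz
  have hp' : aeval (xx k) p = z := hp
  have hx : χ (RatFunc.X - algebraMap k (RatFunc k) a)⁻¹ = xx k := by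
    rw [map_inv₀, map_sub, hX, hc, add_sub_cancel_left]
    exact (eq_inv_of_mul_eq_one_right (ss_mul_xx k)).symm
  refine ⟨eval₂ (algebraMap k (RatFunc k)) (RatFunc.X - algebraMap k (RatFunc k) a)⁻¹ p, ?_⟩
  rw [Polynomial.hom_eval₂, hx, ← hp', aeval_def]
  congr 1
  ext1 c
  rw [algMap]
  exact hc c

/-- a common denominator -/
theorem denom {Λ : Type} [Field Λ] {A : Subring Λ} {ι : Type} [Fintype ι]
    (r : ι → LaurentSeries Λ) (hr : ∀ i, r i ∈ FF A) :
    ∃ D : LaurentSeries Λ, D ≠ 0 ∧ ∀ i, D * r i ∈ PS A := by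
  classical
  have h1 : ∀ i, ∃ b ∈ PS A, b ≠ 0 ∧ r i * b ∈ PS A := by
    intro i
    obtain ⟨a, ha, b, hb, hb0, hab⟩ := mem_FF.1 (hr i)
    exact ⟨b, hb, hb0, by rw [hab]; exact ha⟩
  choose b hb hb0 hrb using h1
  refine ⟨∏ i, b i, Finset.prod_ne_zero_iff.2 fun i _ => hb0 i, fun i => ?_⟩
  rw [← Finset.mul_prod_erase Finset.univ b (Finset.mem_univ i)]
  have h2 : b i * (∏ x ∈ Finset.univ.erase i, b x) * r i =
      (r i * b i) * ∏ x ∈ Finset.univ.erase i, b x := by ring
  rw [h2]
  exact mul_mem (hrb i) (prod_mem fun j _ => hb j)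

end

section

variable {k : Type} [Field k] {L : Type} [Field L] [Algebra (RatFunc k) L]

/-- linear disjointness -/
theorem F2 {ι : Type} [Fintype ι] (b : Module.Basis ι (RatFunc k) L) (a : k)
    (φ : L →+* LaurentSeries k)
    (hc : ∀ c : k, φ (algebraMap (RatFunc k) L (algebraMap k (RatFunc k) c)) = HahnSeries.C c)
    (hX : φ (algebraMap (RatFunc k) L RatFunc.X) = HahnSeries.C a + ss k)
    (r : ι → LaurentSeries (LaurentSeries k)) (hr : ∀ i, r i ∈ FF (Px k))
    (h0 : ∑ i, r i * HahnSeries.C (φ (b i)) = 0) (i : ι) : r i = 0 := by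
  obtain ⟨D, hD, hDr⟩ := denom r hr
  choose f hf hfr using fun i => mem_PS.1 (hDr i)
  have h1 : ∑ i, f i * PowerSeries.C (φ (b i)) = 0 := by
    apply HahnSeries.ofPowerSeries_injective (Γ := ℤ)
    rw [map_zero, map_sum]
    calc ∑ i, HahnSeries.ofPowerSeries ℤ (LaurentSeries k) (f i * PowerSeries.C (φ (b i)))
        = ∑ i, D * (r i * HahnSeries.C (φ (b i))) := by
          refine Finset.sum_congr rfl fun i _ => ?_
          rw [map_mul, hfr, HahnSeries.ofPowerSeries_C, mul_assoc]
      _ = 0 := by rw [← Finset.mul_sum, h0, mul_zero]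
  have hχ1 : ∀ c : k, (φ.comp (algebraMap (RatFunc k) L)) (algebraMap k (RatFunc k) c) =
      HahnSeries.C c := hc
  have hχ2 : (φ.comp (algebraMap (RatFunc k) L)) RatFunc.X = HahnSeries.C a + ss k := hX
  have h2 : ∀ n i, PowerSeries.coeff n (f i) = 0 := by
    intro n
    choose ρ hρ using fun i => Px_range _ a hχ1 hχ2 _ (hf i n)
    have h3 : ∑ i, ρ i • b i = 0 := by
      apply φ.injective
      rw [map_zero, map_sum]
      have h4 := congrArg (PowerSeries.coeff n) h1
      rw [map_sum, map_zero] at h4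
      rw [← h4]
      refine Finset.sum_congr rfl fun i _ => ?_
      rw [PowerSeries.coeff_mul_C, ← hρ i, Algebra.smul_def, map_mul]
      rfl
    have h5 := Fintype.linearIndependent_iff.1 b.linearIndependent ρ h3
    intro i
    rw [← hρ i, h5 i, map_zero]
  have h6 : f i = 0 := by
    ext n
    rw [h2 n i, map_zero]
  have h7 : D * r i = 0 := by
    rw [← hfr i, h6, map_zero]
  exact (mul_eq_zero.1 h7).resolve_left hD

/-- Dedekind -/
theorem det_ne {H : Type} [Group H] [Fintype H] [DecidableEq H]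
    (act : H →* (L ≃ₐ[RatFunc k] L)) (hact : Function.Injective act)
    (b : Module.Basis H (RatFunc k) L) :
    (Matrix.of fun h j : H => act h (b j)).det ≠ 0 := by
  intro h0
  obtain ⟨v, hv, hvM⟩ := Matrix.exists_vecMul_eq_zero_iff.2 h0
  apply hv
  have h1 : ∀ j, ∑ h, v h * act h (b j) = 0 := fun j => congrFun hvM j
  let T : L →ₗ[RatFunc k] L := ∑ h, (LinearMap.mulLeft (RatFunc k) (v h)).comp
    (act h).toLinearMap
  have hT : T = 0 := by
    apply b.ext
    intro j
    rw [LinearMap.zero_apply, ← h1 j]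
    show (∑ h, (LinearMap.mulLeft (RatFunc k) (v h)).comp (act h).toLinearMap) (b j) = _
    rw [LinearMap.sum_apply]
    rfl
  have h2 : ∀ x : L, ∑ h, v h * act h x = 0 := by
    intro x
    have h3 : T x = 0 := by rw [hT]; rfl
    rw [← h3]
    show _ = (∑ h, (LinearMap.mulLeft (RatFunc k) (v h)).comp (act h).toLinearMap) x
    rw [LinearMap.sum_apply]
    rfl
  let m : H → (L →* L) := fun h => ((act h : L ≃ₐ[RatFunc k] L) : L →+* L).toMonoidHom
  have hm : Function.Injective m := by
    intro g h hgh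
    apply hact
    ext x
    exact DFunLike.congr_fun hgh x
  have h4 : LinearIndependent L (fun h : H => (m h : L → L)) :=
    (linearIndependent_monoidHom L L).comp m hm
  have h5 := Fintype.linearIndependent_iff.1 h4 v (by
    funext x
    rw [Finset.sum_apply]
    exact h2 x)
  funext h
  exact h5 h

end

end Fm1M

open Fm1M in
theorem aFm1 : Fm1Stmt := by
  intro k _ Γ _ _ _ H _ _ L _ _ act hfin hgal hact a φ hφc hφX
  classical
  -- a basis
  have hcard : Fintype.card H = Module.finrank (RatFunc k) L := by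
    rw [← IsGalois.card_aut_eq_finrank, ← Nat.card_eq_fintype_card]
    exact Nat.card_congr (Equiv.ofBijective _ hact)
  let b : Module.Basis H (RatFunc k) L :=
    (Module.finBasis (RatFunc k) L).reindex (Fintype.equivOfCardEq (by
      rw [Fintype.card_fin, hcard]))
  set P := FF (Px k) with hP
  set Φ : L →+* LaurentSeries (LaurentSeries k) :=
    (HahnSeries.C : LaurentSeries k →+* LaurentSeries (LaurentSeries k)).comp φ with hΦ
  set M : Matrix H H L := Matrix.of fun h j : H => act h (b j) with hM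
  set C : Matrix H H (LaurentSeries (LaurentSeries k)) := M.map Φ with hC
  have hCdet : IsUnit C.det := by
    have h1 : C.det = Φ M.det := by
      rw [hC, RingHom.map_det]
      rfl
    rw [h1, isUnit_iff_ne_zero]
    intro h2
    exact det_ne act hact.1 b (Φ.injective (by rw [h2, map_zero]))
  set Q : Set (H → LaurentSeries (LaurentSeries k)) :=
    {v | ∃ q : H → LaurentSeries (LaurentSeries k), (∀ i, q i ∈ P) ∧ v = C.mulVec q} with hQ
  have hCap : ∀ (q : H → LaurentSeries (LaurentSeries k)) (h : H),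
      C.mulVec q h = ∑ j, q j * Φ (act h (b j)) := by
    intro q h
    show ∑ j, C h j * q j = _
    refine Finset.sum_congr rfl fun j _ => ?_
    rw [mul_comm]
    rfl
  have hF1 : ∀ r : RatFunc k, Φ (algebraMap (RatFunc k) L r) ∈ P := by
    intro r
    exact F1 (φ.comp (algebraMap (RatFunc k) L)) a hφc hφX r
  -- the values of the elements of `L`
  have hu : ∀ u : L, (fun h => Φ (act h u)) ∈ Q := by
    intro u
    refine ⟨fun j => Φ (algebraMap (RatFunc k) L (b.repr u j)), fun j => hF1 _, ?_⟩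
    funext h
    rw [hCap]
    have h1 : u = ∑ j, b.repr u j • b j := (b.sum_repr u).symm
    conv_lhs => rw [h1]
    rw [map_sum, map_sum]
    refine Finset.sum_congr rfl fun j _ => ?_
    rw [map_smul, Algebra.smul_def, map_mul]
  -- closure
  have hadd : ∀ v ∈ Q, ∀ w ∈ Q, v + w ∈ Q := by
    rintro _ ⟨q, hq, rfl⟩ _ ⟨q', hq', rfl⟩
    exact ⟨q + q', fun i => add_mem (hq i) (hq' i), by rw [Matrix.mulVec_add]⟩
  have hsmul : ∀ c ∈ P, ∀ v ∈ Q, c • v ∈ Q := by
    rintro c hc _ ⟨q, hq, rfl⟩
    exact ⟨c • q, fun i => mul_mem hc (hq i), by rw [Matrix.mulVec_smul]⟩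
  have hzero : (0 : H → LaurentSeries (LaurentSeries k)) ∈ Q :=
    ⟨0, fun i => zero_mem P, by rw [Matrix.mulVec_zero]⟩
  have hsum : ∀ (s : Finset H) (f : H → H → LaurentSeries (LaurentSeries k)),
      (∀ j ∈ s, f j ∈ Q) → ∑ j ∈ s, f j ∈ Q := by
    intro s f
    induction s using Finset.induction_on with
    | empty => intro _; rw [Finset.sum_empty]; exact hzero
    | insert x s hx ih =>
      intro hf
      rw [Finset.sum_insert hx]
      exact hadd _ (hf x (Finset.mem_insert_self x s)) _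
        (ih fun j hj => hf j (Finset.mem_insert_of_mem hj))
  refine ⟨Q, ⟨⟨C, hCdet, rfl⟩, ?_, ?_, ?_, ?_⟩, hu⟩
  · -- one
    have h1 := hu 1
    have h2 : (fun h => Φ (act h (1 : L))) = (1 : H → LaurentSeries (LaurentSeries k)) := by
      funext h
      rw [map_one, map_one]
      rfl
    rw [← h2]
    exact h1
  · -- mul
    rintro _ ⟨q, hq, rfl⟩ _ ⟨q', hq', rfl⟩
    have h1 : C.mulVec q * C.mulVec q' =
        ∑ i, ∑ j, (q i * q' j) • (fun h => Φ (act h (b i * b j))) := by
      funext h
      rw [Pi.mul_apply, hCap, hCap, Finset.sum_mul_sum, Finset.sum_apply]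
      refine Finset.sum_congr rfl fun i _ => ?_
      rw [Finset.sum_apply]
      refine Finset.sum_congr rfl fun j _ => ?_
      rw [Pi.smul_apply, smul_eq_mul, map_mul, map_mul]
      ring
    rw [h1]
    exact hsum _ _ fun i _ => hsum _ _ fun j _ => hsmul _ (mul_mem (hq i) (hq' j)) _ (hu _)
  · -- translations
    rintro _ ⟨q, hq, rfl⟩ h₀
    have h1 : (fun h => C.mulVec q (h * h₀)) =
        ∑ j, q j • (fun h => Φ (act h (act h₀ (b j)))) := by
      funext h
      rw [hCap, Finset.sum_apply]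
      refine Finset.sum_congr rfl fun j _ => ?_
      rw [Pi.smul_apply, smul_eq_mul, map_mul]
      rfl
    rw [h1]
    exact hsum _ _ fun j _ => hsmul _ (hq j) _ (hu _)
  · -- evaluation at `1`
    rintro _ ⟨q, hq, rfl⟩ h0
    rw [hCap] at h0
    have h1 : ∑ j, q j * HahnSeries.C (φ (b j)) = 0 := by
      rw [← h0]
      refine Finset.sum_congr rfl fun j _ => ?_
      rw [map_one]
      rfl
    have h2 : q = 0 := by
      funext j
      exact F2 b a φ hφc hφX q hq h1 j
    rw [h2, Matrix.mulVec_zero]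

end MP7U
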