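import Pool.Agent.Lib.MP_7f581e_U.A.Spec1

set_option autoImplicit false

namespace MP7U

namespace Fm2M

section

variable {Γ : Type} [Group Γ] {g : Γ}

private theorem two (hg : g ^ 2 = 1) (h : Subgroup.zpowers g) :
    h = 1 ∨ h = ⟨g, Subgroup.mem_zpowers g⟩ := by
  obtain ⟨x, hx⟩ := h
  obtain ⟨n, rfl⟩ := Subgroup.mem_zpowers_iff.1 hx
  rcases Int.even_or_odd' n with ⟨m, rfl | rfl⟩
  · left
    apply Subtype.ext
    show g ^ (2 * m) = 1
    rw [zpow_mul]
    have : g ^ (2 : ℤ) = 1 := by exact_mod_cast hg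
    rw [this, one_zpow]
  · right
    apply Subtype.ext
    show g ^ (2 * m + 1) = g
    rw [zpow_add, zpow_mul, zpow_one]
    have : g ^ (2 : ℤ) = 1 := by exact_mod_cast hg
    rw [this, one_zpow, one_mul]

/-- the character -/
private def chi {Ω : Type} [Field Ω] [DecidableEq (Subgroup.zpowers g)]
    (h : Subgroup.zpowers g) : Ω := if h = 1 then 1 else -1

private theorem chi_mul {Ω : Type} [Field Ω] [DecidableEq (Subgroup.zpowers g)]
    (hg : g ^ 2 = 1) (h1 : g ≠ 1) (a b : Subgroup.zpowers g) :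
    (chi (a * b) : Ω) = chi a * chi b := by
  have hne : (⟨g, Subgroup.mem_zpowers g⟩ : Subgroup.zpowers g) ≠ 1 := fun h =>
    h1 (congrArg Subtype.val h)
  have hgg : (⟨g, Subgroup.mem_zpowers g⟩ * ⟨g, Subgroup.mem_zpowers g⟩ : Subgroup.zpowers g)
      = 1 := by
    apply Subtype.ext
    show g * g = 1
    rw [← pow_two, hg]
  rcases two hg a with rfl | rfl
  · simp [chi]
  · rcases two hg b with rfl | rfl
    · rw [mul_one]
      simp [chi]
    · rw [hgg]
      simp [chi, hne]

private theorem chi_sq {Ω : Type} [Field Ω] [DecidableEq (Subgroup.zpowers g)]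
    (a : Subgroup.zpowers g) : (chi a : Ω) * chi a = 1 := by
  unfold chi
  split <;> ring

private theorem sum_two [Fintype (Subgroup.zpowers g)] [DecidableEq (Subgroup.zpowers g)]
    {Ω : Type} [Field Ω] (hg : g ^ 2 = 1) (h1 : g ≠ 1) (f : Subgroup.zpowers g → Ω) :
    ∑ h, f h = f 1 + f ⟨g, Subgroup.mem_zpowers g⟩ := by
  have hne : (1 : Subgroup.zpowers g) ≠ ⟨g, Subgroup.mem_zpowers g⟩ := fun h =>
    h1 (congrArg Subtype.val h).symm
  have hu : (Finset.univ : Finset (Subgroup.zpowers g)) = {1, ⟨g, Subgroup.mem_zpowers g⟩} := by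
    ext h
    simp only [Finset.mem_univ, Finset.mem_insert, Finset.mem_singleton, true_iff]
    exact two hg h
  rw [hu, Finset.sum_pair hne]

end

end Fm2M

open Fm2M in
theorem aFm2 : Fm2Stmt := by
  intro Ω _ P Γ _ g hg h1 _ _ w hw hw2 h2
  have hne : (⟨g, Subgroup.mem_zpowers g⟩ : Subgroup.zpowers g) ≠ 1 := fun h =>
    h1 (congrArg Subtype.val h)
  have hχm : ∀ h : Subgroup.zpowers g, (chi h : Ω) ∈ P := fun h => by
    unfold chi
    split
    · exact P.one_mem
    · exact P.neg_mem P.one_mem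
  have hw0 : w ≠ 0 := fun h => hw (h ▸ P.zero_mem)
  refine ⟨{q | ∃ u ∈ P, ∃ v ∈ P, ∀ h, q h = u + v * (chi h * w)}, ⟨?_, ?_, ?_, ?_, ?_⟩, ?_⟩
  · -- form
    let M : Matrix (Subgroup.zpowers g) (Subgroup.zpowers g) Ω :=
      Matrix.of fun h j => if j = 1 then 1 else chi h * w
    have hM : ∀ (q : Subgroup.zpowers g → Ω) h,
        M.mulVec q h = q 1 + q ⟨g, Subgroup.mem_zpowers g⟩ * (chi h * w) := by
      intro q h
      show ∑ j, M h j * q j = _
      rw [sum_two hg h1]
      simp only [M, Matrix.of_apply, if_true, if_neg hne]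
      ring
    refine ⟨M, ?_, ?_⟩
    · rw [← Matrix.isUnit_iff_isUnit_det, ← Matrix.mulVec_injective_iff_isUnit]
      intro q q' hqq
      have e1 := congrFun hqq 1
      have e2 := congrFun hqq ⟨g, Subgroup.mem_zpowers g⟩
      simp only [hM] at e1 e2
      have c1 : (chi (1 : Subgroup.zpowers g) : Ω) = 1 := by simp [chi]
      have c2 : (chi (⟨g, Subgroup.mem_zpowers g⟩ : Subgroup.zpowers g) : Ω) = -1 := by
        simp [chi, hne]
      rw [c1] at e1
      rw [c2] at e2
      have a1 : q 1 = q' 1 := by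
        have : (2 : Ω) * (q 1 - q' 1) = 0 := by linear_combination e1 + e2
        rcases mul_eq_zero.1 this with h | h
        · exact absurd h h2
        · exact sub_eq_zero.1 h
      have a2 : q ⟨g, Subgroup.mem_zpowers g⟩ = q' ⟨g, Subgroup.mem_zpowers g⟩ := by
        have : (2 : Ω) * (w * (q ⟨g, Subgroup.mem_zpowers g⟩ - q' ⟨g, Subgroup.mem_zpowers g⟩)) = 0 := by
          linear_combination e1 - e2
        rcases mul_eq_zero.1 this with h | h
        · exact absurd h h2
        · rcases mul_eq_zero.1 h with h | h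
          · exact absurd h hw0
          · exact sub_eq_zero.1 h
      funext h
      rcases two hg h with rfl | rfl
      · exact a1
      · exact a2
    · ext q
      constructor
      · rintro ⟨u, hu, v, hv, hq⟩
        refine ⟨fun j => if j = 1 then u else v, fun j => ?_, ?_⟩
        · show (if j = 1 then u else v) ∈ P
          split
          · exact hu
          · exact hv
        · funext h
          rw [hM, hq]
          simp [hne]
      · rintro ⟨q', hq', rfl⟩
        exact ⟨_, hq' _, _, hq' _, fun h => hM q' h⟩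
  · exact ⟨1, P.one_mem, 0, P.zero_mem, fun h => by simp⟩
  · rintro q ⟨u, hu, v, hv, hq⟩ q' ⟨u', hu', v', hv', hq'⟩
    refine ⟨u * u' + v * v' * w ^ 2, P.add_mem (P.mul_mem hu hu') (P.mul_mem (P.mul_mem hv hv') hw2),
      u * v' + v * u', P.add_mem (P.mul_mem hu hv') (P.mul_mem hv hu'), fun h => ?_⟩
    rw [Pi.mul_apply, hq, hq']
    linear_combination v * v' * w ^ 2 * chi_sq (Ω := Ω) h
  · rintro q ⟨u, hu, v, hv, hq⟩ h₀
    refine ⟨u, hu, v * chi h₀, P.mul_mem hv (hχm h₀), fun h => ?_⟩
    show q (h * h₀) = _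
    rw [hq, chi_mul hg h1]
    ring
  · rintro q ⟨u, hu, v, hv, hq⟩ h0
    have c1 : (chi (1 : Subgroup.zpowers g) : Ω) = 1 := by simp [chi]
    have e := hq 1
    rw [h0, c1, one_mul] at e
    have hv0 : v = 0 := by
      by_contra hv0
      apply hw
      have : w = -u / v := by
        rw [eq_div_iff hv0]
        linear_combination -e
      rw [this]
      exact P.div_mem (P.neg_mem hu) hv
    rw [hv0, zero_mul, add_zero] at e
    funext h
    rw [hq, hv0, ← e]
    simp
  · intro u hu
    exact ⟨u, hu, 0, P.zero_mem, fun h => by simp⟩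

end MP7U
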