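import Pool.Agent.Lib.MP_7f581e_U.A.Spec1

set_option autoImplicit false

namespace MP7U

theorem aHtA : HtAStmt := by
  classical
  rintro F Ω _ _ j E K Γ _ _ act hE ⟨hinj, hEK, htr, b, hb1, hb2⟩
  have hjE : ∀ w, j w ∈ E := fun w => (hE _).2 ⟨w, rfl⟩
  let s : F →+* K := j.codRestrict K fun w => hEK (hjE w)
  letI : Algebra F K := s.toAlgebra
  have hs : ∀ w : F, ((algebraMap F K w : K) : Ω) = j w := fun w => rfl
  have hact : ∀ σ (w : F), act σ (algebraMap F K w) = algebraMap F K w := fun σ w =>
    htr σ _ (hjE w)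
  let a : Γ → (K ≃ₐ[F] K) := fun σ => AlgEquiv.ofRingEquiv (f := act σ) (hact σ)
  have ha : ∀ σ (x : K), a σ x = act σ x := fun σ x => rfl
  let act' : Γ →* (K ≃ₐ[F] K) :=
    { toFun := a
      map_one' := by
        apply AlgEquiv.ext
        intro x
        rw [ha, map_one]
        rfl
      map_mul' := by
        intro σ τ
        apply AlgEquiv.ext
        intro x
        rw [ha, map_mul]
        rfl }
  have ha' : ∀ σ (x : K), act' σ x = act σ x := fun σ x => rfl
  have hli : LinearIndependent F b := by
    rw [Fintype.linearIndependent_iff]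
    intro q hq γ
    have h1 : ∑ γ, j (q γ) * (b γ : Ω) = 0 := by
      have h2 := congrArg (Subtype.val : K → Ω) hq
      rw [← K.coe_subtype] at h2
      rw [map_sum, map_zero] at h2
      rw [← h2]
      refine Finset.sum_congr rfl fun γ _ => ?_
      rw [Algebra.smul_def]
      rfl
    have h3 := hb2 (fun γ => j (q γ)) (fun γ => hjE _) h1 γ
    exact (map_eq_zero j).1 h3
  have hsp : ⊤ ≤ Submodule.span F (Set.range b) := by
    intro z _
    obtain ⟨q, hq, hz⟩ := hb1 z
    choose w hw using fun γ => (hE (q γ)).1 (hq γ)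
    have : z = ∑ γ, w γ • b γ := by
      apply Subtype.ext
      rw [hz, ← K.coe_subtype, map_sum]
      refine Finset.sum_congr rfl fun γ _ => ?_
      rw [Algebra.smul_def, ← hw γ]
      rfl
    rw [this]
    exact Submodule.sum_mem _ fun γ _ => Submodule.smul_mem _ _
      (Submodule.subset_span ⟨γ, rfl⟩)
  let B := Module.Basis.mk hli hsp
  haveI hfd : FiniteDimensional F K := Module.Finite.of_basis B
  have hfr : Module.finrank F K = Fintype.card Γ := Module.finrank_eq_card_basis B
  have hinj' : Function.Injective act' := by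
    intro σ τ h
    apply hinj
    apply RingEquiv.ext
    intro x
    rw [← ha', ← ha', h]
  have hc1 : Fintype.card Γ ≤ Fintype.card (K ≃ₐ[F] K) := Fintype.card_le_of_injective _ hinj'
  have hc2 : Fintype.card (K ≃ₐ[F] K) ≤ Module.finrank F K := AlgEquiv.card_le
  have hbij : Function.Bijective act' :=
    (Fintype.bijective_iff_injective_and_card _).2 ⟨hinj', by omega⟩
  have hgal : IsGalois F K := by
    apply IsGalois.of_card_aut_eq_finrank
    rw [Nat.card_eq_fintype_card]
    omega
  exact ⟨K, inferInstance, inferInstance, K.subtype, act', fun w => rfl, hfd, hgal, hbij,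
    fun z => ⟨z, rfl, fun σ => rfl⟩⟩

end MP7U
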