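import Pool.Agent.Lib.MP_7f581e_U.A.Spec1

/-!
# C41 (MP_7f581e_nt), Block A: the intersection of the two fields
-/

set_option autoImplicit false

namespace MP7U

open Polynomial

namespace InAM

section

variable {k : Type} [Field k]

theorem ss_mem_Os : ss k ∈ Os k :=
  ⟨PowerSeries.X, by rw [HahnSeries.ofPowerSeries_X]; rfl⟩

theorem C_mem_Os (c : k) : (HahnSeries.C c : LaurentSeries k) ∈ Os k :=
  ⟨PowerSeries.C c, by rw [HahnSeries.ofPowerSeries_C]⟩

theorem algC (c : k) : algebraMap k (LaurentSeries k) c = HahnSeries.C c := by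
  simp [RingHom.algebraMap_toAlgebra]

theorem aeval_sum (Q : k[X]) (n : ℕ) (hn : Q.natDegree < n) (u : LaurentSeries k) :
    aeval u Q = ∑ i ∈ Finset.range n, HahnSeries.C (Q.coeff i) * u ^ i := by
  rw [aeval_eq_sum_range' hn]
  exact Finset.sum_congr rfl fun i _ => by rw [Algebra.smul_def, algC]

/-- The coefficients of `aeval x Q`. -/
theorem coeff_aeval_xx (Q : k[X]) (i : ℕ) : (aeval (xx k) Q).coeff (-(i : ℤ)) = Q.coeff i := by
  rw [aeval_sum Q (Q.natDegree + 1) (Nat.lt_succ_self _), HahnSeries.coeff_sum]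
  have h1 : ∀ n : ℕ, (HahnSeries.C (Q.coeff n) * xx k ^ n).coeff (-(i : ℤ)) =
      if n = i then Q.coeff n else 0 := by
    intro n
    have h2 : xx k ^ n = HahnSeries.single (-(n : ℤ)) 1 := by
      rw [xx, HahnSeries.single_pow, one_pow]
      congr 1
      rw [nsmul_eq_mul, mul_neg, mul_one]
    rw [h2, HahnSeries.C_mul_eq_smul, HahnSeries.coeff_smul]
    by_cases hn : n = i
    · subst hn
      rw [HahnSeries.coeff_single_same, if_pos rfl, smul_eq_mul, mul_one]
    · rw [HahnSeries.coeff_single_of_ne (by omega), if_neg hn, smul_zero]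
  rw [Finset.sum_congr rfl fun n _ => h1 n, Finset.sum_ite_eq']
  split
  · rfl
  · rename_i h
    rw [Finset.mem_range, not_lt] at h
    exact (coeff_eq_zero_of_natDegree_lt (by omega)).symm

/-- A polynomial of degree at most `d` in `x` is `s^(-d)` times a power series in `s`. -/
theorem bd_of_isPd {d : ℕ} {y : LaurentSeries k} (h : IsPd (xx k) d y) : ss k ^ d * y ∈ Os k := by
  obtain ⟨P, hP, rfl⟩ := h
  rw [aeval_sum P (d + 1) (Nat.lt_succ_of_le hP), Finset.mul_sum]
  refine sum_mem fun i hi => ?_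
  rw [Finset.mem_range] at hi
  have h1 : ss k ^ d * (HahnSeries.C (P.coeff i) * xx k ^ i) =
      HahnSeries.C (P.coeff i) * ss k ^ (d - i) := by
    have h2 : ss k ^ d = ss k ^ (d - i) * ss k ^ i := by
      rw [← pow_add, Nat.sub_add_cancel (by omega)]
    rw [h2]
    calc ss k ^ (d - i) * ss k ^ i * (HahnSeries.C (P.coeff i) * xx k ^ i)
        = HahnSeries.C (P.coeff i) * ss k ^ (d - i) * (ss k * xx k) ^ i := by
          rw [mul_pow]; ring
      _ = _ := by rw [ss_mul_xx, one_pow, mul_one]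
  rw [h1]
  exact mul_mem (C_mem_Os _) (pow_mem ss_mem_Os _)

/-- The converse for elements of `k[x]`. -/
theorem isPd_of_bd {d : ℕ} {y : LaurentSeries k} (h : y ∈ Px k) (hd : ss k ^ d * y ∈ Os k) :
    IsPd (xx k) d y := by
  obtain ⟨Q, hQ⟩ := h
  have hQ' : aeval (xx k) Q = y := hQ
  refine ⟨Q, ?_, hQ'⟩
  rw [natDegree_le_iff_coeff_eq_zero]
  intro N hN
  rw [← coeff_aeval_xx, hQ']
  obtain ⟨f, hf⟩ := hd
  have h1 : (ss k ^ d * y).coeff ((d : ℤ) + -(N : ℤ)) = y.coeff (-(N : ℤ)) := by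
    have h2 : ss k ^ d = HahnSeries.single (d : ℤ) 1 := by
      rw [ss, HahnSeries.single_pow, one_pow]
      congr 1
      rw [nsmul_eq_mul, mul_one]
    rw [h2, add_comm, HahnSeries.coeff_single_mul_add, one_mul]
  rw [← h1, ← hf, HahnSeries.ofPowerSeries_apply]
  refine HahnSeries.embDomain_of_notMem_range ?_
  rintro ⟨a, ha⟩
  have ha' : (a : ℤ) = (d : ℤ) + -(N : ℤ) := ha
  omega

end

end InAM

open InAM in
theorem aInA (h1 : PxAStmt) (h2 : OsAStmt) (h3 : EmAStmt) (h4 : RgAStmt) : InAStmt := by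
  intro k _ a j hj z hz1 hz2
  obtain ⟨c, hc, d, hd, hd0, hcd⟩ := mem_FF.1 hz2
  obtain ⟨q, hq, P, n, m, hP0, hP, hdq⟩ := h2 k d hd hd0
  obtain ⟨w, hw⟩ := h3 k a j hj P n (Or.inr hP)
  have hz' : z * (HahnSeries.single 1 1 ^ m * HahnSeries.ofPowerSeries ℤ (LaurentSeries k) P) =
      c * q := by rw [← hdq, ← hcd, mul_assoc]
  have hz'1 : c * q ∈ FF (Px k) := by
    rw [← hz', ← hw]
    exact mul_mem hz1 (mul_mem (pow_mem (PS_le_FF (t_mem_PS _)) _) (h4 k a j hj w).1)
  obtain ⟨a', ha', b, hb, hb0, hab⟩ := mem_FF.1 hz'1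
  obtain ⟨q', hq', P', d', m', hP'0, hP', hbq⟩ := h1 k b hb hb0
  obtain ⟨w', hw'⟩ := h3 k a j hj P' d' (Or.inl hP')
  have hz'' : (c * q) * (HahnSeries.single 1 1 ^ m' *
      HahnSeries.ofPowerSeries ℤ (LaurentSeries k) P') = a' * q' := by
    rw [← hbq, ← hab]
    simp only [mul_assoc]
  obtain ⟨G, hG, hG'⟩ := mem_PS.1 (mul_mem hc hq)
  obtain ⟨F, hF, hF'⟩ := mem_PS.1 (mul_mem ha' hq')
  have hFG : F = G * (PowerSeries.X ^ m' * P') := by
    apply HahnSeries.ofPowerSeries_injective (Γ := ℤ)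
    rw [hF', ← hz'', map_mul, map_mul, map_pow, HahnSeries.ofPowerSeries_X, hG']
  have hFd : ∀ i, IsPd (xx k) d' (PowerSeries.coeff i F) := by
    intro i
    refine isPd_of_bd (hF i) ?_
    rw [hFG, PowerSeries.coeff_mul, Finset.mul_sum]
    refine sum_mem fun p _ => ?_
    rw [mul_left_comm]
    refine mul_mem (hG _) ?_
    rw [PowerSeries.coeff_X_pow_mul']
    split
    · exact bd_of_isPd (hP' _)
    · rw [mul_zero]; exact zero_mem _
  obtain ⟨v, hv⟩ := h3 k a j hj F d' (Or.inl hFd)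
  have ht : j (algebraMap (LaurentSeries k) (RatFunc (LaurentSeries k)) (HahnSeries.single 1 1)) =
      HahnSeries.single 1 1 := by
    rw [hj.1]
    refine HahnSeries.ext (funext fun n => ?_)
    rw [mapL_coeff]
    by_cases hn : n = 1
    · subst hn
      rw [HahnSeries.coeff_single_same, HahnSeries.coeff_single_same, map_one]
    · rw [HahnSeries.coeff_single_of_ne hn, HahnSeries.coeff_single_of_ne hn, map_zero]
  set T := algebraMap (LaurentSeries k) (RatFunc (LaurentSeries k)) (HahnSeries.single 1 1)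
    with hT
  have ht0 : (HahnSeries.single 1 1 : LaurentSeries (LaurentSeries k)) ≠ 0 := by
    rw [Ne, HahnSeries.single_eq_zero_iff]
    exact one_ne_zero
  have hPn : HahnSeries.ofPowerSeries ℤ (LaurentSeries k) P ≠ 0 := by
    intro h
    exact hP0 (HahnSeries.ofPowerSeries_injective (Γ := ℤ) (by rw [h, map_zero]))
  have hPn' : HahnSeries.ofPowerSeries ℤ (LaurentSeries k) P' ≠ 0 := by
    intro h
    exact hP'0 (HahnSeries.ofPowerSeries_injective (Γ := ℤ) (by rw [h, map_zero]))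
  refine ⟨v / ((T ^ m * w) * (T ^ m' * w')), ?_⟩
  rw [map_div₀, map_mul, map_mul, map_mul, map_pow, map_pow, ht, hw, hw', hv, hF', ← hz'', ← hz']
  have e1 : (HahnSeries.single 1 1 : LaurentSeries (LaurentSeries k)) ^ m *
      HahnSeries.ofPowerSeries ℤ (LaurentSeries k) P ≠ 0 := mul_ne_zero (pow_ne_zero _ ht0) hPn
  have e2 : (HahnSeries.single 1 1 : LaurentSeries (LaurentSeries k)) ^ m' *
      HahnSeries.ofPowerSeries ℤ (LaurentSeries k) P' ≠ 0 := mul_ne_zero (pow_ne_zero _ ht0) hPn'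
  rw [mul_assoc, mul_div_cancel_right₀ _ (mul_ne_zero e1 e2)]

end MP7U
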