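import Pool.Agent.Lib.MP_7f581e_U.A.Spec1

/-!
# C41 (MP_7f581e_nt), Block A: IntF, intersection of two forms (helper82)
-/

set_option autoImplicit false

namespace MP7U

open Polynomial

namespace IntFM

variable {Ω : Type} [Field Ω] {ι : Type} [Fintype ι] [DecidableEq ι]

omit [DecidableEq ι] in
theorem mulVec_mem {P : Subfield Ω} {D : Matrix ι ι Ω} (hD : ∀ i j, D i j ∈ P) {q : ι → Ω}
    (hq : ∀ i, q i ∈ P) (i : ι) : D.mulVec q i ∈ P := by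
  rw [Matrix.mulVec, dotProduct]
  exact sum_mem fun j _ => mul_mem (hD i j) (hq j)

theorem inv_mem {P : Subfield Ω} {D : Matrix ι ι Ω} (hD : ∀ i j, D i j ∈ P) (hu : IsUnit D.det)
    (i j : ι) : D⁻¹ i j ∈ P := by
  let M : Matrix ι ι P := fun i j => ⟨D i j, hD i j⟩
  have hM : P.subtype.mapMatrix M = D := rfl
  have hdet : P.subtype M.det = D.det := by
    rw [RingHom.map_det, hM]
  have hMu : IsUnit M.det := by
    rw [isUnit_iff_ne_zero]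
    intro h0
    rw [h0, map_zero] at hdet
    rw [← hdet] at hu
    exact not_isUnit_zero hu
  have h1 : D * P.subtype.mapMatrix M⁻¹ = 1 := by
    have h2 : P.subtype.mapMatrix M * P.subtype.mapMatrix M⁻¹ = 1 := by
      rw [← map_mul, Matrix.mul_nonsing_inv M hMu, map_one]
    rw [hM] at h2
    exact h2
  rw [Matrix.inv_eq_right_inv h1]
  exact (M⁻¹ i j).2

end IntFM

theorem aIntF : IntFStmt := by
  intro Ω _ P₁ P₂ hF ι _ _ N₁ N₂ hN₁ hN₂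
  obtain ⟨C₁, hC₁, hN₁⟩ := hN₁
  obtain ⟨C₂, hC₂, hN₂⟩ := hN₂
  have hC : IsUnit (C₁⁻¹ * C₂).det := by
    rw [Matrix.det_mul]
    exact (Matrix.isUnit_nonsing_inv_det C₁ hC₁).mul hC₂
  obtain ⟨D₁, D₂, hD₁, hD₂, hD⟩ := hF ι (C₁⁻¹ * C₂) hC
  have hdd : IsUnit (D₁.det * D₂.det) := by
    rw [← Matrix.det_mul, ← hD]
    exact hC
  have hu₁ : IsUnit D₁.det := isUnit_of_mul_isUnit_left hdd
  have hu₂ : IsUnit D₂.det := isUnit_of_mul_isUnit_right hdd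
  have hU : C₁ * D₁ = C₂ * D₂⁻¹ := by
    have h1 : C₁ * D₁ * D₂ = C₂ := by
      rw [Matrix.mul_assoc, ← hD, ← Matrix.mul_assoc, Matrix.mul_nonsing_inv C₁ hC₁,
        Matrix.one_mul]
    rw [← h1, Matrix.mul_assoc, Matrix.mul_nonsing_inv D₂ hu₂, Matrix.mul_one]
  have hUu : IsUnit (C₁ * D₁).det := by
    rw [Matrix.det_mul]
    exact hC₁.mul hu₁
  refine ⟨C₁ * D₁, hUu, Set.ext fun v => ⟨?_, ?_⟩⟩
  · rintro ⟨h1, h2⟩
    rw [hN₁] at h1
    rw [hN₂] at h2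
    obtain ⟨q₁, hq₁, hv₁⟩ := h1
    obtain ⟨q₂, hq₂, hv₂⟩ := h2
    have e1 : v = (C₁ * D₁).mulVec (D₁⁻¹.mulVec q₁) := by
      rw [Matrix.mulVec_mulVec, Matrix.mul_assoc, Matrix.mul_nonsing_inv D₁ hu₁, Matrix.mul_one]
      exact hv₁
    have e2 : v = (C₁ * D₁).mulVec (D₂.mulVec q₂) := by
      rw [hU, Matrix.mulVec_mulVec, Matrix.mul_assoc, Matrix.nonsing_inv_mul D₂ hu₂,
        Matrix.mul_one]
      exact hv₂
    have e3 : D₁⁻¹.mulVec q₁ = D₂.mulVec q₂ := by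
      have h3 := congrArg (fun w => (C₁ * D₁)⁻¹.mulVec w) (e1.symm.trans e2)
      simp only [Matrix.mulVec_mulVec _ (C₁ * D₁)⁻¹ (C₁ * D₁),
        Matrix.nonsing_inv_mul (C₁ * D₁) hUu, Matrix.one_mulVec] at h3
      exact h3
    refine ⟨D₁⁻¹.mulVec q₁, fun i => Subfield.mem_inf.2 ⟨?_, ?_⟩, e1⟩
    · exact IntFM.mulVec_mem (IntFM.inv_mem hD₁ hu₁) hq₁ i
    · rw [e3]
      exact IntFM.mulVec_mem hD₂ hq₂ i
  · rintro ⟨q, hq, rfl⟩
    constructor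
    · rw [hN₁]
      refine ⟨D₁.mulVec q, fun i => IntFM.mulVec_mem hD₁ (fun i => (Subfield.mem_inf.1 (hq i)).1) i,
        ?_⟩
      rw [Matrix.mulVec_mulVec]
    · rw [hN₂]
      refine ⟨D₂⁻¹.mulVec q, fun i => IntFM.mulVec_mem (IntFM.inv_mem hD₂ hu₂)
        (fun i => (Subfield.mem_inf.1 (hq i)).2) i, ?_⟩
      rw [Matrix.mulVec_mulVec, hU]

end MP7U
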