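import Pool.Agent.Lib.MP_7f581e_U.A.Spec1

/-!
# C41, Block A, JeA: the embedding of `k((t))(X)`
-/

set_option autoImplicit false

namespace MP7U

open Polynomial

namespace JeAM

variable {k : Type} [Field k]

theorem coe_eq (P : k[X]) :
    HahnSeries.ofPowerSeries ℤ k (P : PowerSeries k) = aeval (ss k) P := by
  induction P using Polynomial.induction_on' with
  | add p q hp hq => rw [Polynomial.coe_add, map_add, map_add, hp, hq]
  | monomial n a =>
    rw [← C_mul_X_pow_eq_monomial, Polynomial.coe_mul, Polynomial.coe_pow, Polynomial.coe_C,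
      Polynomial.coe_X, map_mul, map_pow, HahnSeries.ofPowerSeries_C, HahnSeries.ofPowerSeries_X,
      map_mul, map_pow, aeval_C, aeval_X, LaurentSeries.algebraMap_apply]
    rfl

theorem aeval_inj : Function.Injective (aeval (ss k) : k[X] → LaurentSeries k) := by
  intro P Q h
  rw [← coe_eq, ← coe_eq] at h
  exact Polynomial.coe_injective k (HahnSeries.ofPowerSeries_injective h)

theorem aeval_add (a : k) (P : k[X]) :
    aeval (HahnSeries.C a + ss k) P = aeval (ss k) (P.comp (C a + X)) := by
  rw [aeval_comp, map_add, aeval_C, aeval_X, LaurentSeries.algebraMap_apply]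

/-- The homomorphism on polynomials. -/
noncomputable def psi (a : k) : (LaurentSeries k)[X] →+* LaurentSeries (LaurentSeries k) :=
  eval₂RingHom (mapL (HahnSeries.C : k →+* LaurentSeries k)) (HahnSeries.C (HahnSeries.C a + ss k))

theorem psi_coeff (a : k) (F : (LaurentSeries k)[X]) (m : ℤ) :
    (psi a F).coeff m = aeval (HahnSeries.C a + ss k)
      (∑ i ∈ Finset.range (F.natDegree + 1), C ((F.coeff i).coeff m) * X ^ i) := by
  have h0 : psi a F = eval₂ (mapL (HahnSeries.C : k →+* LaurentSeries k))
      (HahnSeries.C (HahnSeries.C a + ss k)) F := rfl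
  rw [h0]
  rw [eval₂_eq_sum_range, map_sum, HahnSeries.coeff_sum]
  refine Finset.sum_congr rfl fun i _ => ?_
  rw [← map_pow, mul_comm, HahnSeries.C_mul_eq_smul, HahnSeries.coeff_smul, mapL_coeff, map_mul,
    aeval_C, map_pow, aeval_X, LaurentSeries.algebraMap_apply, smul_eq_mul,
    mul_comm]

theorem psi_inj (a : k) : Function.Injective (psi a) := by
  rw [injective_iff_map_eq_zero]
  intro F hF
  by_contra hF0
  have hlc : F.coeff F.natDegree ≠ 0 := by
    rw [coeff_natDegree]
    exact leadingCoeff_ne_zero.mpr hF0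
  obtain ⟨m, hm⟩ : ∃ m, (F.coeff F.natDegree).coeff m ≠ 0 := by
    by_contra h
    push Not at h
    apply hlc
    ext m
    rw [h m, HahnSeries.coeff_zero]
  have h1 := psi_coeff a F m
  rw [hF, HahnSeries.coeff_zero, aeval_add] at h1
  have h2 := aeval_inj (h1.symm.trans (map_zero (aeval (ss k))).symm)
  set p : k[X] := ∑ i ∈ Finset.range (F.natDegree + 1), C ((F.coeff i).coeff m) * X ^ i with hp
  have h3 : p = 0 := by
    have h4 : (p.comp (C a + X)).comp (X - C a) = 0 := by rw [h2, zero_comp]
    rw [comp_assoc, add_comp, C_comp, X_comp, add_sub_cancel, comp_X] at h4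
    exact h4
  have h5 : p.coeff F.natDegree = (F.coeff F.natDegree).coeff m := by
    rw [hp, finsetSum_coeff, Finset.sum_eq_single F.natDegree]
    · rw [coeff_C_mul_X_pow, if_pos rfl]
    · intro i _ hi
      rw [coeff_C_mul_X_pow, if_neg (Ne.symm hi)]
    · intro h
      exact absurd (Finset.mem_range.mpr (Nat.lt_succ_self _)) h
  rw [h3, coeff_zero] at h5
  exact hm h5.symm

end JeAM

open JeAM in
theorem aJeA : JeAStmt := by
  intro k _ a
  refine ⟨IsFractionRing.lift (A := (LaurentSeries k)[X]) (psi_inj a), ?_, ?_⟩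
  · intro c
    have h1 : algebraMap (LaurentSeries k) (RatFunc (LaurentSeries k)) c =
        algebraMap (LaurentSeries k)[X] (RatFunc (LaurentSeries k)) (C c) := by
      rw [IsScalarTower.algebraMap_apply (LaurentSeries k) (LaurentSeries k)[X]
        (RatFunc (LaurentSeries k)) c]
      rfl
    rw [h1, IsFractionRing.lift_algebraMap]
    show eval₂ _ _ (C c) = _
    rw [eval₂_C]
  · rw [← RatFunc.algebraMap_X, IsFractionRing.lift_algebraMap]
    show eval₂ _ _ X = _
    rw [eval₂_X]

end MP7U
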