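import Pool.Agent.Lib.MP_7f581e_U.A.Spec1

/-!
# C41, Block A, OsA: preparation over `k⟦s⟧`
-/

set_option autoImplicit false

namespace MP7U

open Polynomial

namespace OsAM

variable {k : Type} [Field k]

theorem coe_eq (P : k[X]) :
    HahnSeries.ofPowerSeries ℤ k (P : PowerSeries k) = aeval (ss k) P := by
  induction P using Polynomial.induction_on' with
  | add p q hp hq => rw [Polynomial.coe_add, map_add, map_add, hp, hq]
  | monomial n a =>
    rw [← C_mul_X_pow_eq_monomial, Polynomial.coe_mul, Polynomial.coe_pow, Polynomial.coe_C,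
      Polynomial.coe_X, map_mul, map_pow, HahnSeries.ofPowerSeries_C, HahnSeries.ofPowerSeries_X,
      map_mul, map_pow, aeval_C, aeval_X, LaurentSeries.algebraMap_apply]
    rfl

theorem aeval_inj : Function.Injective (aeval (ss k) : k[X] → LaurentSeries k) := by
  intro P Q h
  rw [← coe_eq, ← coe_eq] at h
  exact Polynomial.coe_injective k (HahnSeries.ofPowerSeries_injective h)

theorem ss_mem : ss k ∈ Os k := ⟨PowerSeries.X, by
  show HahnSeries.ofPowerSeries ℤ k PowerSeries.X = _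
  rw [HahnSeries.ofPowerSeries_X]
  rfl⟩

/-- The polynomials in `s` of degree less than `d`. -/
noncomputable def WW (k : Type) [Field k] (d : ℕ) : AddSubgroup (LaurentSeries k) :=
  (degreeLT k d).toAddSubgroup.map (aeval (ss k) : k[X] →ₐ[k] LaurentSeries k).toAddMonoidHom

theorem mem_WW {d : ℕ} {z : LaurentSeries k} :
    z ∈ WW k d ↔ ∃ P : k[X], P.degree < d ∧ aeval (ss k) P = z := by
  unfold WW
  rw [AddSubgroup.mem_map]
  constructor
  · rintro ⟨P, hP, h⟩
    exact ⟨P, mem_degreeLT.mp hP, h⟩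
  · rintro ⟨P, hP, h⟩
    exact ⟨P, mem_degreeLT.mpr hP, h⟩

/-- Division with remainder by `s^d` times a unit. -/
theorem div_os (G : LaurentSeries k) (hG : G ∈ Os k) (hG0 : G ≠ 0) : ∃ d : ℕ, ∀ z ∈ Os k,
    ∃ q ∈ Os k, ∃ w ∈ WW k d, z = G * q + w := by
  obtain ⟨g, rfl⟩ := hG
  have hg0 : g ≠ 0 := by
    rintro rfl
    exact hG0 (map_zero _)
  have hu : PowerSeries.constantCoeff (PowerSeries.divXPowOrder g) ≠ 0 := by
    rw [Ne, PowerSeries.constantCoeff_divXPowOrder_eq_zero_iff]
    exact hg0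
  have hg := PowerSeries.X_pow_order_mul_divXPowOrder (f := g)
  generalize g.order.toNat = d at hg
  generalize PowerSeries.divXPowOrder g = u at hg hu
  refine ⟨d, ?_⟩
  rintro _ ⟨f, rfl⟩
  have hf := PowerSeries.eq_X_pow_mul_shift_add_trunc d f
  set h : PowerSeries k := PowerSeries.mk fun i => PowerSeries.coeff (i + d) f with hh
  refine ⟨HahnSeries.ofPowerSeries ℤ k (u⁻¹ * h), ⟨_, rfl⟩,
    aeval (ss k) (PowerSeries.trunc d f), mem_WW.mpr ⟨_, PowerSeries.degree_trunc_lt f d, rfl⟩, ?_⟩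
  rw [← coe_eq]
  show HahnSeries.ofPowerSeries ℤ k f = HahnSeries.ofPowerSeries ℤ k g * _ + _
  rw [← map_mul, ← map_add]
  congr 1
  have h2 : g * (u⁻¹ * h) = PowerSeries.X ^ d * h := by
    rw [← hg]
    calc PowerSeries.X ^ d * u * (u⁻¹ * h) = PowerSeries.X ^ d * (u * u⁻¹) * h := by ring
      _ = _ := by rw [PowerSeries.mul_inv_cancel _ hu, mul_one]
  rw [h2]
  exact hf

end OsAM

open OsAM in
theorem aOsA (h1 : WdAStmt) : OsAStmt := by
  intro k _ b hb hb0
  obtain ⟨F, hF, rfl⟩ := hb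
  have hF0 : F ≠ 0 := by
    rintro rfl
    exact hb0 (map_zero _)
  have hG := PowerSeries.X_pow_order_mul_divXPowOrder (f := F)
  have hG0 : PowerSeries.constantCoeff (PowerSeries.divXPowOrder F) ≠ 0 := by
    rw [Ne, PowerSeries.constantCoeff_divXPowOrder_eq_zero_iff]
    exact hF0
  have hGR : ∀ n, PowerSeries.coeff n (PowerSeries.divXPowOrder F) ∈ Os k := by
    intro n
    rw [PowerSeries.coeff_divXPowOrder]
    exact hF _
  generalize F.order.toNat = m at hG
  generalize PowerSeries.divXPowOrder F = G at hG hG0 hGR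
  obtain ⟨d, hd⟩ := div_os (PowerSeries.constantCoeff G)
    (by
      have := hGR 0
      rwa [PowerSeries.coeff_zero_eq_constantCoeff_apply] at this) hG0
  have hWR : ∀ w ∈ WW k d, w ∈ Os k := by
    intro w hw
    obtain ⟨P, -, rfl⟩ := mem_WW.mp hw
    exact ⟨(P : PowerSeries k), coe_eq P⟩
  obtain ⟨q, r, hq, hr, hqr⟩ := h1 (LaurentSeries k) (Os k) (WW k d) hWR G hGR hd
    (PowerSeries.C (ss k ^ d))
    (fun n => by
      rw [PowerSeries.coeff_C]
      split
      · exact pow_mem ss_mem d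
      · exact zero_mem _)
  have hPd : ∀ n, ∃ p : k[X], p.degree < d ∧ aeval (ss k) p = PowerSeries.coeff n r :=
    fun n => mem_WW.mp (hr n)
  choose p hp hp' using hPd
  have hnat : ∀ n, (p n).natDegree ≤ d := by
    intro n
    exact natDegree_le_of_degree_le (hp n).le
  have hc0 : PowerSeries.coeff 0 (PowerSeries.C (ss k ^ d) - r) = aeval (ss k) (X ^ d - p 0) := by
    rw [map_sub, map_sub, hp', PowerSeries.coeff_C, if_pos rfl, map_pow (aeval (ss k)), aeval_X]
  refine ⟨HahnSeries.ofPowerSeries ℤ _ q, ⟨q, hq, rfl⟩, PowerSeries.C (ss k ^ d) - r, d, m,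
    ?_, ?_, ?_⟩
  · intro h
    rw [h, map_zero] at hc0
    have h2 : (X ^ d - p 0 : k[X]) = 0 := aeval_inj (by rw [map_zero]; exact hc0.symm)
    have h3 : (X ^ d - p 0 : k[X]).coeff d = 0 := by rw [h2, coeff_zero]
    rw [coeff_sub, coeff_X_pow, if_pos rfl, coeff_eq_zero_of_degree_lt (hp 0), sub_zero] at h3
    exact one_ne_zero h3
  · intro n
    rcases Nat.eq_zero_or_pos n with rfl | hn
    · refine ⟨X ^ d - p 0, ?_, hc0.symm⟩
      refine (natDegree_sub_le _ _).trans (max_le ?_ (hnat 0))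
      rw [natDegree_X_pow]
    · refine ⟨-p n, ?_, ?_⟩
      · rw [natDegree_neg]
        exact hnat n
      · rw [map_neg, hp', map_sub, PowerSeries.coeff_C, if_neg (by omega), zero_sub]
  · have h2 : PowerSeries.C (ss k ^ d) - r = G * q := by rw [hqr]; ring
    rw [h2, ← hG, ← map_mul, ← HahnSeries.ofPowerSeries_X (Γ := ℤ), ← map_pow, ← map_mul]
    congr 1
    ring

end MP7U
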