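import Pool.Agent.Lib.MP_7f581e_U.A.Spec1

set_option autoImplicit false

namespace MP7U

open Polynomial

namespace PatAM

theorem ss_mem_Os (k : Type) [Field k] : ss k ∈ Os k := by
  refine ⟨PowerSeries.X, ?_⟩
  rw [HahnSeries.ofPowerSeries_X, ss]

theorem C_ss_mem (k : Type) [Field k] :
    (HahnSeries.C (ss k) : LaurentSeries (LaurentSeries k)) ∈ FF (Os k) :=
  PS_le_FF (C_mem_PS (ss_mem_Os k))

theorem C_mem_FFOs (k : Type) [Field k] (z : LaurentSeries k) :
    (HahnSeries.C z : LaurentSeries (LaurentSeries k)) ∈ FF (Os k) := by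
  have h1 : (HahnSeries.single z.order (1 : k) : LaurentSeries k) *
      HahnSeries.ofPowerSeries ℤ k z.powerSeriesPart = z :=
    LaurentSeries.single_order_mul_powerSeriesPart z
  rw [← h1, map_mul]
  refine mul_mem ?_ (PS_le_FF (C_mem_PS ⟨_, rfl⟩))
  have h2 : (HahnSeries.single z.order (1 : k) : LaurentSeries k) = ss k ^ z.order := by
    rw [ss]
    exact RatFunc.single_zpow _
  rw [h2, map_zpow₀]
  exact zpow_mem (C_ss_mem k) _

theorem C_xx_mem (k : Type) [Field k] :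
    (HahnSeries.C (xx k) : LaurentSeries (LaurentSeries k)) ∈ FF (Os k) :=
  C_mem_FFOs k _

theorem xx_mem_Px (k : Type) [Field k] : xx k ∈ Px k :=
  ⟨X, by simp⟩

theorem two_ne (k : Type) [Field k] [CharZero k] : (2 : LaurentSeries (LaurentSeries k)) ≠ 0 := by
  intro h
  have h1 : (HahnSeries.C (HahnSeries.C (2 : k)) : LaurentSeries (LaurentSeries k)) = 2 := by
    rw [map_ofNat, map_ofNat]
  rw [h, ← map_zero (HahnSeries.C : LaurentSeries k →+* LaurentSeries (LaurentSeries k))] at h1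
  have h2 := HahnSeries.C_injective h1
  rw [← map_zero (HahnSeries.C : k →+* LaurentSeries k)] at h2
  exact two_ne_zero (HahnSeries.C_injective h2)

end PatAM

theorem aPatA (hFc : FcAStmt) (hJe : JeAStmt) (hIn : InAStmt) (hRg : RgAStmt) (hPat : PatFStmt)
    (hHt : HtAStmt) (hRegA : RegAStmt) (hRegB : RegBStmt) (hFm1 : Fm1Stmt) (hFm2 : Fm2Stmt)
    (hSq : SqAStmt) (hWn : WnAStmt) : PatAStmt := by
  intro k _ _ Γ _ _ ε e H g hg2 hg1 hεg hHg hHH
  classical
  let _ : Fintype Γ := Fintype.ofFinite Γ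
  let _ : Fintype H := Fintype.ofFinite H
  let _ : Fintype (Subgroup.zpowers g) := Fintype.ofFinite _
  obtain ⟨L, fL, aL, act, y, hfd, hgal, hbij, hy, hact, a, φ, hφc, hφX⟩ := hHH
  obtain ⟨j, hj⟩ := hJe k a
  obtain ⟨Q₁, hQ₁, hQ₁u⟩ := hFm1 k Γ H L act hfd hgal hbij a φ hφc hφX
  -- the square root
  have hc : ∀ n, PowerSeries.coeff n (1 + PowerSeries.C (xx k) * PowerSeries.X :
      PowerSeries (LaurentSeries k)) ∈ Px k := by
    intro n
    rw [map_add, PowerSeries.coeff_C_mul, PowerSeries.coeff_one, PowerSeries.coeff_X]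
    refine add_mem ?_ (mul_mem (PatAM.xx_mem_Px k) ?_)
    · split
      · exact one_mem _
      · exact zero_mem _
    · split
      · exact one_mem _
      · exact zero_mem _
  have hc1 : PowerSeries.constantCoeff (1 + PowerSeries.C (xx k) * PowerSeries.X :
      PowerSeries (LaurentSeries k)) = 1 := by simp
  have hhalf : ∃ h ∈ Px k, 2 * h = 1 := by
    refine ⟨aeval (xx k) (C (2⁻¹ : k)), ⟨_, rfl⟩, ?_⟩
    have h1 : (2 : LaurentSeries k) = aeval (xx k) (C (2 : k)) := by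
      rw [aeval_C, map_ofNat]
    rw [h1, ← map_mul, ← map_mul, mul_inv_cancel₀ two_ne_zero, map_one, map_one]
  obtain ⟨w₀, hw₀, hw₀2⟩ := hSq (LaurentSeries k) (Px k) hhalf _ hc hc1
  set w : LaurentSeries (LaurentSeries k) := HahnSeries.ofPowerSeries ℤ _ w₀ with hw
  have hw2 : w ^ 2 = 1 + HahnSeries.C (xx k) * HahnSeries.single 1 1 := by
    rw [hw, ← map_pow, hw₀2, map_add, map_one, map_mul, HahnSeries.ofPowerSeries_C,
      HahnSeries.ofPowerSeries_X]
  have hw1 : w ∈ FF (Px k) := PS_le_FF ⟨w₀, hw₀, rfl⟩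
  have hwn : w ∉ FF (Os k) := by
    intro h
    obtain ⟨r, hr⟩ := hIn k a j hj w hw1 h
    exact hWn k a j hj r (by rw [hr, hw2])
  have hw2m : w ^ 2 ∈ FF (Os k) := by
    rw [hw2]
    exact add_mem (one_mem _) (mul_mem (PatAM.C_xx_mem k) (PS_le_FF (t_mem_PS _)))
  obtain ⟨Q₂, hQ₂, hQ₂u⟩ := hFm2 (LaurentSeries (LaurentSeries k)) (FF (Os k)) Γ g hg2 hg1 w hwn
    hw2m (PatAM.two_ne k)
  obtain ⟨K, actK, hPO, hz⟩ := hPat (LaurentSeries (LaurentSeries k)) (FF (Px k)) (FF (Os k))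
    (hFc k) Γ H (Subgroup.zpowers g) hHg Q₁ Q₂ hQ₁ hQ₂
  have hE : ∀ z, z ∈ FF (Px k) ⊓ FF (Os k) ↔ ∃ w, j w = z := by
    intro z
    constructor
    · intro h
      exact hIn k a j hj z (Subfield.mem_inf.1 h).1 (Subfield.mem_inf.1 h).2
    · rintro ⟨v, rfl⟩
      exact Subfield.mem_inf.2 (hRg k a j hj v)
  obtain ⟨L', fL', aL', i, act', hi, hfd', hgal', hbij', hK⟩ :=
    hHt (RatFunc (LaurentSeries k)) (LaurentSeries (LaurentSeries k)) j _ K Γ actK hE hPO
  have hinj : Function.Injective i := i.injective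
  -- the element `y`
  set y₁ : LaurentSeries (LaurentSeries k) := HahnSeries.C (φ y) with hy₁
  have hψ1 : (fun θ : Γ => (((ε θ : ℤˣ) : ℤ) : LaurentSeries (LaurentSeries k)) * y₁) ∈
      ind H Q₁ := by
    intro θ
    have h1 := hQ₁u ((((ε θ : ℤˣ) : ℤ) : L) * y)
    convert h1 using 1
    funext h
    have h2 : (((ε ((h : Γ) * θ) : ℤˣ) : ℤ) : LaurentSeries (LaurentSeries k)) =
        (((ε θ : ℤˣ) : ℤ) : LaurentSeries (LaurentSeries k)) *
        (((ε (h : Γ) : ℤˣ) : ℤ) : LaurentSeries (LaurentSeries k)) := by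
      rw [map_mul, Units.val_mul, Int.cast_mul, mul_comm]
    simp only []
    rw [h2, map_mul, map_intCast, hact h, map_mul, map_intCast, map_mul, map_mul, map_intCast,
      map_mul, map_intCast, map_intCast, mul_assoc]
    rfl
  have hψ2 : (fun θ : Γ => (((ε θ : ℤˣ) : ℤ) : LaurentSeries (LaurentSeries k)) * y₁) ∈
      ind (Subgroup.zpowers g) Q₂ := by
    intro θ
    have h1 := hQ₂u ((((ε θ : ℤˣ) : ℤ) : LaurentSeries (LaurentSeries k)) * y₁)
      (mul_mem (intCast_mem _ _) (PatAM.C_mem_FFOs k _))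
    convert h1 using 1
    funext h
    have h2 : ε (h : Γ) = 1 := by
      obtain ⟨n, hn⟩ := Subgroup.mem_zpowers_iff.1 h.2
      rw [← hn, map_zpow, hεg, one_zpow]
    simp only []
    rw [map_mul, h2, one_mul]
  obtain ⟨z, hzσ⟩ := hz _ hψ1 hψ2
  obtain ⟨y', hy', hy'σ⟩ := hK z
  have hz1 : (z : LaurentSeries (LaurentSeries k)) = y₁ := by
    have h1 := hzσ 1
    rw [map_one] at h1
    simpa using h1
  refine ⟨L', fL', aL', act', y', hfd', hgal', hbij', ?_, ?_, ?_⟩
  · apply hinj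
    rw [map_pow, hy', hz1, hi, hy₁, map_pow, hj.2, ← map_pow, ← map_pow, hy, map_pow, map_pow,
      hφX, map_pow]
  · intro σ
    apply hinj
    rw [hy'σ, hzσ, map_mul, map_intCast, hy', hz1]
  · rintro x ⟨f, hf, hfx⟩
    have h1 : ACl (mapL (HahnSeries.C : k →+* LaurentSeries k)) :=
      hRegA k (LaurentSeries k) HahnSeries.C (hRegB k)
    have h2 : (i.comp ((algebraMap (RatFunc (LaurentSeries k)) L').comp
        (algebraMap (LaurentSeries k) (RatFunc (LaurentSeries k))))) =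
        mapL (HahnSeries.C : k →+* LaurentSeries k) := by
      ext1 c
      rw [RingHom.comp_apply, RingHom.comp_apply, hi, hj.1]
    have h3 : eval₂ (mapL (HahnSeries.C : k →+* LaurentSeries k)) (i x) f = 0 := by
      rw [← h2, ← hom_eval₂, hfx, map_zero]
    obtain ⟨c, hc⟩ := h1 (i x) ⟨f, hf, h3⟩
    refine ⟨c, hinj ?_⟩
    rw [hi, hj.1, hc]

end MP7U
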