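import Pool.Agent.Lib.MP_7f581e_U.A.Spec1

/-!
# C41 (MP_7f581e_nt), Block A: PatF, abstract patching (helper82)
-/

set_option autoImplicit false

namespace MP7U

open Polynomial

namespace PatFM

variable {Ω : Type} [Field Ω] {Γ : Type} [Group Γ]

/-- The elements which preserve the zeros of `φ`. -/
def zs (φ : Γ → Ω) : Subgroup Γ where
  carrier := {γ | ∀ θ, φ θ = 0 ↔ φ (γ * θ) = 0}
  one_mem' := fun θ => by rw [one_mul]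
  mul_mem' := by
    intro a b ha hb θ
    rw [mul_assoc]
    exact (hb θ).trans (ha (b * θ))
  inv_mem' := by
    intro a ha θ
    have h1 := ha (a⁻¹ * θ)
    rw [mul_inv_cancel_left] at h1
    exact h1.symm

theorem le_zs {P : Subfield Ω} {H : Subgroup Γ} [Fintype H] [DecidableEq H] {Q : Set (H → Ω)}
    (hQ : IsPt P H Q) {φ : Γ → Ω} (hφ : φ ∈ ind H Q) : H ≤ zs φ := by
  have key : ∀ (h : Γ), h ∈ H → ∀ θ, φ θ = 0 → φ (h * θ) = 0 := by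
    intro h hh θ h0
    have h1 := hQ.inj _ (hφ θ) (by
      show φ (((1 : H) : Γ) * θ) = 0
      rw [Subgroup.coe_one, one_mul]
      exact h0)
    exact congrFun h1 ⟨h, hh⟩
  intro h hh θ
  refine ⟨key h hh θ, fun h0 => ?_⟩
  have h1 := key h⁻¹ (inv_mem hh) _ h0
  rw [inv_mul_cancel_left] at h1
  exact h1

theorem ind_one {P : Subfield Ω} {H : Subgroup Γ} [Fintype H] [DecidableEq H] {Q : Set (H → Ω)}
    (hQ : IsPt P H Q) : (1 : Γ → Ω) ∈ ind H Q := fun _ => hQ.one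

theorem ind_mul {P : Subfield Ω} {H : Subgroup Γ} [Fintype H] [DecidableEq H] {Q : Set (H → Ω)}
    (hQ : IsPt P H Q) {φ ψ : Γ → Ω} (hφ : φ ∈ ind H Q) (hψ : ψ ∈ ind H Q) : φ * ψ ∈ ind H Q :=
  fun θ => hQ.mul _ (hφ θ) _ (hψ θ)

omit [Field Ω] in
theorem ind_tr {H : Subgroup Γ} {Q : Set (H → Ω)} {φ : Γ → Ω} (hφ : φ ∈ ind H Q) (σ : Γ) :
    (fun θ => φ (θ * σ)) ∈ ind H Q := by
  intro θ
  have h1 := hφ (θ * σ)
  have h2 : (fun h : H => φ ((h : Γ) * θ * σ)) = (fun h : H => φ ((h : Γ) * (θ * σ))) := by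
    funext h
    rw [mul_assoc]
  show (fun h : H => φ ((h : Γ) * θ * σ)) ∈ Q
  rw [h2]
  exact h1

end PatFM

theorem aPatF (h1 : IndFStmt) (h2 : IntFStmt) (h3 : FldFStmt) : PatFStmt := by
  intro Ω _ P₁ P₂ hF Γ _ _ _ H₁ H₂ _ _ _ _ hH Q₁ Q₂ hQ₁ hQ₂
  have f₁ := h1 Ω P₁ Γ H₁ Q₁ hQ₁.fm hQ₁.tr
  have f₂ := h1 Ω P₂ Γ H₂ Q₂ hQ₂.fm hQ₂.tr
  have f := h2 Ω P₁ P₂ hF Γ _ _ f₁ f₂
  obtain ⟨K, act, hK, hz⟩ := h3 Ω (P₁ ⊓ P₂) Γ (ind H₁ Q₁ ∩ ind H₂ Q₂) f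
    ⟨PatFM.ind_one hQ₁, PatFM.ind_one hQ₂⟩
    (fun φ hφ ψ hψ => ⟨PatFM.ind_mul hQ₁ hφ.1 hψ.1, PatFM.ind_mul hQ₂ hφ.2 hψ.2⟩)
    (fun φ hφ σ => ⟨PatFM.ind_tr hφ.1 σ, PatFM.ind_tr hφ.2 σ⟩)
    (fun φ hφ θ h0 => by
      have h4 : (⊤ : Subgroup Γ) ≤ PatFM.zs φ := by
        rw [← hH]
        exact sup_le (PatFM.le_zs hQ₁ hφ.1) (PatFM.le_zs hQ₂ hφ.2)
      funext γ
      have h5 : γ * θ⁻¹ ∈ PatFM.zs φ := h4 (Subgroup.mem_top _)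
      have h6 := (h5 θ).1 h0
      rw [inv_mul_cancel_right] at h6
      exact h6)
  exact ⟨K, act, hK, fun φ hφ₁ hφ₂ => hz φ ⟨hφ₁, hφ₂⟩⟩

end MP7U
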