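import Pool.Agent.Lib.MP_7f581e_U.A.Spec1

/-!
# C41 (MP_7f581e_nt), A/PxA: preparation over `k[x]` (helper25, task 12098)
-/

set_option autoImplicit false

namespace MP7U

open Polynomial

namespace PxAM

variable {k : Type} [Field k]

theorem xx_pow (i : ℕ) : xx k ^ i = HahnSeries.single (-(i : ℤ)) 1 := by
  induction i with
  | zero => simp
  | succ n ih =>
    rw [pow_succ, ih, xx, HahnSeries.single_mul_single, mul_one]
    congr 2
    push_cast
    omega

theorem aC (r : k) : algebraMap k (LaurentSeries k) r = HahnSeries.single 0 r := by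
  rw [HahnSeries.algebraMap_apply', ← PowerSeries.C_eq_algebraMap, HahnSeries.ofPowerSeries_C,
    HahnSeries.C_apply]

theorem coeff_aeval (Q : k[X]) (j : ℕ) : (aeval (xx k) Q).coeff (-(j : ℤ)) = Q.coeff j := by
  induction Q using Polynomial.induction_on' with
  | add a b ha hb => rw [map_add, HahnSeries.coeff_add, ha, hb, coeff_add]
  | monomial i r =>
    rw [aeval_monomial, aC, xx_pow, HahnSeries.single_mul_single, HahnSeries.coeff_single,
      coeff_monomial, mul_one, zero_add]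
    by_cases h : i = j
    · rw [if_pos h, if_pos (by omega)]
    · rw [if_neg h, if_neg (by omega)]

theorem inj : Function.Injective (aeval (xx k) : k[X] →ₐ[k] LaurentSeries k) := by
  intro a b h
  ext j
  rw [← coeff_aeval, ← coeff_aeval, h]

/-- the polynomials in `x` of degree less than `d` -/
noncomputable def W (k : Type) [Field k] (d : ℕ) : AddSubgroup (LaurentSeries k) :=
  (degreeLT k d).toAddSubgroup.map (aeval (xx k) : k[X] →ₐ[k] LaurentSeries k).toRingHom.toAddMonoidHom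

theorem mem_W {d : ℕ} {z : LaurentSeries k} :
    z ∈ W k d ↔ ∃ P : k[X], P.degree < d ∧ aeval (xx k) P = z := by
  unfold W
  rw [AddSubgroup.mem_map]
  constructor
  · rintro ⟨P, h1, h2⟩
    exact ⟨P, mem_degreeLT.1 h1, h2⟩
  · rintro ⟨P, h1, h2⟩
    exact ⟨P, mem_degreeLT.2 h1, h2⟩

theorem mem_Px {z : LaurentSeries k} : z ∈ Px k ↔ ∃ P : k[X], aeval (xx k) P = z := Iff.rfl

end PxAM

open PxAM in
theorem aPxA (hW : WdAStmt) : PxAStmt := by
  intro k _ b hb hb0
  obtain ⟨f, hf, rfl⟩ := hb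
  have hf0 : f ≠ 0 := by
    rintro rfl
    exact hb0 (map_zero _)
  have hex : ∃ n, PowerSeries.coeff n f ≠ 0 := by
    by_contra h
    push Not at h
    exact hf0 (PowerSeries.ext fun n => by rw [h n, map_zero])
  classical
  obtain ⟨m, hm, hmin⟩ : ∃ m, PowerSeries.coeff m f ≠ 0 ∧ ∀ n < m, PowerSeries.coeff n f = 0 :=
    ⟨Nat.find hex, Nat.find_spec hex, fun n hn => by
      by_contra h
      exact Nat.find_min hex hn h⟩
  obtain ⟨g, hg⟩ : ∃ g : PowerSeries (LaurentSeries k),
      ∀ n, PowerSeries.coeff n g = PowerSeries.coeff (n + m) f :=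
    ⟨PowerSeries.mk fun n => PowerSeries.coeff (n + m) f, fun n => PowerSeries.coeff_mk _ _⟩
  have hfg : f = PowerSeries.X ^ m * g := by
    ext1 n
    rw [PowerSeries.coeff_X_pow_mul']
    split_ifs with h
    · rw [hg, Nat.sub_add_cancel h]
    · exact hmin n (not_le.1 h)
  have hgP : ∀ n, PowerSeries.coeff n g ∈ Px k := fun n => by rw [hg]; exact hf _
  obtain ⟨G, hG⟩ := mem_Px.1 (hgP 0)
  have hG0 : G ≠ 0 := by
    rintro rfl
    rw [map_zero, hg, zero_add] at hG
    exact hm hG.symm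
  obtain ⟨d, hd⟩ : ∃ d, d = G.natDegree := ⟨_, rfl⟩
  have hxd : ∀ n, PowerSeries.coeff n (PowerSeries.C (xx k ^ d)) ∈ Px k := by
    intro n
    rw [PowerSeries.coeff_C]
    split_ifs
    · exact mem_Px.2 ⟨X ^ d, by rw [map_pow, aeval_X]⟩
    · exact zero_mem _
  obtain ⟨q, r, hq, hr, hqr⟩ := hW (LaurentSeries k) (Px k) (W k d)
    (fun w hw => by
      obtain ⟨P, _, h⟩ := mem_W.1 hw
      exact mem_Px.2 ⟨P, h⟩) g hgP
    (fun z hz => by
      obtain ⟨Z, rfl⟩ := mem_Px.1 hz
      refine ⟨aeval (xx k) (Z / G), mem_Px.2 ⟨_, rfl⟩, aeval (xx k) (Z % G), mem_W.2 ⟨_, ?_, rfl⟩,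
        ?_⟩
      · rw [hd, ← degree_eq_natDegree hG0]
        exact EuclideanDomain.mod_lt Z hG0
      · rw [← PowerSeries.coeff_zero_eq_constantCoeff_apply, ← hG, ← map_mul, ← map_add,
          EuclideanDomain.div_add_mod])
    (PowerSeries.C (xx k ^ d)) hxd
  refine ⟨HahnSeries.ofPowerSeries ℤ _ q, ⟨q, hq, rfl⟩, PowerSeries.C (xx k ^ d) - r, d, m, ?_, ?_, ?_⟩
  · intro h
    obtain ⟨R, hR, hR'⟩ := mem_W.1 (hr 0)
    have h1 := congrArg (PowerSeries.coeff 0) h
    rw [map_sub, map_zero, PowerSeries.coeff_zero_C, ← hR', sub_eq_zero] at h1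
    have h2 : aeval (xx k) (X ^ d : k[X]) = aeval (xx k) R := by rw [map_pow, aeval_X, h1]
    have h3 := inj h2
    rw [← h3, degree_X_pow] at hR
    exact lt_irrefl _ hR
  · intro n
    obtain ⟨R, hR, hR'⟩ := mem_W.1 (hr n)
    have hRd : R.natDegree ≤ d := natDegree_le_of_degree_le hR.le
    refine ⟨(if n = 0 then X ^ d else 0) - R, ?_, ?_⟩
    · refine (natDegree_sub_le _ _).trans (max_le ?_ hRd)
      split_ifs
      · exact natDegree_X_pow_le d
      · simp
    · rw [map_sub, map_sub, hR', PowerSeries.coeff_C]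
      congr 1
      split_ifs
      · rw [map_pow, aeval_X]
      · exact map_zero _
  · rw [hqr, add_sub_cancel_right, hfg, map_mul, map_mul, map_pow, HahnSeries.ofPowerSeries_X,
      mul_assoc]

end MP7U
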