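import Pool.Agent.Lib.MP_7f581e_U.A.Spec1

/-!
# C41 (MP_7f581e_nt), Block A, RegA: `k((t))` is algebraically closed in `Λ((t))`
-/

set_option autoImplicit false

namespace MP7U

open Polynomial

namespace RegAM

variable {k Λ : Type} [Field k] [Field Λ]

theorem mapL_single (φ : k →+* Λ) (n : ℤ) (a : k) :
    mapL φ (HahnSeries.single n a) = HahnSeries.single n (φ a) := by
  ext m
  rw [mapL_coeff, HahnSeries.coeff_single, HahnSeries.coeff_single]
  split
  · rfl
  · exact map_zero φ

theorem mapL_C (φ : k →+* Λ) (a : k) :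
    mapL φ (HahnSeries.C a) = HahnSeries.C (φ a) := mapL_single φ 0 a

theorem mapL_of (φ : k →+* Λ) (p : PowerSeries k) :
    mapL φ (HahnSeries.ofPowerSeries ℤ k p) = HahnSeries.ofPowerSeries ℤ Λ (PowerSeries.map φ p) := by
  ext m
  rw [mapL_coeff, PowerSeries.coeff_coe, PowerSeries.coeff_coe]
  split
  · exact map_zero φ
  · rw [PowerSeries.coeff_map]

/-- Division by powers of `X`. -/
theorem red (φ : k →+* Λ) (g : PowerSeries Λ) :
    ∀ (n : ℕ) (P : (PowerSeries k)[X]), P ≠ 0 → ¬ PowerSeries.X ^ n ∣ P.leadingCoeff →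
      eval₂ (PowerSeries.map φ) g P = 0 →
      ∃ q : k[X], q ≠ 0 ∧ eval₂ φ (PowerSeries.constantCoeff g) q = 0 := by
  intro n
  induction n with
  | zero => intro P _ h; exact absurd (by simp) h
  | succ n ih =>
    intro P hP hn he
    by_cases h0 : P.map (PowerSeries.constantCoeff (R := k)) = 0
    · -- every coefficient is divisible by `X`
      have h1 : ∀ i, ∃ r : PowerSeries k, P.coeff i = PowerSeries.X * r := by
        intro i
        have h2 : PowerSeries.constantCoeff (P.coeff i) = 0 := by
          have := congrArg (fun Q => Polynomial.coeff Q i) h0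
          simpa [Polynomial.coeff_map] using this
        exact PowerSeries.X_dvd_iff.2 h2
      obtain ⟨Q, hQ⟩ : Polynomial.C PowerSeries.X ∣ P := by
        rw [Polynomial.C_dvd_iff_dvd_coeff]
        intro i
        obtain ⟨r, hr⟩ := h1 i
        exact ⟨r, hr⟩
      have hQ0 : Q ≠ 0 := by rintro rfl; exact hP (by rw [hQ, mul_zero])
      refine ih Q hQ0 ?_ ?_
      · rintro ⟨r, hr⟩
        apply hn
        rw [hQ, Polynomial.leadingCoeff_mul, Polynomial.leadingCoeff_C, hr]
        exact ⟨r, by ring⟩
      · rw [hQ, eval₂_mul, eval₂_C, PowerSeries.map_X] at he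
        exact (mul_eq_zero.1 he).resolve_left PowerSeries.X_ne_zero
    · refine ⟨_, h0, ?_⟩
      rw [eval₂_map]
      have h2 : φ.comp (PowerSeries.constantCoeff (R := k)) =
          (PowerSeries.constantCoeff (R := Λ)).comp (PowerSeries.map φ) := by
        apply RingHom.ext
        intro p
        change φ (PowerSeries.constantCoeff p) = PowerSeries.constantCoeff (PowerSeries.map φ p)
        rw [← PowerSeries.coeff_zero_eq_constantCoeff_apply,
          ← PowerSeries.coeff_zero_eq_constantCoeff_apply, PowerSeries.coeff_map]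
      rw [h2, ← Polynomial.hom_eval₂, he, map_zero]

theorem coeff_zero (φ : k →+* Λ) (hφ : ACl φ) (g : PowerSeries Λ)
    (h : ∃ f : (LaurentSeries k)[X], f ≠ 0 ∧
      eval₂ (mapL φ) (HahnSeries.ofPowerSeries ℤ Λ g) f = 0) :
    ∃ c : k, φ c = PowerSeries.constantCoeff g := by
  obtain ⟨f, hf, he⟩ := h
  obtain ⟨b, -, hb⟩ := IsLocalization.integerNormalization_spec
    (nonZeroDivisors (PowerSeries k)) f
  set P := IsLocalization.integerNormalization (nonZeroDivisors (PowerSeries k)) f with hPdef
  have hP : P ≠ 0 := by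
    intro h0
    exact hf (IsFractionRing.integerNormalization_eq_zero_iff.1 h0)
  have h1 : eval₂ (PowerSeries.map φ) g P = 0 := by
    have h2 : eval₂ ((mapL φ).comp (algebraMap (PowerSeries k) (LaurentSeries k)))
        (HahnSeries.ofPowerSeries ℤ Λ g) P = 0 := by
      rw [← eval₂_map, hb]
      have h3 : (b • f : (LaurentSeries k)[X]) =
          Polynomial.C (algebraMap (PowerSeries k) (LaurentSeries k) b) * f := by
        rw [← Polynomial.smul_eq_C_mul, algebraMap_smul]
      rw [h3, eval₂_mul, he, mul_zero]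
    have h4 : (mapL φ).comp (algebraMap (PowerSeries k) (LaurentSeries k)) =
        (HahnSeries.ofPowerSeries ℤ Λ).comp (PowerSeries.map φ) := by
      apply RingHom.ext
      intro p
      exact mapL_of φ p
    rw [h4, ← Polynomial.hom_eval₂] at h2
    exact HahnSeries.ofPowerSeries_injective (by rw [h2, map_zero])
  have hl : P.leadingCoeff ≠ 0 := Polynomial.leadingCoeff_ne_zero.2 hP
  obtain ⟨n, hn⟩ : ∃ n : ℕ, ¬ PowerSeries.X ^ n ∣ P.leadingCoeff := by
    by_contra hcon
    push Not at hcon
    apply hl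
    ext m
    rw [map_zero]
    exact PowerSeries.X_pow_dvd_iff.1 (hcon (m + 1)) m (Nat.lt_succ_self m)
  obtain ⟨q, hq, hq0⟩ := red φ g n P hP hn h1
  exact hφ _ ⟨q, hq, hq0⟩

end RegAM

open RegAM in
theorem aRegA : RegAStmt := by
  intro k Λ _ _ φ hφ z hz
  let _ : Algebra (LaurentSeries k) (LaurentSeries Λ) := (mapL φ).toAlgebra
  have key : ∀ w : LaurentSeries Λ, IsAlgebraic (LaurentSeries k) w ↔
      ∃ f : (LaurentSeries k)[X], f ≠ 0 ∧ eval₂ (mapL φ) w f = 0 := fun w => Iff.rfl
  have hmap : ∀ w : LaurentSeries k, IsAlgebraic (LaurentSeries k) (mapL φ w) :=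
    fun w => isAlgebraic_algebraMap (R := LaurentSeries k) (A := LaurentSeries Λ) w
  have hB : ∀ (n : ℕ) (g : PowerSeries Λ),
      IsAlgebraic (LaurentSeries k) (HahnSeries.ofPowerSeries ℤ Λ g) →
      ∃ c : k, φ c = PowerSeries.coeff n g := by
    intro n
    induction n with
    | zero =>
      intro g hg
      obtain ⟨c, hc⟩ := coeff_zero φ hφ g ((key _).1 hg)
      exact ⟨c, by rw [hc, PowerSeries.coeff_zero_eq_constantCoeff_apply]⟩
    | succ n ih =>
      intro g hg
      obtain ⟨c, hc⟩ := coeff_zero φ hφ g ((key _).1 hg)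
      have h1 := PowerSeries.eq_X_mul_shift_add_const g
      set g' : PowerSeries Λ := PowerSeries.mk fun p => PowerSeries.coeff (p + 1) g with hg'
      have h2 : HahnSeries.ofPowerSeries ℤ Λ g' =
          (HahnSeries.ofPowerSeries ℤ Λ g - mapL φ (HahnSeries.C c)) *
            mapL φ (HahnSeries.single (-1) 1) := by
        rw [mapL_C, mapL_single, hc, map_one]
        have h3 : HahnSeries.ofPowerSeries ℤ Λ g =
            HahnSeries.single 1 1 * HahnSeries.ofPowerSeries ℤ Λ g' +
              HahnSeries.C (PowerSeries.constantCoeff g) := by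
          conv_lhs => rw [h1]
          rw [map_add, map_mul, HahnSeries.ofPowerSeries_X, HahnSeries.ofPowerSeries_C]
        rw [h3, add_sub_cancel_right, mul_right_comm, HahnSeries.single_mul_single]
        simp
      have h4 : IsAlgebraic (LaurentSeries k) (HahnSeries.ofPowerSeries ℤ Λ g') := by
        rw [h2]
        exact (hg.sub (hmap _)).mul (hmap _)
      obtain ⟨d, hd⟩ := ih g' h4
      exact ⟨d, by rw [hd, hg', PowerSeries.coeff_mk]⟩
  have hz' : IsAlgebraic (LaurentSeries k) z := (key z).2 hz
  have h5 : HahnSeries.ofPowerSeries ℤ Λ z.powerSeriesPart =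
      mapL φ (HahnSeries.single (-z.order) 1) * z := by
    rw [mapL_single, map_one]
    exact LaurentSeries.ofPowerSeries_powerSeriesPart z
  have h6 : IsAlgebraic (LaurentSeries k) (HahnSeries.ofPowerSeries ℤ Λ z.powerSeriesPart) := by
    rw [h5]
    exact (hmap _).mul hz'
  choose c hc using fun n => hB n z.powerSeriesPart h6
  refine ⟨HahnSeries.single z.order 1 * HahnSeries.ofPowerSeries ℤ k (PowerSeries.mk c), ?_⟩
  have h7 : PowerSeries.map φ (PowerSeries.mk c) = z.powerSeriesPart := by
    ext n
    rw [PowerSeries.coeff_map, PowerSeries.coeff_mk, hc]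
  rw [map_mul, mapL_single, map_one, mapL_of, h7]
  exact LaurentSeries.single_order_mul_powerSeriesPart z

end MP7U
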