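import Pool.Agent.Lib.MP_7f581e_U.A.Spec1

set_option autoImplicit false

namespace MP7U

open Polynomial

namespace RegBM

private theorem ps {k : Type} [Field k] {p : PowerSeries k} (hp : p ≠ 0)
    (h0 : PowerSeries.constantCoeff p = 0) : ∀ (n : ℕ) (f : k[X]), f.natDegree ≤ n → f ≠ 0 →
    eval₂ (PowerSeries.C : k →+* PowerSeries k) p f ≠ 0 := by
  intro n
  induction n with
  | zero =>
    intro f hf hf0 h
    obtain ⟨c, rfl⟩ : ∃ c, f = C c := ⟨f.coeff 0, eq_C_of_natDegree_le_zero hf⟩
    rw [eval₂_C] at h
    have : c = 0 := by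
      have := congrArg PowerSeries.constantCoeff h
      simpa using this
    exact hf0 (by rw [this, C_0])
  | succ n ih =>
    intro f hf hf0 h
    have h1 : f.coeff 0 = 0 := by
      have h2 := congrArg PowerSeries.constantCoeff h
      rw [hom_eval₂, h0, map_zero] at h2
      have h3 : (PowerSeries.constantCoeff (R := k)).comp (PowerSeries.C : k →+* PowerSeries k)
          = RingHom.id k := by
        ext a; simp
      rw [h3] at h2
      rw [coeff_zero_eq_eval_zero]
      exact h2
    have h4 : f = X * divX f := by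
      have := X_mul_divX_add f
      rw [h1, C_0, add_zero] at this
      exact this.symm
    have hg0 : divX f ≠ 0 := by
      intro hg
      rw [hg, mul_zero] at h4
      exact hf0 h4
    have hg : (divX f).natDegree ≤ n := by
      rw [natDegree_divX_eq_natDegree_tsub_one]
      omega
    rw [h4, eval₂_mul, eval₂_X] at h
    rcases mul_eq_zero.1 h with h5 | h5
    · exact hp h5
    · exact ih _ hg hg0 h5

private theorem pos {k : Type} [Field k] {z : LaurentSeries k} (hz : z ≠ 0) (ho : 0 < z.order)
    {f : k[X]} (hf : f ≠ 0) : eval₂ (HahnSeries.C : k →+* LaurentSeries k) z f ≠ 0 := by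
  intro h
  obtain ⟨n, hn⟩ := Int.eq_ofNat_of_zero_le ho.le
  have hn0 : n ≠ 0 := by
    rintro rfl
    rw [hn] at ho
    exact lt_irrefl _ ho
  have e1 : z = HahnSeries.ofPowerSeries ℤ k (PowerSeries.X ^ n * z.powerSeriesPart) := by
    rw [map_mul, map_pow, HahnSeries.ofPowerSeries_X, HahnSeries.single_pow, one_pow]
    have := LaurentSeries.single_order_mul_powerSeriesPart z
    rw [hn] at this
    have e2 : n • (1 : ℤ) = (n : ℤ) := by simp
    rw [e2]
    exact this.symm
  set p := PowerSeries.X ^ n * z.powerSeriesPart with hp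
  have hp0 : p ≠ 0 := by
    intro h0
    rw [h0, map_zero] at e1
    exact hz e1
  have hc : PowerSeries.constantCoeff p = 0 := by
    rw [hp, map_mul, map_pow, PowerSeries.constantCoeff_X, zero_pow hn0, zero_mul]
  refine ps hp0 hc f.natDegree f le_rfl hf ?_
  apply HahnSeries.ofPowerSeries_injective (Γ := ℤ) (R := k)
  rw [map_zero, hom_eval₂, ← e1]
  have : (HahnSeries.ofPowerSeries ℤ k).comp (PowerSeries.C : k →+* PowerSeries k)
      = (HahnSeries.C : k →+* LaurentSeries k) := by
    ext a : 1
    exact HahnSeries.ofPowerSeries_C a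
  rw [this]
  exact h

private theorem ord {k : Type} [Field k] {z : LaurentSeries k} (hz : z ≠ 0)
    {f : k[X]} (hf : f ≠ 0) (h : eval₂ (HahnSeries.C : k →+* LaurentSeries k) z f = 0) :
    z.order = 0 := by
  rcases lt_trichotomy z.order 0 with ho | ho | ho
  · exfalso
    have hi : z⁻¹ ≠ 0 := inv_ne_zero hz
    have h1 : z.order + (z⁻¹).order = 0 := by
      rw [← HahnSeries.order_mul hz hi, mul_inv_cancel₀ hz, HahnSeries.order_one]
    have h2 : 0 < (z⁻¹).order := by omega
    letI : Invertible z := invertibleOfNonzero hz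
    have h3 := (eval₂_reverse_eq_zero_iff (HahnSeries.C : k →+* LaurentSeries k) z f).2 h
    rw [invOf_eq_inv] at h3
    exact pos hi h2 (by rwa [Ne, reverse_eq_zero]) h3
  · exact ho
  · exact absurd h (pos hz ho hf)

end RegBM

open RegBM in
theorem aRegB : RegBStmt := by
  rintro k _ z ⟨f, hf, h⟩
  refine ⟨z.coeff 0, ?_⟩
  by_contra hne
  have hy : z - HahnSeries.C (z.coeff 0) ≠ 0 := fun h0 => hne (sub_eq_zero.1 h0).symm
  have h1 := ord hy (f := f.comp (X + C (z.coeff 0)))
    (by
      intro h0
      apply hf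
      have := congrArg (fun g => g.comp (X - C (z.coeff 0))) h0
      simpa [comp_assoc] using this)
    (by
      rw [eval₂_comp]
      simpa using h)
  have h2 : (z - HahnSeries.C (z.coeff 0)).coeff 0 ≠ 0 := by
    have := HahnSeries.coeff_order_eq_zero.not.2 hy
    rwa [h1] at this
  apply h2
  rw [HahnSeries.coeff_sub, HahnSeries.C_apply, HahnSeries.coeff_single_same, sub_self]

end MP7U
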