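import Pool.Agent.Lib.MP_7f581e_U.A.Spec1

/-!
# C41, Block A, RgA: the range of `j`
-/

set_option autoImplicit false

namespace MP7U

open Polynomial

namespace RgAM

variable {k : Type} [Field k]

theorem mapL_single (n : ℤ) : mapL (HahnSeries.C : k →+* LaurentSeries k) (HahnSeries.single n 1) =
    HahnSeries.single n 1 := by
  refine HahnSeries.ext (funext fun m => ?_)
  rw [mapL_coeff, HahnSeries.coeff_single, HahnSeries.coeff_single]
  split
  · exact map_one _
  · exact map_zero _

theorem single_mem (A : Subring (LaurentSeries k)) (n : ℤ) :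
    (HahnSeries.single n 1 : LaurentSeries (LaurentSeries k)) ∈ FF A := by
  have h1 : ∀ m : ℕ, (HahnSeries.single (m : ℤ) 1 : LaurentSeries (LaurentSeries k)) ∈ FF A := by
    intro m
    have h2 : (HahnSeries.single (m : ℤ) 1 : LaurentSeries (LaurentSeries k)) =
        HahnSeries.single 1 1 ^ m := by
      rw [HahnSeries.single_pow, one_pow, nsmul_eq_mul, mul_one]
    rw [h2]
    exact pow_mem (PS_le_FF (t_mem_PS A)) m
  rcases Int.eq_nat_or_neg n with ⟨m, rfl | rfl⟩
  · exact h1 m
  · have h2 : (HahnSeries.single (-(m : ℤ)) 1 : LaurentSeries (LaurentSeries k)) =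
        (HahnSeries.single (m : ℤ) 1)⁻¹ := by
      apply eq_inv_of_mul_eq_one_left
      rw [HahnSeries.single_mul_single, neg_add_cancel, one_mul]
      rfl
    rw [h2]
    exact inv_mem (h1 m)

theorem mapL_ofPowerSeries (f : PowerSeries k) :
    mapL (HahnSeries.C : k →+* LaurentSeries k) (HahnSeries.ofPowerSeries ℤ k f) =
      HahnSeries.ofPowerSeries ℤ (LaurentSeries k)
        (PowerSeries.map (HahnSeries.C : k →+* LaurentSeries k) f) := by
  refine HahnSeries.ext (funext fun m => ?_)
  rw [mapL_coeff]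
  rcases lt_or_ge m 0 with hm | hm
  · have h1 : (HahnSeries.ofPowerSeries ℤ k f).coeff m = 0 := by
      rw [HahnSeries.ofPowerSeries_apply]
      apply HahnSeries.embDomain_of_notMem_range
      rintro ⟨n, hn⟩
      have : ((n : ℕ) : ℤ) = m := hn
      omega
    have h2 : (HahnSeries.ofPowerSeries ℤ (LaurentSeries k)
        (PowerSeries.map (HahnSeries.C : k →+* LaurentSeries k) f)).coeff m = 0 := by
      rw [HahnSeries.ofPowerSeries_apply]
      apply HahnSeries.embDomain_of_notMem_range
      rintro ⟨n, hn⟩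
      have : ((n : ℕ) : ℤ) = m := hn
      omega
    rw [h1, h2, map_zero]
  · obtain ⟨n, rfl⟩ := Int.eq_ofNat_of_zero_le hm
    rw [HahnSeries.ofPowerSeries_apply_coeff, HahnSeries.ofPowerSeries_apply_coeff,
      PowerSeries.coeff_map]

theorem main (A : Subring (LaurentSeries k)) (a : k)
    (j : RatFunc (LaurentSeries k) →+* LaurentSeries (LaurentSeries k)) (hj : IsJ a j)
    (hC : ∀ c : k, HahnSeries.C c ∈ A)
    (hX : (HahnSeries.C (HahnSeries.C a + ss k) : LaurentSeries (LaurentSeries k)) ∈ FF A)
    (w : RatFunc (LaurentSeries k)) : j w ∈ FF A := by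
  have h1 : ∀ c : LaurentSeries k, mapL (HahnSeries.C : k →+* LaurentSeries k) c ∈ FF A := by
    intro c
    rw [← LaurentSeries.single_order_mul_powerSeriesPart c, map_mul, mapL_single,
      mapL_ofPowerSeries]
    refine mul_mem (single_mem A _) (PS_le_FF ⟨_, fun n => ?_, rfl⟩)
    rw [PowerSeries.coeff_map]
    exact hC _
  have h2 : ∀ F : (LaurentSeries k)[X],
      j (algebraMap (LaurentSeries k)[X] (RatFunc (LaurentSeries k)) F) ∈ FF A := by
    intro F
    induction F using Polynomial.induction_on' with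
    | add p q hp hq => rw [map_add, map_add]; exact add_mem hp hq
    | monomial n c =>
      rw [← C_mul_X_pow_eq_monomial, map_mul, map_mul, map_pow, map_pow, RatFunc.algebraMap_X, hj.2]
      refine mul_mem ?_ (pow_mem hX n)
      have h3 : algebraMap (LaurentSeries k) (RatFunc (LaurentSeries k)) c =
          algebraMap (LaurentSeries k)[X] (RatFunc (LaurentSeries k)) (C c) := by
        rw [IsScalarTower.algebraMap_apply (LaurentSeries k) (LaurentSeries k)[X]
          (RatFunc (LaurentSeries k)) c]
        rfl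
      rw [← h3, hj.1]
      exact h1 c
  obtain ⟨p, q, -, rfl⟩ := IsFractionRing.div_surjective (A := (LaurentSeries k)[X]) w
  rw [map_div₀]
  exact div_mem (h2 p) (h2 q)

end RgAM

open RgAM in
theorem aRgA : RgAStmt := by
  intro k _ a j hj w
  constructor
  · have hCP : ∀ c : k, HahnSeries.C c ∈ Px k := by
      intro c
      refine ⟨C c, ?_⟩
      show aeval (xx k) (C c) = _
      rw [aeval_C, LaurentSeries.algebraMap_apply]
    refine main (Px k) a j hj hCP ?_ w
    rw [map_add]
    refine add_mem (PS_le_FF (C_mem_PS (hCP a))) ?_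
    have hx : (HahnSeries.C (xx k) : LaurentSeries (LaurentSeries k)) ∈ FF (Px k) := by
      refine PS_le_FF (C_mem_PS ⟨X, ?_⟩)
      show aeval (xx k) X = _
      rw [aeval_X]
    have h1 : (HahnSeries.C (ss k) : LaurentSeries (LaurentSeries k)) =
        (HahnSeries.C (xx k))⁻¹ := by
      apply eq_inv_of_mul_eq_one_left
      rw [← map_mul, ss_mul_xx, map_one]
    rw [h1]
    exact inv_mem hx
  · have hCO : ∀ c : k, HahnSeries.C c ∈ Os k := by
      intro c
      refine ⟨PowerSeries.C c, ?_⟩
      show HahnSeries.ofPowerSeries ℤ k (PowerSeries.C c) = _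
      rw [HahnSeries.ofPowerSeries_C]
    refine main (Os k) a j hj hCO ?_ w
    refine PS_le_FF (C_mem_PS (add_mem (hCO a) ⟨PowerSeries.X, ?_⟩))
    show HahnSeries.ofPowerSeries ℤ k PowerSeries.X = _
    rw [HahnSeries.ofPowerSeries_X]
    rfl

end MP7U
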