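import Pool.Agent.Lib.MP_7f581e_U.A.Spec1

set_option autoImplicit false

namespace MP7U

namespace SqAM

/-- the coefficients of the square root -/
private noncomputable def w {Λ : Type} [Field Λ] (h : Λ) (c : ℕ → Λ) : ℕ → Λ
  | 0 => 1
  | n + 1 => h * (c (n + 1) - ∑ i : Fin n, w h c (i + 1) * w h c (n - i))
  termination_by n => n
  decreasing_by all_goals omega

private theorem w_zero {Λ : Type} [Field Λ] (h : Λ) (c : ℕ → Λ) : w h c 0 = 1 := by
  rw [w]

private theorem w_succ {Λ : Type} [Field Λ] (h : Λ) (c : ℕ → Λ) (n : ℕ) :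
    w h c (n + 1) = h * (c (n + 1) - ∑ i : Fin n, w h c (i + 1) * w h c (n - i)) := by
  conv_lhs => rw [w]

private theorem w_mem {Λ : Type} [Field Λ] {A : Subring Λ} {h : Λ} (hh : h ∈ A) {c : ℕ → Λ}
    (hc : ∀ n, c n ∈ A) (n : ℕ) : w h c n ∈ A := by
  induction n using Nat.strong_induction_on with
  | _ n ih =>
    cases n with
    | zero => rw [w_zero]; exact A.one_mem
    | succ n =>
      rw [w_succ]
      refine mul_mem hh (sub_mem (hc _) (sum_mem fun i _ => mul_mem (ih _ ?_) (ih _ ?_)))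
      · omega
      · omega

private theorem w_sum {Λ : Type} [Field Λ] {h : Λ} (hh : 2 * h = 1) {c : ℕ → Λ} (hc : c 0 = 1)
    (n : ℕ) : ∑ p ∈ Finset.HasAntidiagonal.antidiagonal n, w h c p.1 * w h c p.2 = c n := by
  rw [Finset.Nat.sum_antidiagonal_eq_sum_range_succ (fun a b => w h c a * w h c b) n]
  cases n with
  | zero => simp [w_zero, hc]
  | succ n =>
    rw [Finset.sum_range_succ, Finset.sum_range_succ', Nat.sub_self, Nat.sub_zero, w_zero]
    simp only [one_mul, mul_one]
    have h1 : ∑ k ∈ Finset.range n, w h c (k + 1) * w h c (n + 1 - (k + 1)) =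
        ∑ i : Fin n, w h c (i + 1) * w h c (n - i) := by
      rw [Finset.sum_range]
      refine Finset.sum_congr rfl (fun i _ => ?_)
      rw [Nat.add_sub_add_right]
    rw [h1, w_succ]
    linear_combination (c (n + 1) - ∑ i : Fin n, w h c (i + 1) * w h c (n - i)) * hh

end SqAM

open SqAM in
theorem aSqA : SqAStmt := by
  rintro Λ _ A ⟨h, hh, h2⟩ c hc hc0
  let cn : ℕ → Λ := fun n => PowerSeries.coeff n c
  have c0 : cn 0 = 1 := by
    show PowerSeries.coeff 0 c = 1
    rw [PowerSeries.coeff_zero_eq_constantCoeff_apply, hc0]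
  refine ⟨PowerSeries.mk (w h cn), fun n => ?_, ?_⟩
  · rw [PowerSeries.coeff_mk]
    exact w_mem hh hc n
  · ext n
    rw [pow_two, PowerSeries.coeff_mul]
    simp only [PowerSeries.coeff_mk]
    exact w_sum h2 c0 n

end MP7U
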