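import Pool.Agent.Lib.MP_7f581e_U.A.Spec1

/-!
# C41 (MP_7f581e_nt), Block A, TrA: truncation of matrices
-/

set_option autoImplicit false

namespace MP7U

namespace TrAM

variable {Λ : Type} [Field Λ]

theorem ofX (n : ℕ) : HahnSeries.ofPowerSeries ℤ Λ (PowerSeries.X ^ n) =
    HahnSeries.single (n : ℤ) (1 : Λ) := by
  exact_mod_cast HahnSeries.ofPowerSeries_X_pow (Γ := ℤ) (R := Λ) n

/-- A Laurent series becomes a power series after multiplication by a large power of `t`. -/
theorem ex (z : LaurentSeries Λ) : ∃ n₀ : ℕ, ∀ q : ℕ, n₀ ≤ q → ∃ f : PowerSeries Λ,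
    HahnSeries.ofPowerSeries ℤ Λ f = (HahnSeries.single (q : ℤ) (1 : Λ) : LaurentSeries Λ) * z := by
  refine ⟨(-z.order).toNat, fun q hq => ?_⟩
  have h1 : 0 ≤ (q : ℤ) + z.order := by
    have := Int.self_le_toNat (-z.order)
    omega
  obtain ⟨m, hm⟩ := Int.eq_ofNat_of_zero_le h1
  refine ⟨PowerSeries.X ^ m * z.powerSeriesPart, ?_⟩
  conv_rhs => rw [← LaurentSeries.single_order_mul_powerSeriesPart z]
  rw [map_mul, ofX, ← mul_assoc, HahnSeries.single_mul_single, hm, one_mul]

theorem ex2 {ι : Type} [Fintype ι] (C : Matrix ι ι (LaurentSeries Λ)) : ∃ n₀ : ℕ,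
    ∀ q : ℕ, n₀ ≤ q → ∃ D : Matrix ι ι (PowerSeries Λ), D.map (HahnSeries.ofPowerSeries ℤ Λ) =
      (HahnSeries.single (q : ℤ) (1 : Λ) : LaurentSeries Λ) • C := by
  choose n hn using fun p : ι × ι => ex (C p.1 p.2)
  refine ⟨Finset.univ.sup n, fun q hq => ?_⟩
  choose f hf using fun p : ι × ι =>
    hn p q ((Finset.le_sup (f := n) (Finset.mem_univ p)).trans hq)
  refine ⟨fun i j => f (i, j), ?_⟩
  ext1 i j
  rw [Matrix.map_apply, Matrix.smul_apply, smul_eq_mul]
  exact hf (i, j)

theorem CFF {B : Subring Λ} (hB : ∀ z : Λ, ∃ a ∈ B, ∃ b ∈ B, b ≠ 0 ∧ z * b = a) (z : Λ) :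
    (HahnSeries.C z : LaurentSeries Λ) ∈ FF B := by
  obtain ⟨a, ha, b, hb, hb0, hab⟩ := hB z
  refine mem_FF.2 ⟨_, C_mem_PS ha, _, C_mem_PS hb, ?_, ?_⟩
  · intro h
    exact hb0 (HahnSeries.C_injective (by rw [h, map_zero]))
  · rw [← map_mul, hab]

theorem polFF {B : Subring Λ} (hB : ∀ z : Λ, ∃ a ∈ B, ∃ b ∈ B, b ≠ 0 ∧ z * b = a)
    (p : Polynomial Λ) : HahnSeries.ofPowerSeries ℤ Λ (p : PowerSeries Λ) ∈ FF B := by
  induction p using Polynomial.induction_on' with
  | add p q hp hq =>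
    rw [Polynomial.coe_add, map_add]
    exact add_mem hp hq
  | monomial n a =>
    have h1 : ((Polynomial.monomial n a : Polynomial Λ) : PowerSeries Λ) =
        PowerSeries.C a * PowerSeries.X ^ n := by
      rw [← Polynomial.C_mul_X_pow_eq_monomial]
      push_cast
      rfl
    rw [h1, map_mul, HahnSeries.ofPowerSeries_C, map_pow, HahnSeries.ofPowerSeries_X]
    exact mul_mem (CFF hB a) (pow_mem (PS_le_FF (t_mem_PS B)) n)

end TrAM

open TrAM in
theorem aTrA : TrAStmt := by
  intro Λ _ B hB ι _ _ C hC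
  have hinj : Function.Injective (HahnSeries.ofPowerSeries ℤ Λ) :=
    HahnSeries.ofPowerSeries_injective
  obtain ⟨n1, h1⟩ := ex2 C
  obtain ⟨n2, h2⟩ := ex2 C⁻¹
  set q := max n1 n2 with hq
  obtain ⟨C1, hC1⟩ := h1 q (le_max_left _ _)
  obtain ⟨C2, hC2⟩ := h2 q (le_max_right _ _)
  set u : LaurentSeries Λ := HahnSeries.single (q : ℤ) (1 : Λ) with hu
  -- the product
  have hprod : C1 * C2 = (PowerSeries.X ^ (2 * q) : PowerSeries Λ) • (1 : Matrix ι ι _) := by
    apply Matrix.map_injective hinj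
    dsimp only
    rw [Matrix.map_mul, hC1, hC2, Matrix.smul_mul, Matrix.mul_smul, Matrix.mul_nonsing_inv C hC,
      smul_smul]
    ext1 i j
    rw [Matrix.smul_apply, Matrix.map_apply, Matrix.smul_apply, smul_eq_mul, smul_eq_mul, map_mul,
      ofX, hu, HahnSeries.single_mul_single, mul_one]
    have e1 : ((q : ℤ) + q) = ((2 * q : ℕ) : ℤ) := by push_cast; ring
    rw [e1]
    congr 1
    rw [Matrix.one_apply, Matrix.one_apply]
    split_ifs
    · rw [map_one]
    · rw [map_zero]
  -- the truncation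
  set T : Matrix ι ι (PowerSeries Λ) := fun i j =>
    ((PowerSeries.trunc (2 * q + 1) (C2 i j) : Polynomial Λ) : PowerSeries Λ) with hT
  obtain ⟨C3, hC3⟩ : ∃ C3 : Matrix ι ι (PowerSeries Λ),
      C2 = T + (PowerSeries.X ^ (2 * q + 1) : PowerSeries Λ) • C3 := by
    have key : ∀ f : PowerSeries Λ, ∃ g : PowerSeries Λ,
        f = ((PowerSeries.trunc (2 * q + 1) f : Polynomial Λ) : PowerSeries Λ) +
          PowerSeries.X ^ (2 * q + 1) * g := by
      intro f
      have hdvd : (PowerSeries.X : PowerSeries Λ) ^ (2 * q + 1) ∣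
          f - ((PowerSeries.trunc (2 * q + 1) f : Polynomial Λ) : PowerSeries Λ) := by
        rw [PowerSeries.X_pow_dvd_iff]
        intro m hm
        rw [map_sub, Polynomial.coeff_coe, PowerSeries.coeff_trunc, if_pos hm, sub_self]
      obtain ⟨g, hg⟩ := hdvd
      exact ⟨g, by rw [← hg]; ring⟩
    choose g hg using fun p : ι × ι => key (C2 p.1 p.2)
    refine ⟨fun i j => g (i, j), ?_⟩
    ext1 i j
    rw [Matrix.add_apply, Matrix.smul_apply, smul_eq_mul]
    exact hg (i, j)
  set M : Matrix ι ι (PowerSeries Λ) := 1 - (PowerSeries.X : PowerSeries Λ) • (C1 * C3) with hM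
  have hCT : C1 * T = (PowerSeries.X ^ (2 * q) : PowerSeries Λ) • M := by
    have h3 : T = C2 - (PowerSeries.X ^ (2 * q + 1) : PowerSeries Λ) • C3 := by
      rw [eq_sub_iff_add_eq]; exact hC3.symm
    rw [h3, mul_sub, hprod, Matrix.mul_smul, hM, smul_sub, smul_smul, ← pow_succ]
  have hMc : ∀ i j, PowerSeries.constantCoeff (M i j) = (1 : Matrix ι ι Λ) i j := by
    intro i j
    rw [hM, Matrix.sub_apply, Matrix.smul_apply, smul_eq_mul, map_sub, map_mul,
      PowerSeries.constantCoeff_X, zero_mul, sub_zero, Matrix.one_apply, Matrix.one_apply]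
    split_ifs
    · rw [map_one]
    · rw [map_zero]
  have hCM : C * T.map (HahnSeries.ofPowerSeries ℤ Λ) =
      (HahnSeries.single (q : ℤ) (1 : Λ) : LaurentSeries Λ) •
        M.map (HahnSeries.ofPowerSeries ℤ Λ) := by
    have h4 : u • (C * T.map (HahnSeries.ofPowerSeries ℤ Λ)) =
        u • (u • M.map (HahnSeries.ofPowerSeries ℤ Λ)) := by
      rw [← Matrix.smul_mul, ← hC1, ← Matrix.map_mul, hCT]
      ext1 i j
      rw [Matrix.map_apply, Matrix.smul_apply, Matrix.smul_apply, Matrix.smul_apply,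
        Matrix.map_apply, smul_eq_mul, smul_eq_mul, smul_eq_mul, map_mul, ofX, ← mul_assoc, hu,
        HahnSeries.single_mul_single, mul_one]
      have e1 : ((q : ℤ) + q) = ((2 * q : ℕ) : ℤ) := by push_cast; ring
      rw [e1]
    have hu0 : u ≠ 0 := by
      rw [hu]
      exact HahnSeries.single_ne_zero one_ne_zero
    exact smul_right_injective _ hu0 h4
  refine ⟨T.map (HahnSeries.ofPowerSeries ℤ Λ), fun i j => ?_, ?_, q, M, hMc, hCM⟩
  · rw [Matrix.map_apply]
    exact polFF hB _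
  · have h5 : M.det ≠ 0 := by
      intro h
      have h6 : PowerSeries.constantCoeff M.det = (1 : Λ) := by
        rw [RingHom.map_det]
        have : (PowerSeries.constantCoeff (R := Λ)).mapMatrix M = 1 := by
          ext1 i j
          exact hMc i j
        rw [this, Matrix.det_one]
      rw [h, map_zero] at h6
      exact zero_ne_one h6
    have h7 : (C * T.map (HahnSeries.ofPowerSeries ℤ Λ)).det ≠ 0 := by
      rw [hCM, Matrix.det_smul]
      refine mul_ne_zero (pow_ne_zero _ (HahnSeries.single_ne_zero one_ne_zero)) ?_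
      have h8 : (M.map (HahnSeries.ofPowerSeries ℤ Λ)).det =
          HahnSeries.ofPowerSeries ℤ Λ M.det := by
        rw [RingHom.map_det]; rfl
      rw [h8]
      intro h9
      exact h5 (hinj (by rw [h9, map_zero]))
    rw [Matrix.det_mul] at h7
    exact isUnit_iff_ne_zero.2 (right_ne_zero_of_mul h7)

end MP7U
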