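import Pool.Agent.Lib.MP_7f581e_U.A.Spec1

/-!
# C41, Block A, WdA: division with remainder for power series
-/

set_option autoImplicit false

namespace MP7U

namespace WdAM

/-- The coefficients of the quotient. -/
noncomputable def qs {Λ : Type} [Field Λ] (f : Λ → Λ) (a b : ℕ → Λ) : ℕ → Λ
  | n => f (a n - ∑ i : Fin n, qs f a b i * b (n - i))
termination_by n => n
decreasing_by exact i.2

theorem qs_eq {Λ : Type} [Field Λ] (f : Λ → Λ) (a b : ℕ → Λ) (n : ℕ) :
    qs f a b n = f (a n - ∑ i ∈ Finset.range n, qs f a b i * b (n - i)) := by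
  rw [qs, Finset.sum_range]

end WdAM

open WdAM in
theorem aWdA : WdAStmt := by
  intro Λ _ R W hW b hb hdiv a ha
  have hdiv' : ∀ z, ∃ q w, z ∈ R → (q ∈ R ∧ w ∈ W ∧ z = PowerSeries.constantCoeff b * q + w) := by
    intro z
    by_cases hz : z ∈ R
    · obtain ⟨q, hq, w, hw, h⟩ := hdiv z hz
      exact ⟨q, w, fun _ => ⟨hq, hw, h⟩⟩
    · exact ⟨0, 0, fun h => absurd h hz⟩
  choose f g hfg using hdiv'
  set A : ℕ → Λ := fun n => PowerSeries.coeff n a with hA
  set B : ℕ → Λ := fun n => PowerSeries.coeff n b with hB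
  set q : ℕ → Λ := qs f A B with hq
  set z : ℕ → Λ := fun n => A n - ∑ i ∈ Finset.range n, q i * B (n - i) with hz
  have hqz : ∀ n, q n = f (z n) := fun n => qs_eq f A B n
  have hqR : ∀ n, q n ∈ R ∧ z n ∈ R := by
    intro n
    induction n using Nat.strong_induction_on with
    | _ n ih =>
      have h1 : z n ∈ R := by
        refine sub_mem (ha n) (sum_mem fun i hi => mul_mem (ih i (Finset.mem_range.mp hi)).1 (hb _))
      exact ⟨by rw [hqz]; exact (hfg _ h1).1, h1⟩
  refine ⟨PowerSeries.mk q, PowerSeries.mk fun n => g (z n), ?_, ?_, ?_⟩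
  · intro n
    rw [PowerSeries.coeff_mk]
    exact (hqR n).1
  · intro n
    rw [PowerSeries.coeff_mk]
    exact (hfg _ (hqR n).2).2.1
  · ext n
    rw [map_add, PowerSeries.coeff_mk, mul_comm, PowerSeries.coeff_mul,
      Finset.Nat.sum_antidiagonal_eq_sum_range_succ_mk, Finset.sum_range_succ]
    simp only [PowerSeries.coeff_mk, Nat.sub_self]
    have h1 := (hfg _ (hqR n).2).2.2
    rw [← hqz n] at h1
    have h2 : PowerSeries.coeff 0 b = PowerSeries.constantCoeff b := by simp
    have h3 : z n = PowerSeries.coeff n a - ∑ i ∈ Finset.range n, q i * PowerSeries.coeff (n - i) b :=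
      rfl
    rw [h2]
    linear_combination h1 - h3

end MP7U
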