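import Pool.Agent.Lib.MP_7f581e_U.A.Spec1

/-!
# C41 (MP_7f581e_nt), U/A/WnA: `1 + x t` is not a square in `k((t))(x)`
-/

set_option autoImplicit false

namespace MP7U

open Polynomial

namespace WnAM

theorem mapL_single {A B : Type} [CommRing A] [CommRing B] (φ : A →+* B) (n : ℤ) (c : A) :
    mapL φ (HahnSeries.single n c) = HahnSeries.single n (φ c) := by
  ext m
  rw [mapL_coeff]
  by_cases h : m = n
  · rw [h, HahnSeries.coeff_single_same, HahnSeries.coeff_single_same]
  · rw [HahnSeries.coeff_single_of_ne h, HahnSeries.coeff_single_of_ne h, map_zero]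

/-- `(X - c) (X - c + T)` is not a square, `T ≠ 0`. -/
theorem nsq {F : Type} [Field F] (c T : F) (hT : T ≠ 0) (R : F[X]) :
    R ^ 2 ≠ (X - C c) * (X - C c + C T) := by
  intro h
  have h1 : R.eval c = 0 := by
    have h2 := congrArg (Polynomial.eval c) h
    simp only [eval_pow, eval_mul, eval_sub, eval_X, eval_C, eval_add, sub_self, zero_mul] at h2
    exact pow_eq_zero_iff (two_ne_zero) |>.1 h2
  obtain ⟨Q, hQ⟩ := dvd_iff_isRoot.2 h1
  have h3 : (X - C c) * ((X - C c) * Q ^ 2) = (X - C c) * (X - C c + C T) := by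
    rw [← h, hQ]
    ring
  have h4 := mul_left_cancel₀ (X_sub_C_ne_zero c) h3
  have h5 := congrArg (Polynomial.eval c) h4
  simp only [eval_mul, eval_sub, eval_X, eval_C, eval_add, sub_self, zero_mul, zero_add] at h5
  exact hT h5.symm

theorem core {F Ω : Type} [Field F] [Field Ω] (j : RatFunc F →+* Ω) (c T : F) (hT : T ≠ 0)
    (S Y t : Ω) (hu : j (RatFunc.X - algebraMap F (RatFunc F) c) = S)
    (ht : j (algebraMap F (RatFunc F) T) = t) (hS : S * Y = 1) (r : RatFunc F) :
    j r ^ 2 ≠ 1 + Y * t := by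
  intro hr
  have h1 : (r * (RatFunc.X - algebraMap F (RatFunc F) c)) ^ 2 =
      (RatFunc.X - algebraMap F (RatFunc F) c) *
        ((RatFunc.X - algebraMap F (RatFunc F) c) + algebraMap F (RatFunc F) T) := by
    apply j.injective
    rw [map_pow, map_mul, map_mul, map_add, hu, ht, mul_pow, hr]
    have h2 : (1 + Y * t) * S ^ 2 = S * (S + (S * Y) * t) := by ring
    rw [h2, hS, one_mul]
  have h2 : (RatFunc.X - algebraMap F (RatFunc F) c) *
        ((RatFunc.X - algebraMap F (RatFunc F) c) + algebraMap F (RatFunc F) T) =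
      algebraMap F[X] (RatFunc F) ((X - C c) * (X - C c + C T)) := by
    rw [map_mul, map_add, map_sub, RatFunc.algebraMap_X, RatFunc.algebraMap_C,
      RatFunc.algebraMap_C]
    rfl
  have h3 : IsIntegral F[X] ((r * (RatFunc.X - algebraMap F (RatFunc F) c)) ^ 2) := by
    rw [h1, h2]
    exact isIntegral_algebraMap
  obtain ⟨R, hR⟩ := IsIntegrallyClosed.exists_algebraMap_eq_of_isIntegral_pow
    (R := F[X]) (K := RatFunc F) (n := 2) two_pos h3
  refine nsq c T hT R ?_
  apply RatFunc.algebraMap_injective F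
  rw [map_pow, hR, h1, h2]

end WnAM

open WnAM in
theorem aWnA : WnAStmt := by
  intro k _ a j hj r
  obtain ⟨hj1, hj2⟩ := hj
  have hT0 : (HahnSeries.single 1 1 : LaurentSeries k) ≠ 0 := by
    rw [Ne, HahnSeries.single_eq_zero_iff]
    exact one_ne_zero
  refine core j (HahnSeries.C a) (HahnSeries.single 1 1) hT0 (HahnSeries.C (ss k)) _ _ ?_ ?_ ?_ r
  · have hc : j (algebraMap (LaurentSeries k) (RatFunc (LaurentSeries k)) (HahnSeries.C a)) =
        HahnSeries.C (HahnSeries.C a) := by
      rw [hj1]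
      exact mapL_single _ 0 a
    rw [map_sub, hj2, hc, ← map_sub, add_sub_cancel_left]
  · rw [hj1, mapL_single, map_one]
  · rw [← map_mul, ss_mul_xx, map_one]

end MP7U
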