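import Pool.Agent.Lib.MP_7f581e_U.A.DecA
import Pool.Agent.Lib.MP_7f581e_U.A.FacA
import Pool.Agent.Lib.MP_7f581e_U.A.TrA
import Pool.Agent.Lib.MP_7f581e_U.A.FcA
import Pool.Agent.Lib.MP_7f581e_U.A.WdA
import Pool.Agent.Lib.MP_7f581e_U.A.PxA
import Pool.Agent.Lib.MP_7f581e_U.A.OsA
import Pool.Agent.Lib.MP_7f581e_U.A.JeA
import Pool.Agent.Lib.MP_7f581e_U.A.EmA
import Pool.Agent.Lib.MP_7f581e_U.A.RgA
import Pool.Agent.Lib.MP_7f581e_U.A.InA
import Pool.Agent.Lib.MP_7f581e_U.A.IndF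
import Pool.Agent.Lib.MP_7f581e_U.A.IntF
import Pool.Agent.Lib.MP_7f581e_U.A.FldF
import Pool.Agent.Lib.MP_7f581e_U.A.PatF
import Pool.Agent.Lib.MP_7f581e_U.A.HtA
import Pool.Agent.Lib.MP_7f581e_U.A.RegA
import Pool.Agent.Lib.MP_7f581e_U.A.RegB
import Pool.Agent.Lib.MP_7f581e_U.A.Fm1
import Pool.Agent.Lib.MP_7f581e_U.A.Fm2
import Pool.Agent.Lib.MP_7f581e_U.A.SqA
import Pool.Agent.Lib.MP_7f581e_U.A.WnA
import Pool.Agent.Lib.MP_7f581e_U.A.PatA

/-!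
# C41 (MP_7f581e_nt), Block A, assembly
-/

set_option autoImplicit false

namespace MP7U

theorem xDecA : DecAStmt := aDecA

theorem xFacA : FacAStmt := aFacA

theorem xTrA : TrAStmt := aTrA

theorem xFcA : FcAStmt := aFcA xDecA xFacA xTrA

theorem xWdA : WdAStmt := aWdA

theorem xPxA : PxAStmt := aPxA xWdA

theorem xOsA : OsAStmt := aOsA xWdA

theorem xJeA : JeAStmt := aJeA

theorem xEmA : EmAStmt := aEmA

theorem xRgA : RgAStmt := aRgA

theorem xInA : InAStmt := aInA xPxA xOsA xEmA xRgA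

theorem xIndF : IndFStmt := aIndF

theorem xIntF : IntFStmt := aIntF

theorem xFldF : FldFStmt := aFldF

theorem xPatF : PatFStmt := aPatF xIndF xIntF xFldF

theorem xHtA : HtAStmt := aHtA

theorem xRegA : RegAStmt := aRegA

theorem xRegB : RegBStmt := aRegB

theorem xFm1 : Fm1Stmt := aFm1

theorem xFm2 : Fm2Stmt := aFm2

theorem xSqA : SqAStmt := aSqA

theorem xWnA : WnAStmt := aWnA

theorem xPatA : PatAStmt := aPatA xFcA xJeA xInA xRgA xPatF xHtA xRegA xRegB xFm1 xFm2 xSqA xWnA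

end MP7U
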