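import Pool.Agent.Lib.MP_7f581e_U.A.Spec1

/-!
# C41 (MP_7f581e_nt), Block A: `k((s)) = k[x] + k⟦s⟧` is the field of fractions of `k⟦s⟧`
-/

set_option autoImplicit false

namespace MP7U

open Polynomial

namespace DecAM

variable {k : Type} [Field k]

private theorem memOs (b : LaurentSeries k) (h : ∀ n : ℤ, n < 0 → b.coeff n = 0) : b ∈ Os k := by
  refine ⟨PowerSeries.mk (fun n => b.coeff (n : ℤ)), ?_⟩
  ext n
  by_cases hn : n < 0
  · rw [h n hn, HahnSeries.ofPowerSeries_apply]
    apply HahnSeries.embDomain_of_notMem_range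
    rintro ⟨m, hm⟩
    simp at hm
    omega
  · obtain ⟨m, rfl⟩ := Int.eq_ofNat_of_zero_le (not_lt.1 hn)
    rw [HahnSeries.ofPowerSeries_apply_coeff, PowerSeries.coeff_mk]

private theorem bnd (z : LaurentSeries k) : ∃ m : ℕ, ∀ n : ℤ, n < -(m : ℤ) → z.coeff n = 0 := by
  refine ⟨z.order.natAbs, fun n hn => HahnSeries.coeff_eq_zero_of_lt_order ?_⟩
  omega

private theorem xpow (i : ℕ) : xx k ^ i = HahnSeries.single (-(i : ℤ)) 1 := by
  rw [xx, HahnSeries.single_pow, one_pow]
  congr 1
  simp

end DecAM

open DecAM in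
theorem aDecA : DecAStmt := by
  intro k _ z
  obtain ⟨m, hm⟩ := bnd z
  constructor
  · refine ⟨aeval (xx k) (∑ i ∈ Finset.range (m + 1), C (z.coeff (-(i : ℤ))) * X ^ i), ⟨_, rfl⟩,
      z - aeval (xx k) (∑ i ∈ Finset.range (m + 1), C (z.coeff (-(i : ℤ))) * X ^ i), ?_, by ring⟩
    apply memOs
    intro n hn
    have h1 : (aeval (xx k) (∑ i ∈ Finset.range (m + 1), C (z.coeff (-(i : ℤ))) * X ^ i)).coeff n
        = z.coeff n := by
      rw [map_sum]
      have h2 : ∀ i ∈ Finset.range (m + 1), aeval (xx k) (C (z.coeff (-(i : ℤ))) * X ^ i : k[X]) =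
          HahnSeries.single (-(i : ℤ)) (z.coeff (-(i : ℤ))) := by
        intro i _
        rw [map_mul, map_pow, aeval_C, aeval_X, xpow, HahnSeries.algebraMap_apply']
        simp
      rw [Finset.sum_congr rfl h2]
      rw [HahnSeries.coeff_sum]
      by_cases hnm : n < -(m : ℤ)
      · rw [hm n hnm]
        apply Finset.sum_eq_zero
        intro i hi
        rw [Finset.mem_range] at hi
        apply HahnSeries.coeff_single_of_ne
        omega
      · rw [Finset.sum_eq_single n.natAbs]
        · have h3 : -((n.natAbs : ℕ) : ℤ) = n := by omega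
          rw [h3, HahnSeries.coeff_single_same]
        · intro i _ hi
          apply HahnSeries.coeff_single_of_ne
          omega
        · intro h
          rw [Finset.mem_range] at h
          omega
    rw [HahnSeries.coeff_sub, h1, sub_self]
  · refine ⟨z * HahnSeries.single (m : ℤ) 1, ?_, HahnSeries.single (m : ℤ) 1, ?_, ?_, rfl⟩
    · apply memOs
      intro n hn
      have h1 := HahnSeries.coeff_mul_single_add (x := z) (a := n - m) (b := (m : ℤ)) (r := (1 : k))
      rw [sub_add_cancel] at h1
      rw [h1, hm _ (by omega), zero_mul]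
    · apply memOs
      intro n hn
      apply HahnSeries.coeff_single_of_ne
      omega
    · intro h
      have := HahnSeries.single_eq_zero_iff.1 h
      exact one_ne_zero this

end MP7U
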