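import Mathlib

/-!
# C41 (MP_7f581e_nt), Block A: formal patching, definitions

`Λ` is a field (later `Λ = k((s))`), `Ω = Λ((t))`.  For a subring `A` of `Λ` let `PS A` be the ring
of the power series in `t` with coefficients in `A` (as a subring of `Ω`), and `FF A` its field of
fractions (as a subfield of `Ω`).
-/

set_option autoImplicit false

namespace MP7U

open Polynomial

section

variable {A B : Type} [CommRing A] [CommRing B]

/-- The coefficientwise map `A((t)) → B((t))`. -/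
noncomputable def mapL (φ : A →+* B) : LaurentSeries A →+* LaurentSeries B where
  toFun z := HahnSeries.map z φ
  map_one' := HahnSeries.map_one φ.toMonoidWithZeroHom
  map_mul' x y := HahnSeries.map_mul φ.toNonUnitalRingHom
  map_zero' := HahnSeries.map_zero (φ.toAddMonoidHom : ZeroHom A B)
  map_add' x y := HahnSeries.map_add φ.toAddMonoidHom

@[simp] theorem mapL_coeff (φ : A →+* B) (z : LaurentSeries A) (n : ℤ) :
    (mapL φ z).coeff n = φ (z.coeff n) := rfl

end

section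

variable {Λ : Type} [Field Λ]

/-- The power series with coefficients in `A`, as a subring of `Ω = Λ((t))`. -/
noncomputable def PS (A : Subring Λ) : Subring (LaurentSeries Λ) where
  carrier := {z | ∃ f : PowerSeries Λ, (∀ n, PowerSeries.coeff n f ∈ A) ∧
    HahnSeries.ofPowerSeries ℤ Λ f = z}
  one_mem' := ⟨1, fun n => by
    rw [PowerSeries.coeff_one]; split
    · exact one_mem A
    · exact zero_mem A, map_one _⟩
  zero_mem' := ⟨0, fun n => by rw [map_zero]; exact zero_mem A, map_zero _⟩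
  add_mem' := by
    rintro _ _ ⟨f, hf, rfl⟩ ⟨g, hg, rfl⟩
    exact ⟨f + g, fun n => by rw [map_add]; exact add_mem (hf n) (hg n), map_add _ _ _⟩
  mul_mem' := by
    rintro _ _ ⟨f, hf, rfl⟩ ⟨g, hg, rfl⟩
    refine ⟨f * g, fun n => ?_, map_mul _ _ _⟩
    rw [PowerSeries.coeff_mul]
    exact sum_mem fun i _ => mul_mem (hf _) (hg _)
  neg_mem' := by
    rintro _ ⟨f, hf, rfl⟩
    exact ⟨-f, fun n => by rw [map_neg]; exact neg_mem (hf n), map_neg _ _⟩

theorem mem_PS {A : Subring Λ} {z : LaurentSeries Λ} : z ∈ PS A ↔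
    ∃ f : PowerSeries Λ, (∀ n, PowerSeries.coeff n f ∈ A) ∧ HahnSeries.ofPowerSeries ℤ Λ f = z :=
  Iff.rfl

/-- The field of fractions of `PS A` in `Ω`. -/
noncomputable def FF (A : Subring Λ) : Subfield (LaurentSeries Λ) :=
  Subfield.closure (PS A : Set (LaurentSeries Λ))

theorem mem_FF {A : Subring Λ} {z : LaurentSeries Λ} :
    z ∈ FF A ↔ ∃ a ∈ PS A, ∃ b ∈ PS A, b ≠ 0 ∧ z * b = a := by
  constructor
  · intro h
    obtain ⟨a, ha, b, hb, hab⟩ := Subfield.mem_closure_iff.1 h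
    rw [Subring.closure_eq] at ha hb
    by_cases hb0 : b = 0
    · refine ⟨0, zero_mem _, 1, one_mem _, one_ne_zero, ?_⟩
      rw [← hab, hb0, div_zero, zero_mul]
    · exact ⟨a, ha, b, hb, hb0, by rw [← hab, div_mul_cancel₀ _ hb0]⟩
  · rintro ⟨a, ha, b, hb, hb0, hab⟩
    have h1 : z = a / b := by rw [← hab, mul_div_cancel_right₀ _ hb0]
    rw [h1]
    exact div_mem (Subfield.subset_closure ha) (Subfield.subset_closure hb)

theorem PS_le_FF {A : Subring Λ} {z : LaurentSeries Λ} (h : z ∈ PS A) : z ∈ FF A :=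
  Subfield.subset_closure h

/-- Constants from `A` are in `PS A`. -/
theorem C_mem_PS {A : Subring Λ} {a : Λ} (h : a ∈ A) : (HahnSeries.C a : LaurentSeries Λ) ∈ PS A :=
  ⟨PowerSeries.C a, fun n => by
    rw [PowerSeries.coeff_C]; split
    · exact h
    · exact zero_mem A, by rw [HahnSeries.ofPowerSeries_C]⟩

/-- `t` is in `PS A`. -/
theorem t_mem_PS (A : Subring Λ) : (HahnSeries.single 1 1 : LaurentSeries Λ) ∈ PS A :=
  ⟨PowerSeries.X, fun n => by
    rw [PowerSeries.coeff_X]; split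
    · exact one_mem A
    · exact zero_mem A, by rw [HahnSeries.ofPowerSeries_X]⟩

end

section

variable (k : Type) [Field k]

/-- `x = s⁻¹ ∈ k((s))`. -/
noncomputable def xx : LaurentSeries k := HahnSeries.single (-1) 1

/-- `s ∈ k((s))`. -/
noncomputable def ss : LaurentSeries k := HahnSeries.single 1 1

theorem ss_mul_xx : ss k * xx k = 1 := by
  rw [ss, xx, HahnSeries.single_mul_single]; simp

/-- The subring `k[x]` of `k((s))`. -/
noncomputable def Px : Subring (LaurentSeries k) := (aeval (xx k) : k[X] →ₐ[k] LaurentSeries k).toRingHom.range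

/-- The subring `k⟦s⟧` of `k((s))`. -/
noncomputable def Os : Subring (LaurentSeries k) := (HahnSeries.ofPowerSeries ℤ k).range

end

/-- Every invertible matrix over `Ω` is a product of matrices over `P₁` and `P₂`. -/
def FacProp {Ω : Type} [Field Ω] (P₁ P₂ : Subfield Ω) : Prop :=
  ∀ (ι : Type) [Fintype ι] [DecidableEq ι] (C : Matrix ι ι Ω), IsUnit C.det →
    ∃ C₁ C₂ : Matrix ι ι Ω, (∀ i j, C₁ i j ∈ P₁) ∧ (∀ i j, C₂ i j ∈ P₂) ∧ C = C₁ * C₂

/-- `N` is a `P`-form of `Ω^ι`: it is the `P`-span of a basis of `Ω^ι`. -/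
def IsFm {Ω : Type} [Field Ω] (P : Subfield Ω) {ι : Type} [Fintype ι] [DecidableEq ι]
    (N : Set (ι → Ω)) : Prop :=
  ∃ C : Matrix ι ι Ω, IsUnit C.det ∧
    N = {v | ∃ q : ι → Ω, (∀ i, q i ∈ P) ∧ v = C.mulVec q}

/-- The functions `Γ → Ω` whose restrictions to the cosets of `H` are in `Q`. -/
def ind {Ω : Type} {Γ : Type} [Group Γ] (H : Subgroup Γ) (Q : Set (H → Ω)) : Set (Γ → Ω) :=
  {φ | ∀ θ, (fun h : H => φ ((h : Γ) * θ)) ∈ Q}

/-- A patch: a `P`-form of `Ω^H` which is a ring, stable under translations, such that the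
evaluation at `1` is injective. -/
structure IsPt {Ω : Type} [Field Ω] (P : Subfield Ω) {Γ : Type} [Group Γ] (H : Subgroup Γ)
    [Fintype H] [DecidableEq H] (Q : Set (H → Ω)) : Prop where
  fm : IsFm P Q
  one : (1 : H → Ω) ∈ Q
  mul : ∀ q ∈ Q, ∀ q' ∈ Q, q * q' ∈ Q
  tr : ∀ q ∈ Q, ∀ h₀ : H, (fun h => q (h * h₀)) ∈ Q
  inj : ∀ q ∈ Q, q 1 = 0 → q = 0

/-- The finite group `Γ` is a Galois group over `k(X)`, regularly over `k`, by an extension `L`
which contains an element `y` with `y² = X^e` on which `σ ∈ Γ` acts as `ε(σ) = ±1`. -/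
def HH (k : Type) [Field k] (Γ : Type) [Group Γ] (ε : Γ →* ℤˣ) (e : ℕ) : Prop :=
  ∃ (L : Type) (_ : Field L) (_ : Algebra (RatFunc k) L) (act : Γ →* (L ≃ₐ[RatFunc k] L)) (y : L),
    FiniteDimensional (RatFunc k) L ∧ IsGalois (RatFunc k) L ∧ Function.Bijective act ∧
    y ^ 2 = algebraMap (RatFunc k) L (RatFunc.X ^ e) ∧
    (∀ σ, act σ y = (((ε σ : ℤˣ) : ℤ) : L) * y) ∧
    ∀ x : L, (∃ f : k[X], f ≠ 0 ∧
      eval₂ ((algebraMap (RatFunc k) L).comp (algebraMap k (RatFunc k))) x f = 0) →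
        ∃ c : k, algebraMap (RatFunc k) L (algebraMap k (RatFunc k) c) = x

/-- `HH` with an embedding `L → k((s))`, `X ↦ a + s`. -/
def HHs (k : Type) [Field k] (Γ : Type) [Group Γ] (ε : Γ →* ℤˣ) (e : ℕ) : Prop :=
  ∃ (L : Type) (_ : Field L) (_ : Algebra (RatFunc k) L) (act : Γ →* (L ≃ₐ[RatFunc k] L)) (y : L),
    FiniteDimensional (RatFunc k) L ∧ IsGalois (RatFunc k) L ∧ Function.Bijective act ∧
    y ^ 2 = algebraMap (RatFunc k) L (RatFunc.X ^ e) ∧
    (∀ σ, act σ y = (((ε σ : ℤˣ) : ℤ) : L) * y) ∧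
    ∃ (a : k) (φ : L →+* LaurentSeries k),
      (∀ c : k, φ (algebraMap (RatFunc k) L (algebraMap k (RatFunc k) c)) = HahnSeries.C c) ∧
      φ (algebraMap (RatFunc k) L RatFunc.X) = HahnSeries.C a + ss k

/-- `K ⊇ E` is a field on which `Γ` acts faithfully and trivially on `E`, of degree `|Γ|` over `E`. -/
def PatchOut {Ω : Type} [Field Ω] (E K : Subfield Ω) {Γ : Type} [Group Γ] [Fintype Γ]
    (act : Γ →* (K ≃+* K)) : Prop :=
  Function.Injective act ∧ E ≤ K ∧ (∀ σ (x : K), (x : Ω) ∈ E → act σ x = x) ∧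
  ∃ b : Γ → K,
    (∀ z : K, ∃ q : Γ → Ω, (∀ γ, q γ ∈ E) ∧ (z : Ω) = ∑ γ, q γ * (b γ : Ω)) ∧
    ∀ q : Γ → Ω, (∀ γ, q γ ∈ E) → ∑ γ, q γ * (b γ : Ω) = 0 → ∀ γ, q γ = 0

/-- `z` is a polynomial in `u` of degree at most `d` with coefficients in `k`. -/
def IsPd {k : Type} [Field k] (u : LaurentSeries k) (d : ℕ) (z : LaurentSeries k) : Prop :=
  ∃ P : k[X], P.natDegree ≤ d ∧ aeval u P = z

/-- The embedding of `k((t))(X)` into `k((s))((t))`, `X ↦ a + s`. -/
def IsJ {k : Type} [Field k] (a : k)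
    (j : RatFunc (LaurentSeries k) →+* LaurentSeries (LaurentSeries k)) : Prop :=
  (∀ c : LaurentSeries k, j (algebraMap (LaurentSeries k) (RatFunc (LaurentSeries k)) c) =
    mapL (HahnSeries.C : k →+* LaurentSeries k) c) ∧
  j RatFunc.X = HahnSeries.C (HahnSeries.C a + ss k)

/-- `k` is algebraically closed in `Λ` (via `φ`). -/
def ACl {k Λ : Type} [Field k] [Field Λ] (φ : k →+* Λ) : Prop :=
  ∀ z : Λ, (∃ f : k[X], f ≠ 0 ∧ eval₂ φ z f = 0) → ∃ c : k, φ c = z

end MP7U
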