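import Pool.Agent.Lib.MP_7f581e_U.A.Spec1

/-!
# C41 (MP_7f581e_nt), Block A: IndF, the induced form (helper82)
-/

set_option autoImplicit false

namespace MP7U

open Polynomial

theorem aIndF : IndFStmt := by
  classical
  intro Ω _ P Γ _ _ _ H _ _ Q hQ htr
  obtain ⟨C, hC, hQC⟩ := hQ
  obtain ⟨T, hT, -⟩ := Subgroup.exists_isComplement_right H (1 : Γ)
  let e : (↥H × ↥T) ≃ Γ := Equiv.ofBijective (fun x : ↥H × ↥T => (x.1 : Γ) * (x.2 : Γ)) hT
  have he : ∀ (h : H) (θ : T), e (h, θ) = (h : Γ) * (θ : Γ) := fun h θ => rfl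
  have : Fintype T := Fintype.ofFinite T
  let C' : Matrix Γ Γ Ω := Matrix.reindex e e (Matrix.blockDiagonal (fun _ : T => C))
  have hdet : IsUnit C'.det := by
    show IsUnit (Matrix.reindex e e (Matrix.blockDiagonal (fun _ : T => C))).det
    rw [Matrix.det_reindex_self, Matrix.det_blockDiagonal, Finset.prod_const]
    exact hC.pow _
  have hmv : ∀ (q : Γ → Ω) (h : H) (θ : T), C'.mulVec q (e (h, θ)) =
      C.mulVec (fun h' => q (e (h', θ))) h := by
    intro q h θ
    rw [Matrix.mulVec, Matrix.mulVec, dotProduct, dotProduct, ← e.sum_comp, Fintype.sum_prod_type]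
    refine Finset.sum_congr rfl fun h' _ => ?_
    rw [Finset.sum_eq_single θ]
    · show (Matrix.blockDiagonal (fun _ : T => C)) (e.symm (e (h, θ))) (e.symm (e (h', θ))) * _ = _
      rw [e.symm_apply_apply, e.symm_apply_apply, Matrix.blockDiagonal_apply, if_pos rfl]
    · intro θ' _ hne
      show (Matrix.blockDiagonal (fun _ : T => C)) (e.symm (e (h, θ))) (e.symm (e (h', θ'))) * _ = _
      rw [e.symm_apply_apply, e.symm_apply_apply, Matrix.blockDiagonal_apply,
        if_neg (fun h => hne h.symm), zero_mul]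
    · intro h1
      exact absurd (Finset.mem_univ θ) h1
  refine ⟨C', hdet, Set.ext fun φ => ⟨fun hφ => ?_, ?_⟩⟩
  · have h1 : ∀ θ : T, ∃ q : H → Ω, (∀ i, q i ∈ P) ∧
        (fun h : H => φ ((h : Γ) * (θ : Γ))) = C.mulVec q := by
      intro θ
      have h2 := hφ (θ : Γ)
      rw [hQC] at h2
      exact h2
    choose q hqP hq using h1
    refine ⟨fun γ => q (e.symm γ).2 (e.symm γ).1, fun γ => hqP _ _, ?_⟩
    funext γ
    obtain ⟨⟨h, θ⟩, rfl⟩ := e.surjective γ
    rw [hmv]
    have h2 := congrFun (hq θ) h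
    simp only [e.symm_apply_apply]
    exact h2
  · rintro ⟨q, hqP, rfl⟩
    intro θ'
    obtain ⟨⟨h₀, θ⟩, rfl⟩ := e.surjective θ'
    have h1 : (fun h : H => C'.mulVec q ((h : Γ) * (θ : Γ))) ∈ Q := by
      rw [hQC]
      refine ⟨fun h' => q (e (h', θ)), fun i => hqP _, ?_⟩
      funext h
      exact hmv q h θ
    have h2 := htr _ h1 h₀
    have h3 : (fun h : H => C'.mulVec q ((h : Γ) * e (h₀, θ))) =
        (fun h : H => C'.mulVec q (((h * h₀ : H) : Γ) * (θ : Γ))) := by
      funext h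
      rw [he, Subgroup.coe_mul, mul_assoc]
    rw [h3]
    exact h2

end MP7U
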