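import Pool.Agent.Lib.MP_7f581e_U.A.Defs

/-!
# C41 (MP_7f581e_nt), Block A: formal patching over `k((t))(x)`

One Lean task for each `def XStmt : Prop`: file `MP_7f581e_U/A/X.lean`, import this file,
`namespace MP7U`, `theorem aX : XStmt` (statements which are used are hypotheses, in the order of
the docstring: `theorem aX (h1 : AStmt) (h2 : BStmt) : XStmt`).

Notation (see `Defs.lean`): `Λ` a field, `Ω = Λ((t)) = LaurentSeries Λ`; for `Λ = k((s))`: `x = xx k = s⁻¹`, `Px k = k[x]`, `Os k = k⟦s⟧`;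
`PS A` the power series in `t` with coefficients in `A`, `FF A` its field of fractions.
-/

set_option autoImplicit false

namespace MP7U

open Polynomial

/-- **DecA.** (50 lines)  `k((s)) = k[x] + k⟦s⟧` is the field of fractions of `k⟦s⟧`.

*Proof.*  `z = s^(-m) f` with `f ∈ k⟦s⟧` (`HahnSeries`/`LaurentSeries.single_order_mul_powerSeriesPart` or
`IsLocalization` away from `X`); `f = P + s^m g` with a polynomial `P` of degree `< m` (`PowerSeries.trunc`), and `s^(-m) P(s)` is a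
polynomial in `x = s⁻¹`: `s^(-m) s^i = x^(m - i)`.  For the second part `b = s^m`, `a = f`. -/
def DecAStmt : Prop :=
  ∀ (k : Type) [Field k] (z : LaurentSeries k), (∃ a ∈ Px k, ∃ b ∈ Os k, z = a + b) ∧
    ∃ a ∈ Os k, ∃ b ∈ Os k, b ≠ 0 ∧ z * b = a

/-- **FacA.** (120 lines)  Factorization of matrices which are `1` modulo `t`.

*Proof.*  Write `M = ∑ M_n t^n` with matrices `M_n` over `Λ`, `M_0 = 1`.  Choose recursively `U_0 = V_0 = 1` and for `n ≥ 1`
matrices `U_n` over `A` and `V_n` over `B` with `U_n + V_n = M_n - ∑_{0 < i < n} U_i V_(n-i)` (the additive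
decomposition, entrywise; `choose`).  (Strong recursion for the pair `(U_n, V_n)`, e.g. on lists or by `Nat.strongRec` /
a function which computes the pair from the earlier pairs; `WellFounded.fix`.)  `U i j = PowerSeries.mk (fun n => U_n i j)`, same for `V`; `M = U V` by
comparison of coefficients (`PowerSeries.coeff_mul`, `Finset.sum_antidiagonal`, `Matrix.mul_apply`). -/
def FacAStmt : Prop :=
  ∀ (Λ : Type) [Field Λ] (A B : Subring Λ), (∀ z : Λ, ∃ a ∈ A, ∃ b ∈ B, z = a + b) →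
    ∀ (ι : Type) [Fintype ι] [DecidableEq ι] (M : Matrix ι ι (PowerSeries Λ)),
    (∀ i j, PowerSeries.constantCoeff (M i j) = (1 : Matrix ι ι Λ) i j) →
    ∃ U V : Matrix ι ι (PowerSeries Λ), (∀ i j n, PowerSeries.coeff n (U i j) ∈ A) ∧
      (∀ i j n, PowerSeries.coeff n (V i j) ∈ B) ∧ M = U * V

/-- **TrA.** (150 lines)  Truncation.

*Proof.*  The entries of `C` and `C⁻¹` are Laurent series: there is `q : ℕ` with `C = t^(-q) C'`, `C⁻¹ = t^(-q) C''`, `C', C''` matrices over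
`Λ⟦t⟧` (`LaurentSeries.single_order_mul_powerSeriesPart`, finitely many entries).  Let `C'' = T + t^(2q+1) C₃` with
`T` the truncation (entries polynomials in `t` of degree `≤ 2q` with coefficients in `Λ`).  `C' C'' = t^(2q)`, so
`C' T = t^(2q) (1 - t C' C₃)`.  `M₀ = T` (mapped to `Ω`), `M = 1 - t C' C₃`, `r = q`: `C M₀ = t^(-q) C' T = t^q M`.
The entries of `T` are in `FF B`: `Λ ⊆ FF B` (constants: `z b = a` with `a, b ∈ B`, `C_mem_PS`, `mem_FF`), `t ∈ FF B`.
`det M` has constant coefficient `1` (`RingHom.map_det` with `constantCoeff`), so it is not zero, so `det (C M₀) ≠ 0` and `det M₀ ≠ 0`. -/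
def TrAStmt : Prop :=
  ∀ (Λ : Type) [Field Λ] (B : Subring Λ), (∀ z : Λ, ∃ a ∈ B, ∃ b ∈ B, b ≠ 0 ∧ z * b = a) →
    ∀ (ι : Type) [Fintype ι] [DecidableEq ι] (C : Matrix ι ι (LaurentSeries Λ)), IsUnit C.det →
    ∃ M₀ : Matrix ι ι (LaurentSeries Λ), (∀ i j, M₀ i j ∈ FF B) ∧ IsUnit M₀.det ∧
      ∃ (r : ℤ) (M : Matrix ι ι (PowerSeries Λ)),
        (∀ i j, PowerSeries.constantCoeff (M i j) = (1 : Matrix ι ι Λ) i j) ∧
        C * M₀ = (HahnSeries.single r (1 : Λ) : LaurentSeries Λ) •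
          M.map (HahnSeries.ofPowerSeries ℤ Λ)

/-- **FcA.** (60 lines)  Uses DecA, FacA, TrA.  The factorization property.

*Proof.*  `A = Px k`, `B = Os k`.  `C M₀ = t^r M = t^r U V`, so `C = (t^r U) (V M₀⁻¹)`.  `t^r U` has entries in `FF A` (`PS_le_FF`, `t ∈ FF A`, powers in
a field), `V` in `FF B`, and `M₀⁻¹` has entries in `FF B` (`M₀⁻¹ = (det M₀)⁻¹ adjugate M₀`; the determinant and the adjugate
of a matrix with entries in a subfield have values in the subfield: map the matrix over the subfield by `Subfield.subtype`,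
`RingHom.map_det`, `RingHom.map_adjugate`). -/
def FcAStmt : Prop := ∀ (k : Type) [Field k], FacProp (FF (Px k)) (FF (Os k))

/-- **WdA.** (60 lines)  Division with remainder for power series.

*Proof.*  Recursion: given `q_0, ..., q_(n-1)`, choose `q_n ∈ R`, `r_n ∈ W` with `a_n - ∑_{i=1}^{n} b_i q_(n-i) = b_0 q_n + r_n`.  `q = mk q_n`,
`r = mk r_n`, compare coefficients. -/
def WdAStmt : Prop :=
  ∀ (Λ : Type) [Field Λ] (R : Subring Λ) (W : AddSubgroup Λ), (∀ w ∈ W, w ∈ R) →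
    ∀ b : PowerSeries Λ, (∀ n, PowerSeries.coeff n b ∈ R) →
    (∀ z ∈ R, ∃ q ∈ R, ∃ w ∈ W, z = PowerSeries.constantCoeff b * q + w) →
    ∀ a : PowerSeries Λ, (∀ n, PowerSeries.coeff n a ∈ R) →
    ∃ q r : PowerSeries Λ, (∀ n, PowerSeries.coeff n q ∈ R) ∧ (∀ n, PowerSeries.coeff n r ∈ W) ∧
      a = b * q + r

/-- **PxA.** (120 lines)  Uses WdA.  Preparation over `k[x]`.

*Proof.*  `b = ofPowerSeries f`, `f ≠ 0`; `f = t^m g` with `g_0 ≠ 0` (`m` the order); the coefficients of `g` are coefficients of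
`f`, so in `Px k`.  `g_0 = G(x)`, `G ≠ 0` a polynomial of degree `d`.  Let `W` be the additive group of the `P(x)` with `degree P < d`
(`Polynomial.degreeLT k d` mapped by `aeval x`).  Division of polynomials by `G` (`EuclideanDomain.div_add_mod`, `degree_mod_lt`) gives the hypothesis of WdA for `g`.  Apply WdA
to the constant `a = x^d`: `x^d = g q + r`.  `P = x^d - r` has coefficients which are polynomials in `x` of degree `≤ d`, and its constant
coefficient `x^d - r_0` is not zero: `X^d - (polynomial of degree < d) ≠ 0` and `aeval x` is injective (`x` is transcendental over `k`: the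
coefficients of `aeval x Q` are those of `Q` at the exponents `-i`).  `g q = P`, so `b q = t^m P`. -/
def PxAStmt : Prop :=
  ∀ (k : Type) [Field k] (b : LaurentSeries (LaurentSeries k)), b ∈ PS (Px k) → b ≠ 0 →
    ∃ q ∈ PS (Px k), ∃ (P : PowerSeries (LaurentSeries k)) (d m : ℕ), P ≠ 0 ∧
      (∀ n, IsPd (xx k) d (PowerSeries.coeff n P)) ∧
      b * q = HahnSeries.single 1 1 ^ m * HahnSeries.ofPowerSeries ℤ (LaurentSeries k) P

/-- **OsA.** (120 lines)  Uses WdA.  Preparation over `k⟦s⟧`.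

*Proof.*  As PxA: `b = t^m g`, `g_0 ≠ 0` in `k⟦s⟧`, `g_0 = s^d u` with a unit `u` of `k⟦s⟧` (`PowerSeries`: `X^order * unit`,
`PowerSeries.eq_unit_mul_X_pow`-like).  `W` is the additive group of the polynomials in `s` of degree `< d`; every element of `k⟦s⟧` is `s^d u q + w`
(`trunc`).  WdA for `a = s^d`: `s^d = g q + r`, `P = s^d - r`; the constant coefficient `s^d - r_0` is not zero (a nonzero polynomial in
`s`, leading coefficient `1` at `s^d`). -/
def OsAStmt : Prop :=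
  ∀ (k : Type) [Field k] (b : LaurentSeries (LaurentSeries k)), b ∈ PS (Os k) → b ≠ 0 →
    ∃ q ∈ PS (Os k), ∃ (P : PowerSeries (LaurentSeries k)) (d m : ℕ), P ≠ 0 ∧
      (∀ n, IsPd (ss k) d (PowerSeries.coeff n P)) ∧
      b * q = HahnSeries.single 1 1 ^ m * HahnSeries.ofPowerSeries ℤ (LaurentSeries k) P

/-- **JeA.** (100 lines)  The embedding of `k((t))(X)`.

*Proof.*  `ψ = eval₂RingHom (mapL C) (C (C a + s)) : k((t))[X] → Ω`.  It is injective: let `F = ∑ c_i X^i ≠ 0` be of degree `N` (`i ≤ N`).  The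
coefficient of `t^m` in `ψ F` is `∑ c_{i,m} (a + s)^i ∈ k[s] ⊆ k((s))` (`c_{i,m}` the coefficient of `t^m` in `c_i`; `HahnSeries.C` is
multiplication by a constant: `HahnSeries.C_mul_eq_smul`, `coeff_smul`).  Choose `m` with `c_{N,m} ≠ 0`; then it is the
value at `s` of the polynomial `(∑ c_{i,m} X^i).comp (C a + X) ≠ 0`, not zero because `s` is transcendental over `k`.  So `ψ` extends to the
field `RatFunc` (`RatFunc.liftRingHom` or `IsFractionRing.lift`). -/
def JeAStmt : Prop := ∀ (k : Type) [Field k] (a : k), ∃ j, IsJ a j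

/-- **EmA.** (80 lines)  Power series with coefficients which are polynomials of bounded degree.

*Proof.*  Let `coeff n P = P_n(u)`, `natDegree P_n ≤ d` (`choose`).  `c_i = ∑_n coeff i (P_n) t^n ∈ k⟦t⟧ ⊆ k((t))`, `i ≤ d`.  Then
`ofPowerSeries P = ∑_{i ≤ d} mapL C (c_i) * C (u^i)` (compare the coefficients of `t^n`: `∑_i C (coeff i P_n) u^i = aeval u P_n`).  `mapL C c_i` is in the range of `j` and
so is `C u`: `u = s`: `C s = j (X - a)`; `u = x = s⁻¹` the inverse. -/
def EmAStmt : Prop :=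
  ∀ (k : Type) [Field k] (a : k) (j : RatFunc (LaurentSeries k) →+* LaurentSeries (LaurentSeries k)),
    IsJ a j → ∀ (P : PowerSeries (LaurentSeries k)) (d : ℕ),
    ((∀ n, IsPd (xx k) d (PowerSeries.coeff n P)) ∨ ∀ n, IsPd (ss k) d (PowerSeries.coeff n P)) →
    ∃ w, j w = HahnSeries.ofPowerSeries ℤ (LaurentSeries k) P

/-- **RgA.** (80 lines)  The range of `j` is contained in both fields.

*Proof.*  `j⁻¹ (FF A)` is a subfield of `k((t))(X)` (`Subfield.comap`).  It contains `X`: `C a + s ∈ Os k`; `s = x⁻¹` and `C a, x ∈ Px k`, so `C (C a + s) ∈ FF (Px k)`.  It contains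
`c ∈ k((t))`: `c = t^(-m) f`, `f ∈ k⟦t⟧`, `mapL C c = t^(-m) (power series with coefficients in C(k))`, and `C (k)` is contained in `Px k` and in
`Os k`.  So it contains all polynomials and all quotients (`RatFunc.induction_on` or `IsFractionRing.div_surjective`). -/
def RgAStmt : Prop :=
  ∀ (k : Type) [Field k] (a : k) (j : RatFunc (LaurentSeries k) →+* LaurentSeries (LaurentSeries k)),
    IsJ a j → ∀ w, j w ∈ FF (Px k) ∧ j w ∈ FF (Os k)

/-- **InA.** (150 lines)  Uses PxA, OsA, EmA, RgA.  `FF (Px k) ∩ FF (Os k)` is the field `k((t))(x)`.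

*Proof.*  `z d = c` with `c, d ∈ PS (Os k)`, `d ≠ 0` (`mem_FF`).  OsA: `d q = t^m P`, `P ≠ 0`; so `z' = z t^m P = c q ∈ PS (Os k)`, and `P` (by EmA) is in the
range of `j`, so in `FF (Px k)` (RgA), and so is `t` (`t_mem_PS`).  So `z' ∈ FF (Px k)`: `z' b = a`, `a, b ∈ PS (Px k)`, `b ≠ 0`.  PxA: `b q' = t^(m') P'`, coefficients of `P'` polynomials in `x` of degree `≤ d'`.
`z'' = z' t^(m') P' = a q' ∈ PS (Px k)`.  The coefficients of `z''` are in `k[x]` and in `x^(d') k⟦s⟧` (products of `z' ∈ PS (Os k)` and of `P'`), so they are polynomials in `x`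
of degree `≤ d'` (an element `Q(x)` of `x^(d') k⟦s⟧` has no coefficients at `s^(-i)`, `i > d'`).  By EmA `z''`, `P`, `P'` are in the range of `j`, which is
a subfield containing `t`; so `z = z'' / (t^m P t^(m') P')` is in the range. -/
def InAStmt : Prop :=
  ∀ (k : Type) [Field k] (a : k) (j : RatFunc (LaurentSeries k) →+* LaurentSeries (LaurentSeries k)),
    IsJ a j → ∀ z, z ∈ FF (Px k) → z ∈ FF (Os k) → ∃ w, j w = z

/-- **IndF.** (120 lines)  The induced form.

*Proof.*  Choose representatives: there is a bijection `H × T ≃ Γ`, `(h, θ) ↦ h θ` (`T` a right transversal: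
`Subgroup.exists_right_transversal`/`Subgroup.IsComplement`, or `T = Quotient (QuotientGroup.rightRel H)` with a section).  For `θ' = h₀ θ` the function
`h ↦ φ (h θ')` is the translate by `h₀` of `h ↦ φ (h θ)` (`tr`), so `φ ∈ ind H Q` iff `(h ↦ φ (h θ)) ∈ Q` for all `θ ∈ T`.  With `Q = {C q}` this means
`φ (h θ) = ∑_j C h j (q_θ j)`, i.e. `φ = C' q'`, where `C'` is the matrix `C'_(hθ, h'θ') = C_(h,h')` if `θ = θ'` and `0` otherwise
(`Matrix.reindex` of `Matrix.blockDiagonal (fun _ => C)`, or of the Kronecker product with `1`); its determinant is `det C ^ |T|`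
(`Matrix.det_blockDiagonal`), a unit. -/
def IndFStmt : Prop :=
  ∀ (Ω : Type) [Field Ω] (P : Subfield Ω) (Γ : Type) [Group Γ] [Fintype Γ] [DecidableEq Γ]
    (H : Subgroup Γ) [Fintype H] [DecidableEq H] (Q : Set (H → Ω)), IsFm P Q →
    (∀ q ∈ Q, ∀ h₀ : H, (fun h => q (h * h₀)) ∈ Q) → IsFm P (ind H Q)

/-- **IntF.** (60 lines)  The intersection of a `P₁`-form and a `P₂`-form.

*Proof.*  `N₁ = C₁ P₁^ι`, `N₂ = C₂ P₂^ι`.  `C₁⁻¹ C₂ = D₁ D₂` (`FacProp`), `D_i` a matrix over `P_i`; the `D_i` are invertible and the inverses have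
entries in `P_i` (adjugate).  `U = C₁ D₁ = C₂ D₂⁻¹`.  So `N₁ = U P₁^ι` and `N₂ = U P₂^ι`, and `U q = U q'` gives `q = q'`. -/
def IntFStmt : Prop :=
  ∀ (Ω : Type) [Field Ω] (P₁ P₂ : Subfield Ω), FacProp P₁ P₂ → ∀ (ι : Type) [Fintype ι]
    [DecidableEq ι] (N₁ N₂ : Set (ι → Ω)), IsFm P₁ N₁ → IsFm P₂ N₂ → IsFm (P₁ ⊓ P₂) (N₁ ∩ N₂)

/-- **FldF.** (200 lines)  The field.

*Proof.*  `N = {C q : q ∈ E^Γ}` is closed under addition and multiplication by elements of `E`, and contains the constants `e ∈ E` (`e * 1`); with `mul` it is an `E`-algebra of finite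
dimension.  `K = {φ 1 : φ ∈ N}` is a subring containing `E`.  `φ ∈ N`, `φ ≠ 0`: `φ` has no zeros, so `ψ ↦ φ ψ` is an injective `E`-linear map `N → N`, so it is surjective
(`N` has finite dimension over `E`: it is the image of `E^Γ` under an injective linear map; `LinearMap.surjective_of_injective`), and there is `ψ ∈ N` with `φ ψ = 1`; so `K` is a
field.  `φ 1 = ψ 1` implies `φ = ψ` (`φ - ψ ∈ N` has a zero).  `act σ (φ 1) = φ σ`: this is `(φ (· σ)) 1 ∈ K`; additive, multiplicative; `act (σ τ) = act σ ∘ act τ`: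
`act τ (φ 1) = φ τ = ψ 1` with `ψ = φ (· τ)`, `act σ (ψ 1) = ψ σ = φ (σ τ)`.  So `act` is a homomorphism to `K ≃+* K`.  It is the identity on `E` (constant functions).  Injective:
if `act σ = 1` then `φ σ = φ 1` for all `φ ∈ N`, in particular for the columns of `C` (`q = Pi.single γ 1`), so the rows `σ` and `1` of `C` are equal; `C` is invertible, so `σ = 1`
(`Matrix.det_zero_of_row_eq`).  `b γ = C 1 γ` (the column is in `N`): `z = φ 1 = ∑ C 1 γ q γ`; if `∑ q γ b γ = 0` with `q γ ∈ E` then `φ = C q` has a zero at `1`, so `φ = 0` and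
`q = 0` (`C` is invertible). -/
def FldFStmt : Prop :=
  ∀ (Ω : Type) [Field Ω] (E : Subfield Ω) (Γ : Type) [Group Γ] [Fintype Γ] [DecidableEq Γ]
    (N : Set (Γ → Ω)), IsFm E N → (1 : Γ → Ω) ∈ N → (∀ φ ∈ N, ∀ ψ ∈ N, φ * ψ ∈ N) →
    (∀ φ ∈ N, ∀ σ, (fun θ => φ (θ * σ)) ∈ N) → (∀ φ ∈ N, ∀ θ, φ θ = 0 → φ = 0) →
    ∃ (K : Subfield Ω) (act : Γ →* (K ≃+* K)), PatchOut E K act ∧
      ∀ φ ∈ N, ∃ z : K, ∀ σ, (act σ z : Ω) = φ σ

/-- **PatF.** (80 lines)  Uses IndF, IntF, FldF.  Patching.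

*Proof.*  `N = ind H₁ Q₁ ∩ ind H₂ Q₂` is a form over `P₁ ⊓ P₂`.  It contains `1`, is closed under products, and under right translations (`φ (· σ)` restricted to `H θ` is `φ` restricted to
`H θ σ`).  Let `φ ∈ N`, `φ θ = 0`.  `h ↦ φ (h θ)` is in `Q_i` and vanishes at `1`, so `φ (h θ) = 0` for all `h ∈ H_i`.  So the set of zeros is stable under left multiplication by
`H₁` and `H₂`, so by `H₁ ⊔ H₂ = Γ` (`Subgroup.closure_induction`, `Subgroup.sup_eq_closure`), so `φ = 0`.  FldF. -/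
def PatFStmt : Prop :=
  ∀ (Ω : Type) [Field Ω] (P₁ P₂ : Subfield Ω), FacProp P₁ P₂ → ∀ (Γ : Type) [Group Γ]
    [Fintype Γ] [DecidableEq Γ] (H₁ H₂ : Subgroup Γ) [Fintype H₁] [DecidableEq H₁] [Fintype H₂]
    [DecidableEq H₂], H₁ ⊔ H₂ = ⊤ → ∀ (Q₁ : Set (H₁ → Ω)) (Q₂ : Set (H₂ → Ω)),
    IsPt P₁ H₁ Q₁ → IsPt P₂ H₂ Q₂ →
    ∃ (K : Subfield Ω) (act : Γ →* (K ≃+* K)), PatchOut (P₁ ⊓ P₂) K act ∧
      ∀ φ ∈ ind H₁ Q₁, φ ∈ ind H₂ Q₂ → ∃ z : K, ∀ σ, (act σ z : Ω) = φ σ

/-- **HtA.** (100 lines)  Change of the base field.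

*Proof.*  `L = K` with the structure map `F → K`, `w ↦ j w` (an injective homomorphism with range `E`), `i` the inclusion.  `act' σ = act σ` is `F`-linear (`act` is trivial
on `E`).  `b` is a basis of `L` over `F` (coefficients `q γ = j (w γ)`), so `finrank F L = card Γ` (`Module.Basis.mk`, `Module.finrank_eq_card_basis`).
`card Γ ≤ card (L ≃ₐ[F] L) ≤ finrank F L` (`act'` is injective; `AlgEquiv.card_le`), so equality, `act'` is
bijective, and `L / F` is Galois (`IsGalois.of_card_aut_eq_finrank`). -/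
def HtAStmt : Prop :=
  ∀ (F Ω : Type) [Field F] [Field Ω] (j : F →+* Ω) (E K : Subfield Ω) (Γ : Type) [Group Γ]
    [Fintype Γ] (act : Γ →* (K ≃+* K)), (∀ z, z ∈ E ↔ ∃ w, j w = z) → PatchOut E K act →
    ∃ (L : Type) (_ : Field L) (_ : Algebra F L) (i : L →+* Ω) (act' : Γ →* (L ≃ₐ[F] L)),
      (∀ w, i (algebraMap F L w) = j w) ∧ FiniteDimensional F L ∧ IsGalois F L ∧
      Function.Bijective act' ∧ ∀ z : K, ∃ z' : L, i z' = z ∧ ∀ σ, i (act' σ z') = (act σ z : Ω)

/-- **RegA.** (120 lines)  `k((t))` is algebraically closed in `Λ((t))` if `k` is algebraically closed in `Λ`.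

*Proof.*  Let `z ∈ Λ((t))` be algebraic over `k((t))`; after multiplication by a power of `t` we may assume `z ∈ Λ⟦t⟧` (`t^m z` is algebraic:
`f(t^(-m) Y)`).  Claim: if `z ∈ Λ⟦t⟧` is algebraic over `k((t))` then `coeff 0 z ∈ φ(k)`.  There is a relation `∑ a_i z^i = 0` with `a_i ∈ k((t))` not all zero; multiply by a power of `t` so that
all `a_i ∈ k⟦t⟧` and some `a_i` has nonzero constant coefficient.  The constant coefficients give `∑ φ(a_i(0)) z_0^i = 0`, a nonzero polynomial over `k`; so `z_0 = φ(c)`.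
Then `(z - z_0) / t ∈ Λ⟦t⟧` is again algebraic over `k((t))`.  So by induction all coefficients of `z` are in `φ(k)` (state: for all `n` and all algebraic `z ∈ Λ⟦t⟧`,
`coeff n z ∈ φ(k)`), and `z = mapL φ c` where `c` has the coefficients in `k` (`choose`; for Laurent series: `c = t^(-m) mk ...`). -/
def RegAStmt : Prop :=
  ∀ (k Λ : Type) [Field k] [Field Λ] (φ : k →+* Λ), ACl φ → ACl (mapL φ)

/-- **RegB.** (60 lines)  `k` is algebraically closed in `k((s))`.

*Proof.*  Let `f ≠ 0` in `k[X]` with `f(z) = 0`.  Suppose first `z ∈ k⟦s⟧`, and let `c = coeff 0 z`.  If `z ≠ C c` then `z - C c = s^m u`, `m ≥ 1`, `u` a unit; `z - C c` is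
a root of `g = f(X + c) = X^e g₁`, `g₁(0) ≠ 0`, so `g₁(z - C c) = 0` (a field), and the constant coefficient gives `g₁(0) = 0`, a contradiction.  If `z` is not in `k⟦s⟧` then
`z⁻¹ ∈ s k⟦s⟧` is algebraic, so `z⁻¹ = C (coeff 0 z⁻¹) = 0`, a contradiction. -/
def RegBStmt : Prop := ∀ (k : Type) [Field k], ACl (HahnSeries.C : k →+* LaurentSeries k)

/-- **Fm1.** (250 lines)  The patch of a Galois extension of `k(X)`.

*Proof.*  `b : H → L` a basis of `L` over `k(X)` (`card H = card (L ≃ₐ L) = finrank`), `C = HahnSeries.C : Λ → Ω`.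
`Q = {q | ∃ r : H → FF (Px k), q h = ∑ j, r j * C (φ (act h (b j)))}`.  The matrix `(C (φ (act h (b j))))_{h,j}` is invertible: if a row vector `v` over `L` has
`∑_h v_h act h (b j) = 0` for all `j`, then `∑ v_h act h = 0` on `L` and `v = 0` by Dedekind (`linearIndependent_monoidHom`; `act` is injective), so the matrix over `L` is
invertible, and so is its image under `C ∘ φ`.  This is `IsFm`.  For `u ∈ L`: `u = ∑ r_j b_j`, `r_j ∈ k(X)`, so `(h ↦ C (φ (act h u))) ∈ Q`, because `C (φ r_j) ∈ FF (Px k)`: `φ` maps `k(X)` to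
`k(s)` (`X ↦ a + s`, `s = x⁻¹`).  So `1 ∈ Q`; products: `act h (b i) act h (b j) = act h (b i b j)`; translations: `act (h h₀) (b j) = act h (act h₀ (b j))`.  `inj`: let
`∑ r_j C (φ (b j)) = 0`, `r_j ∈ FF (Px k)`; with a common denominator we may assume `r_j ∈ PS (Px k)` (not all zero if the old ones were not all zero).  The coefficient of `t^n` is `∑ r_{j,n} φ (b j) = 0` with
`r_{j,n} ∈ k[x]`; `x = φ (1/(X - a))`, so `r_{j,n} = φ (ρ_{j,n})` with `ρ_{j,n} ∈ k(X)`, and `∑ ρ_{j,n} b_j = 0`, so all `r_{j,n} = 0`. -/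
def Fm1Stmt : Prop :=
  ∀ (k : Type) [Field k] (Γ : Type) [Group Γ] [Fintype Γ] [DecidableEq Γ] (H : Subgroup Γ)
    [Fintype H] [DecidableEq H] (L : Type) [Field L] [Algebra (RatFunc k) L]
    (act : H →* (L ≃ₐ[RatFunc k] L)), FiniteDimensional (RatFunc k) L → IsGalois (RatFunc k) L →
    Function.Bijective act → ∀ (a : k) (φ : L →+* LaurentSeries k),
    (∀ c : k, φ (algebraMap (RatFunc k) L (algebraMap k (RatFunc k) c)) = HahnSeries.C c) →
    φ (algebraMap (RatFunc k) L RatFunc.X) = HahnSeries.C a + ss k →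
    ∃ Q : Set (H → LaurentSeries (LaurentSeries k)), IsPt (FF (Px k)) H Q ∧
      ∀ u : L, (fun h => HahnSeries.C (φ (act h u))) ∈ Q

/-- **Fm2.** (100 lines)  The quadratic patch.

*Proof.*  `H = {1, g}`, `χ : H → {1, -1}`, `χ g = -1` (e.g. `χ h = if h = 1 then 1 else -1`, multiplicative because `H` has two elements; `zpowers g`, `orderOf g = 2`).
`Q = {h ↦ u + v χ(h) w : u, v ∈ P}`.  Form: the matrix with rows indexed by `h`, columns by `{1, g}`, entries `1` and `χ(h) w`, determinant `-2 w ≠ 0` up to sign (`w ≠ 0` because `w ∉ P`).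
`1 ∈ Q`; products: `w² ∈ P`, `χ² = 1`; translations: `χ (h h₀) = χ(h) χ(h₀)`.  `inj`: `u + v w = 0` with `v ≠ 0` gives `w ∈ P`; so `v = 0`, `u = 0`. -/
def Fm2Stmt : Prop :=
  ∀ (Ω : Type) [Field Ω] (P : Subfield Ω) (Γ : Type) [Group Γ] (g : Γ), g ^ 2 = 1 → g ≠ 1 →
    ∀ [Fintype (Subgroup.zpowers g)] [DecidableEq (Subgroup.zpowers g)] (w : Ω), w ∉ P →
    w ^ 2 ∈ P → (2 : Ω) ≠ 0 →
    ∃ Q : Set (Subgroup.zpowers g → Ω), IsPt P (Subgroup.zpowers g) Q ∧
      ∀ u ∈ P, (fun _ => u) ∈ Q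

/-- **SqA.** (60 lines)  Square roots of power series.

*Proof.*  `w_0 = 1` and recursively `w_n = h (c_n - ∑_{0 < i < n} w_i w_(n-i))` with `2 h = 1`. -/
def SqAStmt : Prop :=
  ∀ (Λ : Type) [Field Λ] (A : Subring Λ), (∃ h ∈ A, 2 * h = 1) → ∀ c : PowerSeries Λ,
    (∀ n, PowerSeries.coeff n c ∈ A) → PowerSeries.constantCoeff c = 1 →
    ∃ w : PowerSeries Λ, (∀ n, PowerSeries.coeff n w ∈ A) ∧ w ^ 2 = c

/-- **WnA.** (80 lines)  `1 + x t` is not a square in `k((t))(x)`.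

*Proof.*  `T ∈ k((t))` the element `t`.  `j (1 + T / (X - a)) = 1 + C x * t` because `j (X - a) = C s` and `j` of the constant `T` is `mapL C t = t`.  So `r² = 1 + T / (X - a) = (X - a + T) / (X - a)` with
`r = ` the preimage of `w` (`j` is injective).  So `(r (X - a))² = (X - a + T) (X - a)`; `r (X - a)` is integral over the polynomial ring, so a
polynomial `R` with `R² = (X - a + T)(X - a)`; evaluate at `a`: `R(a) = 0`, so `(X - a)² ∣ R²`, so `(X - a) ∣ X - a + T`, so `T = 0`, a contradiction. -/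
def WnAStmt : Prop :=
  ∀ (k : Type) [Field k] (a : k) (j : RatFunc (LaurentSeries k) →+* LaurentSeries (LaurentSeries k)),
    IsJ a j → ∀ r, j r ^ 2 ≠ 1 + HahnSeries.C (xx k) * HahnSeries.single 1 1

/-- **PatA.** (200 lines)  Uses FcA, JeA, InA, RgA, PatF, HtA, RegA, RegB, Fm1, Fm2, SqA, WnA (in this order).
The patching theorem.

*Proof.*  `P₁ = FF (Px k)`, `P₂ = FF (Os k)`, `j` from JeA for the `a` of `HHs`; `P₁ ⊓ P₂` is the range of `j` (InA, RgA).  `H₁ = H`, `Q₁` from Fm1; `H₂ = zpowers g`; `w` the square root of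
`1 + x t` in `PS (Px k)` (SqA; `1/2 ∈ k ⊆ Px k`), so `w ∈ P₁`; `w ∉ P₂` by InA and WnA; `w² ∈ P₂` (`x = s⁻¹`); `Q₂` from Fm2.  `K`, `act` from PatF, `L'`, `i`, `act'` from HtA.
Regularity: `x ∈ L'` algebraic over `k((t))`: `i x ∈ Ω` is a root of the same polynomial (`i ∘ algebraMap = j`, `IsJ`), so `i x = mapL C c` (RegA, RegB), so `i x = i (algebraMap c)`.
`y`: put `y₁ = C (φ y)`.  The function `ψ θ = ε(θ) y₁` is in `ind H Q₁`: on `H θ` it is `ε(θ) (h ↦ ε(h) y₁) = ε(θ) (h ↦ C (φ (act h y)))` (`Q₁` is stable under `±1`, `IsFm`), and in `ind H₂ Q₂`: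
it is constant on `H₂ θ` (`ε g = 1`), with value in `P₂` (`C Λ ⊆ P₂`, DecA is not needed: `mem_FF` with `C_mem_PS`; every element of `k((s))` is `s^(-m)` times an element of `k⟦s⟧`).  So there is `z ∈ K` with
`act σ z = ε(σ) y₁`; `z = y₁` (`σ = 1`), so `act σ z = ε(σ) z`, and `z² = C (φ (X^e)) = j (X^e)`. -/
def PatAStmt : Prop :=
  ∀ (k : Type) [Field k] [CharZero k] (Γ : Type) [Group Γ] [Finite Γ] (ε : Γ →* ℤˣ) (e : ℕ)
    (H : Subgroup Γ) (g : Γ), g ^ 2 = 1 → g ≠ 1 → ε g = 1 → H ⊔ Subgroup.zpowers g = ⊤ →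
    HHs k H (ε.comp H.subtype) e → HH (LaurentSeries k) Γ ε e

end MP7U
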